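import Pool.Agent.URingR.WDef

/-!
# Small facts for the use of the reduction theorem (module GLUE)
-/

namespace URingR

universe u v

variable {S : Type u} [Ring S] {M : Type v} [CommGroup M]

open Ring (jacobson)

theorem uinc_injective (T : Subring S) : Function.Injective (uinc T) :=
  Units.map_injective Subtype.val_injective

/-- the units of `T(χ)` are the stabiliser of `χ` -/
theorem mem_range_uinc_stab {I : Ideal S} [I.IsTwoSided] (hI : I ≤ jacobson S)
    (χ : oneAdd I →* M) (u : Sˣ) :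
    u ∈ (uinc (stab hI χ)).range ↔ ∀ n : oneAdd I, χ (MulAut.conjNormal u n) = χ n := by
  have hc : ∀ (g : Sˣ) (n : oneAdd I), MulAut.conjNormal g n = conjE g n := by
    intro g n
    apply Subtype.ext
    rw [MulAut.conjNormal_apply]
    rfl
  simp only [hc]
  constructor
  · rintro ⟨t, rfl⟩
    exact (unit_mem_stab hI χ _).1 t.1.2
  · intro h
    have h1 : (u : S) ∈ stab hI χ := (unit_mem_stab hI χ u).2 h
    have h2 : ((u⁻¹ : Sˣ) : S) ∈ stab hI χ := by
      refine (unit_mem_stab hI χ u⁻¹).2 fun n => ?_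
      rw [← h (conjE u⁻¹ n)]
      congr 1
      apply Subtype.ext
      change u * (u⁻¹ * n * u⁻¹⁻¹) * u⁻¹ = n
      group
    refine ⟨⟨⟨(u : S), h1⟩, ⟨((u⁻¹ : Sˣ) : S), h2⟩, ?_, ?_⟩, ?_⟩
    · apply Subtype.ext
      exact Units.mul_inv u
    · apply Subtype.ext
      exact Units.inv_mul u
    · exact Units.ext rfl

theorem card_subring_dvd [Finite S] (T : Subring S) : Nat.card T ∣ Nat.card S :=
  T.toAddSubgroup.card_addSubgroup_dvd_card

theorem card_subring_lt [Finite S] {T : Subring S} (hT : T ≠ ⊤) : Nat.card T < Nat.card S := by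
  refine lt_of_le_of_ne (Nat.le_of_dvd Nat.card_pos (card_subring_dvd T)) fun h => hT ?_
  have h1 : T.toAddSubgroup = ⊤ := AddSubgroup.eq_top_of_card_eq _ h
  ext x
  refine ⟨fun _ => Subring.mem_top _, fun _ => ?_⟩
  have : x ∈ T.toAddSubgroup := by rw [h1]; exact AddSubgroup.mem_top _
  exact this

theorem card_oneAdd_dvd [Finite S] {I : Ideal S} [I.IsTwoSided] (hI : I ≤ jacobson S) :
    Nat.card (oneAdd I) ∣ Nat.card S := by
  have h1 : Nat.card (oneAdd I) = Nat.card I := by
    refine Nat.card_congr (Equiv.ofBijective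
      (fun u : oneAdd I => (⟨((u : Sˣ) : S) - 1, u.2⟩ : I)) ⟨?_, ?_⟩)
    · intro a b hab
      apply Subtype.ext
      apply Units.ext
      have := congrArg Subtype.val hab
      exact sub_left_injective this
    · rintro ⟨a, ha⟩
      obtain ⟨u, hu⟩ := exists_oneAdd hI ha
      exact ⟨u, Subtype.ext (by simp [hu])⟩
  rw [h1]
  exact (Submodule.toAddSubgroup I).card_addSubgroup_dvd_card

/-- units lift modulo the radical, and the kernel is `1 + J` -/
theorem units_map_mk_surjective :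
    Function.Surjective (Units.map (Ideal.Quotient.mk (jacobson S)).toMonoidHom) := by
  intro u
  obtain ⟨a, ha⟩ := Ideal.Quotient.mk_surjective (I := jacobson S) (u : S ⧸ jacobson S)
  obtain ⟨b, hb⟩ := Ideal.Quotient.mk_surjective (I := jacobson S)
    ((u⁻¹ : (S ⧸ jacobson S)ˣ) : S ⧸ jacobson S)
  have h1 : a * b - 1 ∈ jacobson S := by
    rw [← Ideal.Quotient.eq, map_mul, ha, hb, map_one, Units.mul_inv]
  have h2 : b * a - 1 ∈ jacobson S := by
    rw [← Ideal.Quotient.eq, map_mul, ha, hb, map_one, Units.inv_mul]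
  obtain ⟨v, hv⟩ := exists_oneAdd (I := jacobson S) le_rfl h1
  obtain ⟨w, hw⟩ := exists_oneAdd (I := jacobson S) le_rfl h2
  have hv' : ((v : Sˣ) : S) = a * b := by rw [hv]; abel
  have hw' : ((w : Sˣ) : S) = b * a := by rw [hw]; abel
  have hr : a * (b * (((v : Sˣ)⁻¹ : Sˣ) : S)) = 1 := by
    rw [← mul_assoc, ← hv', Units.mul_inv]
  have hl : ((((w : Sˣ)⁻¹ : Sˣ) : S) * b) * a = 1 := by
    rw [mul_assoc, ← hw', Units.inv_mul]
  have he : ((((w : Sˣ)⁻¹ : Sˣ) : S) * b) = b * (((v : Sˣ)⁻¹ : Sˣ) : S) :=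
    left_inv_eq_right_inv hl hr
  refine ⟨⟨a, b * (((v : Sˣ)⁻¹ : Sˣ) : S), hr, by rw [← he]; exact hl⟩, ?_⟩
  apply Units.ext
  exact ha

theorem ker_units_map_mk :
    (Units.map (Ideal.Quotient.mk (jacobson S)).toMonoidHom).ker = oneAdd (jacobson S) := by
  ext u
  rw [MonoidHom.mem_ker, mem_oneAdd, ← Ideal.Quotient.eq, Units.ext_iff]
  rfl

theorem card_quotient_dvd [Finite S] : Nat.card (S ⧸ jacobson S) ∣ Nat.card S :=
  (Submodule.toAddSubgroup (jacobson S)).card_quotient_dvd_card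

theorem isSemisimpleRing_quotient [Finite S] : IsSemisimpleRing (S ⧸ jacobson S) := by
  have : IsArtinianRing S := inferInstance
  exact IsSemiprimaryRing.isSemisimpleRing

end URingR
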