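import Mathlib

/-!
# R3(a). Extension of characters by transfer (module TRF, pure group theory)
-/

namespace URingR

universe u v

/-- Let `N` be a normal subgroup of the finite group `G`, `N ≤ K ≤ G`, `χ : N →* M` invariant
under `G`, `f : K →* M` an extension of `χ` to `K`, and let the index `[G : K]` be prime to `k`,
where `χ(n)^k = 1` for all `n`. Then `χ` extends to `G`.

Proof. `V = MonoidHom.transfer f : G →* M` (Mathlib, `Mathlib/GroupTheory/Transfer.lean`). For
`n ∈ N`: `MonoidHom.transfer_def` with any left transversal `T` writes `V n` as a product over the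
cosets `q = g K` of `f(g⁻¹ n g)` (as `n` fixes every coset: `n g K = g (g⁻¹ n g) K`,
`(n • T).leftQuotientEquiv q = n * T.leftQuotientEquiv q`, see `smul_apply_eq_smul_apply_inv_smul`),
and `f (g⁻¹ n g) = χ(g⁻¹ n g) = χ(n)`. So `V n = χ(n)^[G:K]`. Choose `r` with
`r [G:K] ≡ 1 mod k`; `F = V^r` is the extension. -/
theorem exists_extension_of_index {G : Type u} [Group G] [Finite G] {M : Type v} [CommGroup M]
    (N K : Subgroup G) (hN : N.Normal) (hNK : N ≤ K) (χ : N →* M)
    (hinv : ∀ (g : G) (n : N), χ ⟨g * n * g⁻¹, hN.conj_mem n n.2 g⟩ = χ n)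
    (f : K →* M) (hf : ∀ n : N, f ⟨n, hNK n.2⟩ = χ n)
    (k : ℕ) (hk : ∀ n : N, χ n ^ k = 1) (hcop : Nat.Coprime K.index k) :
    ∃ F : G →* M, ∀ n : N, F n = χ n := by
  classical
  have hV : ∀ n : N, MonoidHom.transfer f (n : G) = χ n ^ K.index := by
    intro n
    let T : K.LeftTransversal := default
    rw [MonoidHom.transfer_def f T]
    unfold Subgroup.leftTransversals.diff
    have hq : ∀ q : G ⧸ K, (n : G)⁻¹ • q = q := by
      intro q
      induction q using QuotientGroup.induction_on with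
      | H g =>
        show ((((n : G)⁻¹ * g : G)) : G ⧸ K) = (g : G ⧸ K)
        rw [QuotientGroup.eq]
        have h1 : ((n : G)⁻¹ * g)⁻¹ * g = g⁻¹ * n * g := by group
        rw [h1]
        have h2 := hN.conj_mem n n.2 g⁻¹
        rw [inv_inv] at h2
        exact hNK h2
    simp only
    have hterm : ∀ (q : G ⧸ K) (h : ((T.2.leftQuotientEquiv q : G))⁻¹ *
        ((n : G) • T).2.leftQuotientEquiv q ∈ K),
        f ⟨((T.2.leftQuotientEquiv q : G))⁻¹ * ((n : G) • T).2.leftQuotientEquiv q, h⟩ = χ n := by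
      intro q h
      have h1 : (((n : G) • T).2.leftQuotientEquiv q : G) = n * (T.2.leftQuotientEquiv q : G) := by
        rw [Subgroup.smul_apply_eq_smul_apply_inv_smul, hq, smul_eq_mul]
      have h2 : (T.2.leftQuotientEquiv q : G)⁻¹ * n * ((T.2.leftQuotientEquiv q : G)⁻¹)⁻¹ ∈ N :=
        hN.conj_mem n n.2 _
      have h3 : f ⟨((T.2.leftQuotientEquiv q : G))⁻¹ * ((n : G) • T).2.leftQuotientEquiv q, h⟩ =
          f ⟨(T.2.leftQuotientEquiv q : G)⁻¹ * n * ((T.2.leftQuotientEquiv q : G)⁻¹)⁻¹,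
            hNK h2⟩ := by
        congr 1
        apply Subtype.ext
        show (T.2.leftQuotientEquiv q : G)⁻¹ * (((n : G) • T).2.leftQuotientEquiv q : G) =
          (T.2.leftQuotientEquiv q : G)⁻¹ * n * ((T.2.leftQuotientEquiv q : G)⁻¹)⁻¹
        rw [h1, inv_inv, mul_assoc]
      rw [h3]
      exact (hf ⟨_, h2⟩).trans (hinv _ n)
    rw [Finset.prod_congr rfl (fun q _ => hterm q _), Finset.prod_const, Subgroup.index]
    congr 1
    let hft := K.fintypeQuotientOfFiniteIndex
    exact (@Nat.card_eq_fintype_card (G ⧸ K) hft).symm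
  obtain ⟨r, hr⟩ : ∃ r : ℤ, ∀ n : N, χ n ^ ((K.index : ℤ) * r) = χ n := by
    have hb := Nat.gcd_eq_gcd_ab K.index k
    rw [Nat.Coprime] at hcop
    rw [hcop] at hb
    refine ⟨Nat.gcdA K.index k, fun n => ?_⟩
    have h1 : (K.index : ℤ) * Nat.gcdA K.index k = 1 - (k : ℤ) * Nat.gcdB K.index k := by
      push_cast at hb
      linarith
    rw [h1, zpow_sub, zpow_one, zpow_mul, zpow_natCast, hk, one_zpow, inv_one, mul_one]
  refine ⟨(zpowGroupHom r).comp (MonoidHom.transfer f), fun n => ?_⟩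
  show (MonoidHom.transfer f (n : G)) ^ r = χ n
  rw [hV, ← zpow_natCast, ← zpow_mul]
  exact hr n

end URingR
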