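import Pool.Agent.URingR.Sch2
import Pool.Agent.URingR.Trf

/-!
# R3(c). Module EXB
-/

namespace URingR

universe u v

variable {S : Type u} [Ring S] {M : Type v} [CommGroup M]

open Ring (jacobson)

/-- the restriction of `χ` to `G ∩ (1 + J)` -/
private def resN (χ : oneAdd (jacobson S) →* M) (G : Subgroup Sˣ) :
    (oneAdd (jacobson S)).subgroupOf G →* M where
  toFun n := χ ⟨((n : G) : Sˣ), Subgroup.mem_subgroupOf.1 n.2⟩
  map_one' := χ.map_one
  map_mul' := fun a b => χ.map_mul ⟨((a : G) : Sˣ), Subgroup.mem_subgroupOf.1 a.2⟩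
    ⟨((b : G) : Sˣ), Subgroup.mem_subgroupOf.1 b.2⟩

/-- the restriction of `ψ` to `P ∩ G` -/
private def resK {P : Subgroup Sˣ} (ψ : P →* M) (G : Subgroup Sˣ) : P.subgroupOf G →* M where
  toFun n := ψ ⟨((n : G) : Sˣ), Subgroup.mem_subgroupOf.1 n.2⟩
  map_one' := ψ.map_one
  map_mul' := fun a b => ψ.map_mul ⟨((a : G) : Sˣ), Subgroup.mem_subgroupOf.1 a.2⟩
    ⟨((b : G) : Sˣ), Subgroup.mem_subgroupOf.1 b.2⟩

/-- **module EXB.** The step: `P = { u ∈ G_(e'+e'') : e'' u e' ∈ J }` has index prime to the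
exponent `k` of `G_(e'+e'') ∩ (1 + J)`.

Proof. `schur`, then `exists_extension_of_index` with `G = ↥(cg (e'+e''))`,
`N = (oneAdd (jacobson S)).subgroupOf G`, `K = P.subgroupOf G` (its index is `P.relIndex G`);
`N ≤ K` because `e'' u e' = e'' (u - 1) e'` for orthogonal `e', e''`. -/
theorem claim_step [Finite S] (χ : oneAdd (jacobson S) →* M) (hχ : stab le_rfl χ = ⊤)
    {e' e'' : S} (h1 : e' * e' = e') (h2 : e'' * e'' = e'') (h12 : e' * e'' = 0)
    (h21 : e'' * e' = 0) (hc' : Claim χ e') (hc'' : Claim χ e'') (P : Subgroup Sˣ)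
    (hP : ∀ u : Sˣ, u ∈ P ↔ u ∈ cg (e' + e'') ∧ e'' * (u : S) * e' ∈ jacobson S)
    (k : ℕ) (hk : ∀ u : Sˣ, u ∈ cg (e' + e'') → u ∈ oneAdd (jacobson S) → u ^ k = 1)
    (hcop : Nat.Coprime (P.relIndex (cg (e' + e''))) k) : Claim χ (e' + e'') := by
  obtain ⟨ψ, hψ⟩ := schur χ hχ h1 h2 h12 h21 hc' hc'' P hP
  have hN : ((oneAdd (jacobson S)).subgroupOf (cg (e' + e''))).Normal := inferInstance
  have hNK : (oneAdd (jacobson S)).subgroupOf (cg (e' + e''))
      ≤ P.subgroupOf (cg (e' + e'')) := by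
    intro u hu
    rw [Subgroup.mem_subgroupOf] at hu ⊢
    rw [hP]
    refine ⟨u.2, ?_⟩
    have h3 : e'' * ((u : Sˣ) : S) * e' = e'' * (((u : Sˣ) : S) - 1) * e' := by
      rw [mul_sub, sub_mul, mul_one, h21, sub_zero]
    rw [h3]
    exact Ideal.mul_mem_right _ _ (Ideal.mul_mem_left _ _ hu)
  obtain ⟨F, hF⟩ := exists_extension_of_index
    ((oneAdd (jacobson S)).subgroupOf (cg (e' + e''))) (P.subgroupOf (cg (e' + e'')))
    hN hNK (resN χ (cg (e' + e'')))
    (by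
      intro g n
      exact conj_of_stab_top le_rfl χ hχ (g : Sˣ)
        ⟨((n : cg (e' + e'')) : Sˣ), Subgroup.mem_subgroupOf.1 n.2⟩)
    (resK ψ (cg (e' + e'')))
    (by
      intro n
      exact hψ _ _ (Subgroup.mem_subgroupOf.1 n.2))
    k
    (by
      intro n
      have h4 : (n : (oneAdd (jacobson S)).subgroupOf (cg (e' + e''))) ^ k = 1 := by
        apply Subtype.ext
        apply Subtype.ext
        exact hk _ n.1.2 (Subgroup.mem_subgroupOf.1 n.2)
      rw [← map_pow, h4, map_one])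
    hcop
  refine ⟨F, fun u hu hJ => ?_⟩
  exact hF ⟨⟨u, hu⟩, Subgroup.mem_subgroupOf.2 hJ⟩

end URingR
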