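import Pool.Agent.URingR.Exa
import Pool.Agent.URingR.Trf

/-!
# R3(c). Module EXC
-/

namespace URingR

universe u v

variable {S : Type u} [Ring S] {M : Type v} [CommGroup M]

open Ring (jacobson)

private theorem exc_ne (W : Wedd S) (x : Σ i : Fin W.n, Fin (W.d i)) (j : Fin W.n)
    (hj : j ≠ x.1) : W.π (W.E x) j = 0 := by
  rw [W.πE]
  exact Pi.single_eq_of_ne hj _

private theorem exc_eq (W : Wedd S) (i : Fin W.n) (a : Fin (W.d i)) :
    W.π (W.E ⟨i, a⟩) i = Matrix.single a a 1 := by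
  rw [W.πE]
  exact Pi.single_eq_same _ _

private theorem exc_U (W : Wedd S) (i : Fin W.n) (a : Fin (W.d i)) {u : Sˣ}
    (hu : u ∈ cg (W.E ⟨i, a⟩)) (r s : Fin (W.d i)) (h : r ≠ a ∨ s ≠ a) :
    W.π (u : S) i r s = (1 : Matrix (Fin (W.d i)) (Fin (W.d i)) (W.F i)) r s := by
  rcases h with h | h
  · have h1 := congrArg (fun z => W.π z i r s) hu.1
    simp only [map_mul, map_sub, map_one, Pi.mul_apply, Pi.sub_apply, Pi.one_apply, exc_eq,
      sub_mul, one_mul, Matrix.sub_apply] at h1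
    rw [Matrix.single_mul_apply_of_ne (M := W.π (u : S) i) (h := h)] at h1
    rw [Matrix.single_apply_of_row_ne (hi := h.symm)] at h1
    simpa using h1
  · have h1 := congrArg (fun z => W.π z i r s) hu.2
    simp only [map_mul, map_sub, map_one, Pi.mul_apply, Pi.sub_apply, Pi.one_apply, exc_eq,
      mul_sub, mul_one, Matrix.sub_apply] at h1
    rw [Matrix.mul_single_apply_of_ne (M := W.π (u : S) i) (hbj := h)] at h1
    rw [Matrix.single_apply_of_col_ne (hj := h.symm)] at h1
    simpa using h1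

private theorem exc_U' (W : Wedd S) (i : Fin W.n) (a : Fin (W.d i)) {u : Sˣ}
    (hu : u ∈ cg (W.E ⟨i, a⟩)) (j : Fin W.n) (hj : j ≠ i) : W.π (u : S) j = 1 := by
  have h1 := congrArg (fun z => W.π z j) hu.1
  simp only [map_mul, map_sub, map_one, Pi.mul_apply, Pi.sub_apply, Pi.one_apply,
    exc_ne W ⟨i, a⟩ j hj, sub_zero, one_mul] at h1
  exact h1

/-- `u ↦ (π u) i a a` -/
private def excφ (W : Wedd S) (i : Fin W.n) (a : Fin (W.d i)) : cg (W.E ⟨i, a⟩) →* W.F i where
  toFun u := W.π ((u : Sˣ) : S) i a a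
  map_one' := by
    rw [Subgroup.coe_one, Units.val_one, map_one, Pi.one_apply, Matrix.one_apply_eq]
  map_mul' := by
    intro u v
    rw [Subgroup.coe_mul, Units.val_mul, map_mul, Pi.mul_apply, Matrix.mul_apply,
      Finset.sum_eq_single a]
    · intro b _ hb
      rw [exc_U W i a u.2 a b (Or.inr hb), Matrix.one_apply_ne hb.symm, zero_mul]
    · intro h; exact absurd (Finset.mem_univ _) h

/-- **module EXC.** The primitive idempotents: `G_e / (G_e ∩ (1 + J))` embeds in `F_i^×`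
(`u ↦ (π u) i a a`), which has order prime to `p`; `exists_extension_of_index` with
`N = K = (oneAdd J).subgroupOf (cg e)`, `f = χ` and `exists_ppow`. -/
theorem claim_prim [Finite S] (W : Wedd S) (χ : oneAdd (jacobson S) →* M)
    (hχ : stab le_rfl χ = ⊤) (x : Σ i : Fin W.n, Fin (W.d i)) : Claim χ (W.E x) := by
  obtain ⟨i, a⟩ := x
  obtain ⟨p, hp⟩ := CharP.exists (W.F i)
  have : Fact p.Prime := ⟨CharP.char_is_prime (W.F i) p⟩
  obtain ⟨m, hm⟩ := exists_ppow W i (W.compl.idem ⟨i, a⟩) (exc_ne W ⟨i, a⟩) p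
  have hN : ((oneAdd (jacobson S)).subgroupOf (cg (W.E ⟨i, a⟩))).Normal := inferInstance
  have hker : (oneAdd (jacobson S)).subgroupOf (cg (W.E ⟨i, a⟩))
      = (excφ W i a).toHomUnits.ker := by
    ext u
    rw [Subgroup.mem_subgroupOf, MonoidHom.mem_ker, mem_oneAdd, W.mem_J, map_sub, map_one,
      sub_eq_zero]
    constructor
    · intro h
      apply Units.ext
      rw [MonoidHom.coe_toHomUnits, Units.val_one]
      show W.π ((u : Sˣ) : S) i a a = 1
      rw [h, Pi.one_apply, Matrix.one_apply_eq]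
    · intro h
      have h1 : W.π ((u : Sˣ) : S) i a a = 1 := by
        have := congrArg (fun z : (W.F i)ˣ => (z : W.F i)) h
        exact this
      funext j
      by_cases hj : j = i
      · subst hj
        ext r s
        by_cases hrs : r ≠ a ∨ s ≠ a
        · rw [exc_U W j a u.2 r s hrs, Pi.one_apply]
        · push Not at hrs
          obtain ⟨rfl, rfl⟩ := hrs
          rw [h1, Pi.one_apply, Matrix.one_apply_eq]
      · rw [exc_U' W i a u.2 j hj, Pi.one_apply]
  have hidx : ((oneAdd (jacobson S)).subgroupOf (cg (W.E ⟨i, a⟩))).index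
      ∣ Nat.card (W.F i) - 1 := by
    rw [hker, Subgroup.index_ker, ← Nat.card_units]
    exact Subgroup.card_subgroup_dvd_card _
  have hpc : p ∣ Nat.card (W.F i) := by
    have h1 : ((Nat.card (W.F i) : ℕ) : W.F i) = 0 := by
      let _ := Fintype.ofFinite (W.F i)
      rw [Nat.card_eq_fintype_card]
      exact Nat.cast_card_eq_zero _
    exact (CharP.cast_eq_zero_iff (W.F i) p _).1 h1
  have hcop : Nat.Coprime ((oneAdd (jacobson S)).subgroupOf (cg (W.E ⟨i, a⟩))).index
      (p ^ m) := by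
    apply Nat.Coprime.pow_right
    rw [Nat.coprime_comm, Nat.Prime.coprime_iff_not_dvd Fact.out]
    intro h
    have h2 := h.trans hidx
    have h3 : 1 ≤ Nat.card (W.F i) := Nat.card_pos
    have h4 : p ∣ 1 := by
      have := Nat.dvd_sub hpc h2
      rwa [show Nat.card (W.F i) - (Nat.card (W.F i) - 1) = 1 by omega] at this
    exact (Fact.out : p.Prime).one_lt.ne' (Nat.dvd_one.1 h4)
  obtain ⟨F, hF⟩ := exists_extension_of_index
    ((oneAdd (jacobson S)).subgroupOf (cg (W.E ⟨i, a⟩)))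
    ((oneAdd (jacobson S)).subgroupOf (cg (W.E ⟨i, a⟩)))
    hN le_rfl
    { toFun := fun n => χ ⟨((n : cg (W.E ⟨i, a⟩)) : Sˣ), Subgroup.mem_subgroupOf.1 n.2⟩
      map_one' := χ.map_one
      map_mul' := fun a b => χ.map_mul ⟨_, Subgroup.mem_subgroupOf.1 a.2⟩
        ⟨_, Subgroup.mem_subgroupOf.1 b.2⟩ }
    (by
      intro g n
      exact conj_of_stab_top le_rfl χ hχ (g : Sˣ)
        ⟨((n : cg (W.E ⟨i, a⟩)) : Sˣ), Subgroup.mem_subgroupOf.1 n.2⟩)
    { toFun := fun n => χ ⟨((n : cg (W.E ⟨i, a⟩)) : Sˣ), Subgroup.mem_subgroupOf.1 n.2⟩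
      map_one' := χ.map_one
      map_mul' := fun a b => χ.map_mul ⟨_, Subgroup.mem_subgroupOf.1 a.2⟩
        ⟨_, Subgroup.mem_subgroupOf.1 b.2⟩ }
    (fun n => rfl)
    (p ^ m)
    (by
      intro n
      have h4 : n ^ (p ^ m) = 1 := by
        apply Subtype.ext
        apply Subtype.ext
        exact hm _ n.1.2 (Subgroup.mem_subgroupOf.1 n.2)
      rw [← map_pow, h4, map_one])
    hcop
  refine ⟨F, fun u hu hJ => ?_⟩
  exact hF ⟨⟨u, hu⟩, Subgroup.mem_subgroupOf.2 hJ⟩

end URingR
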