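import Mathlib

/-!
# R3(c). Counting lines (module LINE)
-/

namespace URingR

universe u v

private theorem line_card {G : Type u} [Group G] [Finite G] {F : Type v} [Field F] [Finite F]
    {ι : Type} [Fintype ι] [DecidableEq ι] (a : ι) (φ : G →* Matrix ι ι F)
    (K : Subgroup G) (Vs : Set (ι → F)) (h1 : ∀ g ∈ K, (φ g).mulVec (Pi.single a 1) ∈ Vs)
    (h2 : ∀ v ∈ Vs, ∃ g ∈ K, (φ g).mulVec (Pi.single a 1) = v)
    (hH : ∀ h : G, (φ h).mulVec (Pi.single a 1) = Pi.single a 1 → h ∈ K) :
    Nat.card K = Nat.card Vs * Nat.card {h : G // (φ h).mulVec (Pi.single a 1) =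
      (Pi.single a 1 : ι → F)} := by
  choose s hsK hs using h2
  have hm : ∀ g h : G, (φ (g * h)).mulVec (Pi.single a 1) =
      (φ g).mulVec ((φ h).mulVec (Pi.single a 1)) := fun g h => by
    rw [map_mul, Matrix.mulVec_mulVec]
  have hinv : ∀ (g : G) (v : ι → F), (φ g⁻¹).mulVec ((φ g).mulVec v) = v := fun g v => by
    rw [Matrix.mulVec_mulVec, ← map_mul, inv_mul_cancel, map_one, Matrix.one_mulVec]
  rw [← Nat.card_prod]
  refine Nat.card_congr ?_
  exact
    { toFun := fun g => (⟨_, h1 g g.2⟩, ⟨(s _ (h1 g g.2))⁻¹ * (g : G), by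
        rw [hm]
        exact (congrArg _ (hs _ (h1 g g.2)).symm).trans (hinv _ _)⟩)
      invFun := fun x => ⟨s x.1 x.1.2 * (x.2 : G), K.mul_mem (hsK _ _) (hH _ x.2.2)⟩
      left_inv := fun g => Subtype.ext (mul_inv_cancel_left _ _)
      right_inv := fun x => by
        obtain ⟨⟨v, hv⟩, ⟨h, hh⟩⟩ := x
        have e1 : (φ (s v hv * h)).mulVec (Pi.single a 1) = v := by rw [hm, hh, hs]
        refine Prod.ext (Subtype.ext e1) (Subtype.ext ?_)
        show (s _ _)⁻¹ * (s v hv * h) = h
        have e2 : ∀ (w : ι → F) (hw : w ∈ Vs), w = v → (s w hw)⁻¹ * (s v hv * h) = h := by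
          rintro w hw rfl
          exact inv_mul_cancel_left _ _
        exact e2 _ _ e1 }

private theorem card_ne_zero_add_one (α : Type*) [Finite α] (z : α) :
    Nat.card {w : α // w ≠ z} + 1 = Nat.card α := by
  classical
  rw [← Finite.card_option]
  exact Nat.card_congr (Equiv.optionSubtypeNe z)

/-- **Counting lines (module LINE).** `F` is a finite field of characteristic `p`, `T` a finite set
of indices, `a ∈ T`, `φ : G →* Matrix ι ι F` a homomorphism of monoids such that column `a` of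
every `φ g` is supported on `T`, the columns indexed by `T` are supported on `T`, and for every
non zero vector `v` supported on `T` there is `g ∈ G` with column `a` of `φ g` equal to `v`.
`P` is the subgroup of the `g` whose column `a` is supported on `{a}`. Then `[G : P] ≡ 1 mod p`.

Proof. `G ⧸ P ≃ ℙ F (T → F)`, `g P ↦` the line of the column `a` of `φ g` restricted to `T`
(non zero, because `φ g` is invertible). Well defined and injective: `φ (g⁻¹ g')` has column `a`
equal to `φ(g)⁻¹ (φ(g') δ_a)`; so `g⁻¹ g' ∈ P` iff `φ(g') δ_a` is a multiple of `φ(g) δ_a`.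
Surjective by the transitivity hypothesis. Then `Projectivization.card_of_finrank`:
the index is `∑ i < |T|, |F|^i`, and `p` divides `|F|`, `|T| ≥ 1`. -/
theorem index_line {G : Type u} [Group G] [Finite G] {F : Type v} [Field F] [Finite F]
    (p : ℕ) [Fact p.Prime] [CharP F p]
    {ι : Type} [Fintype ι] [DecidableEq ι] (T : Finset ι) (a : ι) (ha : a ∈ T)
    (φ : G →* Matrix ι ι F)
    (hT : ∀ g : G, ∀ c ∈ T, ∀ r, r ∉ T → φ g r c = 0)
    (htrans : ∀ v : ι → F, v ≠ 0 → (∀ r, r ∉ T → v r = 0) → ∃ g : G, ∀ r, φ g r a = v r)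
    (P : Subgroup G) (hP : ∀ g : G, g ∈ P ↔ ∀ r, r ≠ a → φ g r a = 0) :
    P.index % p = 1 := by
  have hcol : ∀ g r, (φ g).mulVec (Pi.single a 1) r = φ g r a := fun g r => by
    rw [Matrix.mulVec_single_one]
    rfl
  have hinv : ∀ (g : G) (v : ι → F), (φ g⁻¹).mulVec ((φ g).mulVec v) = v := fun g v => by
    rw [Matrix.mulVec_mulVec, ← map_mul, inv_mul_cancel, map_one, Matrix.one_mulVec]
  have hne : ∀ g, (φ g).mulVec (Pi.single a 1) ≠ (0 : ι → F) := fun g h => by
    have h1 := hinv g (Pi.single a 1)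
    rw [h, Matrix.mulVec_zero] at h1
    have h2 := congrFun h1 a
    rw [Pi.single_eq_same, Pi.zero_apply] at h2
    exact zero_ne_one h2
  have hH : ∀ h : G, (φ h).mulVec (Pi.single a 1) = (Pi.single a 1 : ι → F) → h ∈ P := by
    intro h hh
    rw [hP]
    intro r hr
    rw [← hcol, hh, Pi.single_eq_of_ne hr]
  -- the whole group
  have hG := line_card a φ ⊤ {v : ι → F | v ≠ 0 ∧ ∀ r, r ∉ T → v r = 0}
    (fun g _ => ⟨hne g, fun r hr => by rw [hcol]; exact hT g a ha r hr⟩)
    (fun v hv => by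
      obtain ⟨g, hg⟩ := htrans v hv.1 hv.2
      exact ⟨g, Subgroup.mem_top g, funext fun r => by rw [hcol, hg]⟩)
    (fun h _ => Subgroup.mem_top h)
  -- the subgroup `P`
  have hPc := line_card a φ P {v : ι → F | v ≠ 0 ∧ ∀ r, r ≠ a → v r = 0}
    (fun g hg => ⟨hne g, fun r hr => by rw [hcol]; exact (hP g).mp hg r hr⟩)
    (fun v hv => by
      obtain ⟨g, hg⟩ := htrans v hv.1 (fun r hr => hv.2 r (fun h => hr (h ▸ ha)))
      exact ⟨g, (hP g).mpr (fun r hr => by rw [hg, hv.2 r hr]), funext fun r => by rw [hcol, hg]⟩)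
    hH
  have c1 : Nat.card {v : ι → F | v ≠ 0 ∧ ∀ r, r ∉ T → v r = 0} + 1 = Nat.card F ^ T.card := by
    have e : {v : ι → F | v ≠ 0 ∧ ∀ r, r ∉ T → v r = 0} ≃ {w : T → F // w ≠ 0} :=
      { toFun := fun v => ⟨fun r => v.1 r, fun h => v.2.1 (funext fun r => by
          by_cases hr : r ∈ T
          · exact congrFun h ⟨r, hr⟩
          · exact v.2.2 r hr)⟩
        invFun := fun w => ⟨fun r => if hr : r ∈ T then w.1 ⟨r, hr⟩ else 0, fun h => w.2
          (funext fun r => by
            have h1 := congrFun h r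
            simp only [r.2, dite_true] at h1
            exact h1), fun r hr => dif_neg hr⟩
        left_inv := fun v => Subtype.ext (funext fun r => by
          by_cases hr : r ∈ T
          · exact dif_pos hr
          · exact (dif_neg hr).trans (v.2.2 r hr).symm)
        right_inv := fun w => Subtype.ext (funext fun r => dif_pos r.2) }
    rw [Nat.card_congr e, card_ne_zero_add_one (T → F) 0, Nat.card_fun,
      Nat.card_eq_fintype_card (α := T), Fintype.card_coe]
  have c2 : Nat.card {v : ι → F | v ≠ 0 ∧ ∀ r, r ≠ a → v r = 0} + 1 = Nat.card F := by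
    have e : {v : ι → F | v ≠ 0 ∧ ∀ r, r ≠ a → v r = 0} ≃ {w : F // w ≠ 0} :=
      { toFun := fun v => ⟨v.1 a, fun h => v.2.1 (funext fun r => by
          by_cases hr : r = a
          · rw [hr]; exact h
          · exact v.2.2 r hr)⟩
        invFun := fun w => ⟨Pi.single a w.1, fun h => w.2 (by
            have h1 := congrFun h a
            rwa [Pi.single_eq_same] at h1), fun r hr => Pi.single_eq_of_ne hr _⟩
        left_inv := fun v => Subtype.ext (funext fun r => by
          by_cases hr : r = a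
          · rw [hr]; exact Pi.single_eq_same _ _
          · exact (Pi.single_eq_of_ne hr _).trans (v.2.2 r hr).symm)
        right_inv := fun w => Subtype.ext (Pi.single_eq_same _ _) }
    rw [Nat.card_congr e, card_ne_zero_add_one F 0]
  set h0 := Nat.card {h : G // (φ h).mulVec (Pi.single a 1) = (Pi.single a 1 : ι → F)} with hh0
  have hpos : 0 < h0 := by
    have hN : Nonempty {h : G // (φ h).mulVec (Pi.single a 1) = (Pi.single a 1 : ι → F)} :=
      ⟨⟨1, by rw [map_one, Matrix.one_mulVec]⟩⟩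
    exact Nat.card_pos
  set q := Nat.card F with hq
  have hq1 : 1 < q := Finite.one_lt_card
  set x1 := Nat.card {v : ι → F | v ≠ 0 ∧ ∀ r, r ∉ T → v r = 0}
  set x2 := Nat.card {v : ι → F | v ≠ 0 ∧ ∀ r, r ≠ a → v r = 0}
  have hind : P.index * (x2 * h0) = x1 * h0 := by
    rw [← hPc, ← hG, Subgroup.card_top, mul_comm]
    exact P.card_mul_index
  have hind2 : P.index * x2 = x1 := by
    have h1 : P.index * x2 * h0 = x1 * h0 := by rw [mul_assoc]; exact hind
    exact Nat.eq_of_mul_eq_mul_right hpos h1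
  have hgeom := Nat.geomSum_eq (m := q) hq1 T.card
  have hx1 : x1 = q ^ T.card - 1 := by omega
  have hx2 : x2 = q - 1 := by omega
  have hidx : P.index = ∑ k ∈ Finset.range T.card, q ^ k := by
    rw [hgeom, ← hx1, ← hx2, ← hind2, Nat.mul_div_cancel]
    omega
  have hpq : p ∣ q := by
    have hf : Fintype F := Fintype.ofFinite F
    rw [hq, Nat.card_eq_fintype_card]
    obtain ⟨n, hn, hc⟩ := FiniteField.card F p
    rw [hc]
    exact dvd_pow_self _ n.ne_zero
  obtain ⟨t, ht⟩ : ∃ t, T.card = t + 1 := ⟨T.card - 1, by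
    have := Finset.card_pos.mpr ⟨a, ha⟩
    omega⟩
  rw [hidx, ht, Finset.sum_range_succ', pow_zero]
  have hdv : p ∣ ∑ k ∈ Finset.range t, q ^ (k + 1) :=
    Finset.dvd_sum fun k _ => hpq.trans (dvd_pow_self _ (Nat.succ_ne_zero k))
  obtain ⟨c, hc⟩ := hdv
  rw [hc, Nat.mul_add_mod]
  exact Nat.mod_eq_of_lt (Fact.out : p.Prime).one_lt

end URingR
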