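import Mathlib

/-!
# Unit groups of finite rings: the subgroups `1 + I` and linear characters

`S` is a ring, `I` a two-sided ideal inside the Jacobson radical `Ring.jacobson S`.
* `oneAdd I` is the normal subgroup `1 + I` of `Sˣ`.
* for a homomorphism `ν : oneAdd I →* M` to a commutative group `ev ν a` is the value of `ν` at
  the unit `1 + a` (and `1` if `1 + a` is not an element of `oneAdd I`).
-/

namespace URingR

universe u v

variable {S : Type u} [Ring S] {M : Type v} [CommGroup M]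

/-- The subgroup `1 + I` of the unit group, for a two-sided ideal `I`. -/
def oneAdd (I : Ideal S) [I.IsTwoSided] : Subgroup Sˣ where
  carrier := {u | (u : S) - 1 ∈ I}
  mul_mem' := by
    intro a b ha hb
    have h : ((a * b : Sˣ) : S) - 1 = ((a : S) - 1) * (b : S) + ((b : S) - 1) := by
      push_cast; noncomm_ring
    show ((a * b : Sˣ) : S) - 1 ∈ I
    rw [h]
    exact I.add_mem (I.mul_mem_right _ ha) hb
  one_mem' := by simp
  inv_mem' := by
    intro a ha
    have h : ((a⁻¹ : Sˣ) : S) - 1 = -(((a⁻¹ : Sˣ) : S) * ((a : S) - 1)) := by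
      rw [mul_sub, Units.inv_mul]; noncomm_ring
    show ((a⁻¹ : Sˣ) : S) - 1 ∈ I
    rw [h]
    exact I.neg_mem (I.mul_mem_left _ ha)

theorem mem_oneAdd {I : Ideal S} [I.IsTwoSided] {u : Sˣ} :
    u ∈ oneAdd I ↔ (u : S) - 1 ∈ I := Iff.rfl

instance oneAdd_normal (I : Ideal S) [I.IsTwoSided] : (oneAdd I).Normal where
  conj_mem := by
    intro n hn g
    have h : ((g * n * g⁻¹ : Sˣ) : S) - 1 = (g : S) * ((n : S) - 1) * ((g⁻¹ : Sˣ) : S) := by
      push_cast
      rw [mul_sub, sub_mul, mul_one, Units.mul_inv]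
    rw [mem_oneAdd, h]
    exact I.mul_mem_right _ (I.mul_mem_left _ hn)

theorem oneAdd_mono {I I' : Ideal S} [I.IsTwoSided] [I'.IsTwoSided] (h : I ≤ I') :
    oneAdd I ≤ oneAdd I' := fun _ hu => h hu

/-- An element `1 + a` with `a` in the radical is a unit. -/
theorem exists_oneAdd {I : Ideal S} [I.IsTwoSided] (hI : I ≤ Ring.jacobson S) {a : S}
    (ha : a ∈ I) : ∃ u : oneAdd I, ((u : Sˣ) : S) = 1 + a := by
  have h1 : a ∈ (⊥ : Ideal S).jacobson := by
    rw [Ideal.jacobson_bot]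
    exact hI ha
  have hunit : IsUnit (1 + a) := by
    obtain ⟨z, hz⟩ := Ideal.exists_mul_sub_mem_of_sub_one_mem_jacobson (I := (⊥ : Ideal S)) (1 + a)
      (by simpa using h1)
    have hz1 : z * (1 + a) = 1 := by
      have := hz
      rw [Ideal.mem_bot, sub_eq_zero] at this
      exact this
    have hz2 : z = 1 + (-(z * a)) := by
      have : z * (1 + a) = z + z * a := by noncomm_ring
      rw [this] at hz1
      rw [← hz1]; abel
    have h2 : -(z * a) ∈ (⊥ : Ideal S).jacobson :=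
      (Ideal.neg_mem_iff _).2 (Ideal.mul_mem_left _ _ h1)
    obtain ⟨w, hw⟩ := Ideal.exists_mul_sub_mem_of_sub_one_mem_jacobson (I := (⊥ : Ideal S)) z
      (by rw [hz2]; simpa using h2)
    have hw1 : w * z = 1 := by
      have := hw
      rw [Ideal.mem_bot, sub_eq_zero] at this
      exact this
    have hwa : w = 1 + a := by
      calc w = w * (z * (1 + a)) := by rw [hz1, mul_one]
        _ = (w * z) * (1 + a) := by rw [mul_assoc]
        _ = 1 + a := by rw [hw1, one_mul]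
    exact ⟨⟨1 + a, z, by rw [← hwa, hw1], hz1⟩, rfl⟩
  obtain ⟨u, hu⟩ := hunit
  exact ⟨⟨u, by rw [mem_oneAdd, hu]; simpa using ha⟩, hu⟩

open Classical in
/-- `ev ν a` is `ν (1 + a)` (and `1` if `1 + a` is not in `oneAdd I`). -/
noncomputable def ev {I : Ideal S} [I.IsTwoSided] (ν : oneAdd I →* M) (a : S) : M :=
  if h : ∃ u : oneAdd I, ((u : Sˣ) : S) = 1 + a then ν h.choose else 1

section
variable {I : Ideal S} [I.IsTwoSided] (ν : oneAdd I →* M)

theorem ev_of {a : S} (u : oneAdd I) (h : ((u : Sˣ) : S) = 1 + a) : ev ν a = ν u := by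
  have hex : ∃ u : oneAdd I, ((u : Sˣ) : S) = 1 + a := ⟨u, h⟩
  rw [ev, dif_pos hex]
  congr 1
  apply Subtype.ext
  apply Units.ext
  rw [hex.choose_spec, h]

theorem ev_coe (u : oneAdd I) : ev ν (((u : Sˣ) : S) - 1) = ν u :=
  ev_of ν u (by noncomm_ring)

@[simp] theorem ev_zero : ev ν 0 = 1 := by
  rw [ev_of ν 1 (by simp), map_one]

theorem ev_mul (hI : I ≤ Ring.jacobson S) {a b : S} (ha : a ∈ I) (hb : b ∈ I) :
    ev ν a * ev ν b = ev ν (a + b + a * b) := by
  obtain ⟨u, hu⟩ := exists_oneAdd hI ha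
  obtain ⟨w, hw⟩ := exists_oneAdd hI hb
  rw [ev_of ν u hu, ev_of ν w hw, ← map_mul]
  refine (ev_of ν (u * w) ?_).symm
  rw [Subgroup.coe_mul, Units.val_mul, hu, hw]
  noncomm_ring

/-- conjugation inside `1 + I` does not change the value -/
theorem ev_conj (hI : I ≤ Ring.jacobson S) {a : S} (ha : a ∈ I) (w : oneAdd I) :
    ev ν (((w : Sˣ) : S) * a * (((w : Sˣ)⁻¹ : Sˣ) : S)) = ev ν a := by
  obtain ⟨u, hu⟩ := exists_oneAdd hI ha
  have h : (((w * u * w⁻¹ : oneAdd I) : Sˣ) : S)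
      = 1 + ((w : Sˣ) : S) * a * (((w : Sˣ)⁻¹ : Sˣ) : S) := by
    simp only [Subgroup.coe_mul, Subgroup.coe_inv, Units.val_mul, hu]
    rw [mul_add, add_mul, mul_one, Units.mul_inv]
  rw [ev_of ν _ h, ev_of ν u hu, map_mul, map_mul, map_inv, mul_comm (ν w), mul_inv_cancel_right]

/-- `ν (1 + w⁻¹ b) = ν (1 + b w⁻¹)` for `w = 1 + a` in `1 + I`. -/
theorem ev_swap (hI : I ≤ Ring.jacobson S) {b : S} (hb : b ∈ I) (w : oneAdd I) :
    ev ν ((((w : Sˣ)⁻¹ : Sˣ) : S) * b) = ev ν (b * (((w : Sˣ)⁻¹ : Sˣ) : S)) := by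
  have h := ev_conj ν hI (a := (((w : Sˣ)⁻¹ : Sˣ) : S) * b) (I.mul_mem_left _ hb) w
  rw [← h]
  congr 1
  rw [← mul_assoc, Units.mul_inv, one_mul]

end

end URingR
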