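import Pool.Agent.URingR.Wedd
import Pool.Agent.URingR.Basic

/-!
# First properties of Wedderburn data
-/

namespace URingR

universe u

variable {S : Type u} [Ring S]

namespace Wedd

variable (W : Wedd S)

theorem mem_J {x : S} : x ∈ Ring.jacobson S ↔ W.π x = 0 := by
  rw [← W.ker, RingHom.mem_ker]

/-- the lifted central idempotent of the component `i` -/
def c (i : Fin W.n) : S := ∑ a, W.E ⟨i, a⟩

theorem π_c (i : Fin W.n) : W.π (W.c i) = Pi.single i 1 := by
  rw [c, map_sum]
  have h1 : ∀ a : Fin (W.d i), W.π (W.E ⟨i, a⟩)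
      = Pi.single i (Matrix.single a a (1 : W.F i)) := fun a => W.πE ⟨i, a⟩
  rw [Finset.sum_congr rfl (fun a _ => h1 a)]
  have h2 : (∑ a : Fin (W.d i), Matrix.single a a (1 : W.F i)) = 1 := by
    ext r s
    rw [Matrix.sum_apply]
    simp only [Matrix.single_apply, Matrix.one_apply]
    by_cases hrs : r = s
    · subst hrs
      simp
    · rw [if_neg hrs]
      refine Finset.sum_eq_zero fun a _ => ?_
      rw [if_neg]
      rintro ⟨h, h'⟩
      exact hrs (h.symm.trans h')
  rw [← h2]
  funext j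
  rw [Finset.sum_apply]
  by_cases hj : j = i
  · subst hj
    simp
  · rw [Pi.single_eq_of_ne hj]
    exact Finset.sum_eq_zero fun a _ => Pi.single_eq_of_ne hj _

theorem c_mul_self (i : Fin W.n) : W.c i * W.c i = W.c i := by
  classical
  rw [c, Finset.sum_mul]
  refine Finset.sum_congr rfl fun a _ => ?_
  rw [Finset.mul_sum, Finset.sum_eq_single a]
  · exact W.compl.idem ⟨i, a⟩
  · intro b _ hb
    exact W.compl.ortho (fun h => hb (by cases h; rfl))
  · intro h; exact absurd (Finset.mem_univ _) h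

theorem c_mul_ne {i j : Fin W.n} (h : i ≠ j) : W.c i * W.c j = 0 := by
  rw [c, c, Finset.sum_mul]
  refine Finset.sum_eq_zero fun a _ => ?_
  rw [Finset.mul_sum]
  refine Finset.sum_eq_zero fun b _ => ?_
  exact W.compl.ortho (fun h' => h (by cases h'; rfl))

theorem sum_c : ∑ i, W.c i = 1 := by
  rw [← W.compl.complete, Fintype.sum_sigma]
  rfl

theorem π_c_comm (i : Fin W.n) (s : S) : W.π s * W.π (W.c i) = W.π (W.c i) * W.π s := by
  rw [π_c]
  funext j
  rw [Pi.mul_apply, Pi.mul_apply]
  by_cases hj : j = i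
  · subst hj; simp
  · rw [Pi.single_eq_of_ne hj, mul_zero, zero_mul]

theorem c_comm (i : Fin W.n) (s : S) : s * W.c i - W.c i * s ∈ Ring.jacobson S := by
  rw [W.mem_J, map_sub, map_mul, map_mul, W.π_c_comm, sub_self]

/-- elements acting as the scalar `t` on the component `i` and as `0` on the others -/
def IsSc (i : Fin W.n) (t : W.F i) (s : S) : Prop := W.π s = Pi.single i (t • 1)

theorem exists_isSc (i : Fin W.n) (t : W.F i) : ∃ s : S, W.IsSc i t s := W.surj _

theorem isSc_c (i : Fin W.n) : W.IsSc i 1 (W.c i) := by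
  rw [IsSc, π_c, one_smul]

theorem IsSc.comm {i : Fin W.n} {t : W.F i} {s : S} (h : W.IsSc i t s) (r : S) :
    r * s - s * r ∈ Ring.jacobson S := by
  rw [W.mem_J, map_sub, map_mul, map_mul, h]
  funext j
  by_cases hj : j = i
  · subst hj
    simp
  · simp [Pi.single_eq_of_ne hj]

theorem IsSc.add {i : Fin W.n} {t t' : W.F i} {s s' : S} (h : W.IsSc i t s)
    (h' : W.IsSc i t' s') : W.IsSc i (t + t') (s + s') := by
  rw [IsSc] at *
  rw [map_add, h, h', ← Pi.single_add, add_smul]

theorem IsSc.mul {i : Fin W.n} {t t' : W.F i} {s s' : S} (h : W.IsSc i t s)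
    (h' : W.IsSc i t' s') : W.IsSc i (t * t') (s * s') := by
  rw [IsSc] at *
  rw [map_mul, h, h', ← Pi.single_mul]
  congr 1
  rw [smul_mul_smul_comm, mul_one]

end Wedd

end URingR
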