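import Pool.Agent.URingR.Corner
import Pool.Agent.URingR.WeddA
import Pool.Agent.URingR.Line

/-!
# R3(c). Module EXD
-/

namespace URingR

universe u v

variable {S : Type u} [Ring S] {M : Type v} [CommGroup M]

open Ring (jacobson)

/-- the idempotent of a set of indices of the component `i` -/
private def exdE (W : Wedd S) (i : Fin W.n) (D : Finset (Fin (W.d i))) : S :=
  ∑ b ∈ D, W.E ⟨i, b⟩

private theorem exdE_idem (W : Wedd S) (i : Fin W.n) (D : Finset (Fin (W.d i))) :
    exdE W i D * exdE W i D = exdE W i D := by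
  classical
  rw [exdE, Finset.sum_mul]
  refine Finset.sum_congr rfl fun a ha => ?_
  rw [Finset.mul_sum, Finset.sum_eq_single a]
  · exact W.compl.idem ⟨i, a⟩
  · intro b _ hb
    exact W.compl.ortho (fun h => hb (by cases h; rfl))
  · intro h; exact absurd ha h

private theorem exdE_ne (W : Wedd S) (i : Fin W.n) (D : Finset (Fin (W.d i))) (j : Fin W.n)
    (hj : j ≠ i) : W.π (exdE W i D) j = 0 := by
  rw [exdE, map_sum, Finset.sum_apply]
  refine Finset.sum_eq_zero fun b _ => ?_
  rw [W.πE]
  exact Pi.single_eq_of_ne hj _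

private theorem exdE_eq (W : Wedd S) (i : Fin W.n) (D : Finset (Fin (W.d i))) :
    W.π (exdE W i D) i = Matrix.diagonal (fun r => if r ∈ D then 1 else 0) := by
  classical
  rw [exdE, map_sum, Finset.sum_apply]
  have h1 : ∀ b ∈ D, W.π (W.E ⟨i, b⟩) i = Matrix.single b b (1 : W.F i) := by
    intro b _
    rw [W.πE]
    exact Pi.single_eq_same _ _
  rw [Finset.sum_congr rfl h1]
  ext r s
  rw [Matrix.sum_apply]
  simp only [Matrix.single_apply, Matrix.diagonal_apply]
  by_cases hrs : r = s
  · subst hrs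
    simp
  · rw [if_neg hrs]
    refine Finset.sum_eq_zero fun a _ => ?_
    rw [if_neg]
    rintro ⟨h, h'⟩
    exact hrs (h.symm.trans h')

/-- lifting of invertible matrices -/
private theorem exd_lift [Finite S] (W : Wedd S) (i : Fin W.n) (D : Finset (Fin (W.d i)))
    (A B : Matrix (Fin (W.d i)) (Fin (W.d i)) (W.F i)) (hAB : A * B = 1) (hBA : B * A = 1)
    (h1 : (1 - W.π (exdE W i D) i) * A = 1 - W.π (exdE W i D) i)
    (h2 : A * (1 - W.π (exdE W i D) i) = 1 - W.π (exdE W i D) i) :
    ∃ u : Sˣ, u ∈ cg (exdE W i D) ∧ W.π (u : S) i = A := by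
  classical
  set e := exdE W i D with he
  have hee : e * e = e := exdE_idem W i D
  set d := W.π e i with hd
  have hdd : d * d = d := by
    rw [hd, ← Pi.mul_apply, ← map_mul, hee]
  have h3 : (1 - d) * B = 1 - d := by
    calc (1 - d) * B = ((1 - d) * A) * B := by rw [h1]
      _ = 1 - d := by rw [mul_assoc, hAB, mul_one]
  have h4 : B * (1 - d) = 1 - d := by
    calc B * (1 - d) = B * (A * (1 - d)) := by rw [h2]
      _ = 1 - d := by rw [← mul_assoc, hBA, one_mul]
  have key : ∀ C : Matrix (Fin (W.d i)) (Fin (W.d i)) (W.F i), (1 - d) * C = 1 - d →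
      C * (1 - d) = 1 - d → d * C * d + (1 - d) = C := by
    intro C hC hC'
    have h5 : C * d = C - (1 - d) := by
      rw [← hC']; noncomm_ring
    have h6 : d * C = C - (1 - d) := by
      rw [← hC]; noncomm_ring
    rw [mul_assoc, h5, mul_sub, h6]
    have h7 : d * (1 - d) = 0 := by rw [mul_sub, mul_one, hdd, sub_self]
    rw [h7]; abel
  have lift : ∀ C : Matrix (Fin (W.d i)) (Fin (W.d i)) (W.F i), (1 - d) * C = 1 - d →
      C * (1 - d) = 1 - d → ∃ g : S, (1 - e) * g = 1 - e ∧ g * (1 - e) = 1 - e ∧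
        W.π g = Function.update (1 : (j : Fin W.n) → Matrix (Fin (W.d j)) (Fin (W.d j)) (W.F j)) i C := by
    intro C hC hC'
    obtain ⟨x, hx⟩ := W.surj (Function.update (1 : (j : Fin W.n) → Matrix (Fin (W.d j)) (Fin (W.d j)) (W.F j)) i C)
    have h8 : (1 - e) * e = 0 := by rw [sub_mul, one_mul, hee, sub_self]
    have h9 : e * (1 - e) = 0 := by rw [mul_sub, mul_one, hee, sub_self]
    have h10 : (1 - e) * (1 - e) = 1 - e := by rw [mul_sub, mul_one, h8, sub_zero]
    refine ⟨e * x * e + (1 - e), ?_, ?_, ?_⟩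
    · rw [mul_add, ← mul_assoc, ← mul_assoc, h8, zero_mul, zero_mul, zero_add, h10]
    · rw [add_mul, mul_assoc, h9, mul_zero, zero_add, h10]
    · rw [map_add, map_mul, map_mul, map_sub, map_one, hx]
      funext j
      rw [Pi.add_apply, Pi.mul_apply, Pi.mul_apply, Pi.sub_apply, Pi.one_apply]
      by_cases hj : j = i
      · subst hj
        rw [Function.update_self]
        exact key C hC hC'
      · rw [exdE_ne W i D j hj, mul_zero, sub_zero, zero_add, Function.update_of_ne hj,
          Pi.one_apply]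
  obtain ⟨g, hg1, hg2, hg⟩ := lift A h1 h2
  obtain ⟨g', hg1', hg2', hg'⟩ := lift B h3 h4
  have hgg : W.π (g * g') = 1 := by
    rw [map_mul, hg, hg']
    funext j
    rw [Pi.mul_apply]
    by_cases hj : j = i
    · subst hj
      rw [Function.update_self, Function.update_self, hAB, Pi.one_apply]
    · rw [Function.update_of_ne hj, Function.update_of_ne hj, Pi.one_apply, mul_one]
  have hgg' : W.π (g' * g) = 1 := by
    rw [map_mul, hg, hg']
    funext j
    rw [Pi.mul_apply]
    by_cases hj : j = i
    · subst hj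
      rw [Function.update_self, Function.update_self, hBA, Pi.one_apply]
    · rw [Function.update_of_ne hj, Function.update_of_ne hj, Pi.one_apply, mul_one]
  have hu1 : ∃ w : Sˣ, (w : S) = g * g' := by
    obtain ⟨w, hw⟩ := exists_oneAdd (le_refl (jacobson S)) (a := g * g' - 1)
      (by rw [W.mem_J, map_sub, hgg, map_one, sub_self])
    exact ⟨w, by rw [hw]; abel⟩
  have hu2 : ∃ w : Sˣ, (w : S) = g' * g := by
    obtain ⟨w, hw⟩ := exists_oneAdd (le_refl (jacobson S)) (a := g' * g - 1)
      (by rw [W.mem_J, map_sub, hgg', map_one, sub_self])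
    exact ⟨w, by rw [hw]; abel⟩
  obtain ⟨w, hw⟩ := hu1
  obtain ⟨w', hw'⟩ := hu2
  have hr : g * (g' * ((w⁻¹ : Sˣ) : S)) = 1 := by rw [← mul_assoc, ← hw, Units.mul_inv]
  have hl : (((w'⁻¹ : Sˣ) : S) * g') * g = 1 := by rw [mul_assoc, ← hw', Units.inv_mul]
  have hlr : ((w'⁻¹ : Sˣ) : S) * g' = g' * ((w⁻¹ : Sˣ) : S) := by
    calc ((w'⁻¹ : Sˣ) : S) * g' = (((w'⁻¹ : Sˣ) : S) * g') * (g * (g' * ((w⁻¹ : Sˣ) : S))) := by
          rw [hr, mul_one]
      _ = ((((w'⁻¹ : Sˣ) : S) * g') * g) * (g' * ((w⁻¹ : Sˣ) : S)) := by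
          rw [mul_assoc (((w'⁻¹ : Sˣ) : S) * g')]
      _ = _ := by rw [hl, one_mul]
  refine ⟨⟨g, g' * ((w⁻¹ : Sˣ) : S), hr, by rw [← hlr]; exact hl⟩, ⟨hg1, hg2⟩, ?_⟩
  show W.π g i = A
  rw [hg, Function.update_self]

/-- **module EXD.** The index of `P` for `e' = E (i, a)`, `e'' = ∑ b ∈ T, E (i, b)`, `a ∉ T`, is
`1` modulo the characteristic `p` of `F_i`. `index_line` with `G = ↥(cg (e'+e''))`,
`φ g = W.π g i`, the set `insert a T`. Check: for `g ∈ G_e` one has
`π(g) = π(e) π(g) π(e) + 1 - π(e)`, where `π(e) i` is the diagonal projection to `insert a T`, so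
columns in `insert a T` are supported on it; `e'' g e' ∈ J = ker π` iff `π(g) i r a = 0` for
`r ∈ T`. Transitivity: for a non zero `v` supported on `insert a T` there is an invertible matrix
on `insert a T` with column `a` equal to `v`, extended by the identity (e.g. `v a ≠ 0`: replace the
column `a` of the identity by `v`; if `v a = 0` and `v r ≠ 0`, first permute `a` and `r`); lift it
to `x ∈ S` (`W.surj`), `e x e + (1 - e)` is a unit of `S` because its image is a unit
and `ker π = J` (`exists_oneAdd`). -/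
theorem index_mod [Finite S] (W : Wedd S) (i : Fin W.n) (a : Fin (W.d i))
    (T : Finset (Fin (W.d i))) (ha : a ∉ T) (p : ℕ) [Fact p.Prime] [CharP (W.F i) p]
    (P : Subgroup Sˣ)
    (hP : ∀ u : Sˣ, u ∈ P ↔ u ∈ cg (W.E ⟨i, a⟩ + ∑ b ∈ T, W.E ⟨i, b⟩) ∧
      (∑ b ∈ T, W.E ⟨i, b⟩) * (u : S) * W.E ⟨i, a⟩ ∈ jacobson S) :
    (P.relIndex (cg (W.E ⟨i, a⟩ + ∑ b ∈ T, W.E ⟨i, b⟩))) % p = 1 := by
  classical
  have hsum : W.E ⟨i, a⟩ + ∑ b ∈ T, W.E ⟨i, b⟩ = exdE W i (insert a T) := by
    rw [exdE, Finset.sum_insert ha]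
  rw [hsum] at hP ⊢
  -- entries of elements of the group
  have hrow : ∀ u : Sˣ, u ∈ cg (exdE W i (insert a T)) → ∀ r, r ∉ insert a T → ∀ s,
      W.π (u : S) i r s = if r = s then 1 else 0 := by
    intro u hu r hr s
    have h1 := congrArg (fun z => W.π z i r s) hu.1
    simp only [map_mul, map_sub, map_one, Pi.mul_apply, Pi.sub_apply, Pi.one_apply, exdE_eq,
      sub_mul, one_mul, Matrix.sub_apply, Matrix.diagonal_mul, Matrix.diagonal_apply,
      if_neg hr, zero_mul, sub_zero, ite_self, Matrix.one_apply] at h1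
    exact h1
  refine index_line p (insert a T) a (Finset.mem_insert_self _ _)
    (φ := (Pi.evalMonoidHom (fun j : Fin W.n => Matrix (Fin (W.d j)) (Fin (W.d j)) (W.F j)) i).comp
      ((W.π : S →* _).comp ((Units.coeHom S).comp (cg (exdE W i (insert a T))).subtype)))
    ?_ ?_ _ ?_
  · intro g c hc r hr
    show W.π ((g : Sˣ) : S) i r c = 0
    rw [hrow g g.2 r hr c, if_neg]
    rintro rfl
    exact hr hc
  · intro v hv hvD
    -- a non zero coordinate
    obtain ⟨r0, hr0⟩ : ∃ r, v r ≠ 0 := by
      by_contra hcon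
      push Not at hcon
      exact hv (funext hcon)
    have hr0D : r0 ∈ insert a T := by
      by_contra hcon
      exact hr0 (hvD r0 hcon)
    set N : Matrix (Fin (W.d i)) (Fin (W.d i)) (W.F i) :=
      (1 : Matrix (Fin (W.d i)) (Fin (W.d i)) (W.F i)).updateCol r0 v with hN
    set A : Matrix (Fin (W.d i)) (Fin (W.d i)) (W.F i) :=
      N.submatrix id (Equiv.swap a r0) with hA
    have hNdet : N.det = v r0 := by
      rw [hN, ← Matrix.cramer_apply, Matrix.cramer_one, Module.End.one_apply]
    have hAdet : IsUnit A.det := by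
      rw [hA, Matrix.det_permute', hNdet]
      rw [isUnit_iff_ne_zero]
      refine mul_ne_zero ?_ hr0
      rcases Int.units_eq_one_or (Equiv.Perm.sign (Equiv.swap a r0)) with h | h <;> rw [h] <;> simp
    have hAr : ∀ r, r ∉ insert a T → ∀ s, A r s = if r = s then 1 else 0 := by
      intro r hr s
      have hra : r ≠ a := fun h => hr (h ▸ Finset.mem_insert_self _ _)
      have hrr0 : r ≠ r0 := fun h => hr (h ▸ hr0D)
      rw [hA, Matrix.submatrix_apply, id, hN, Matrix.updateCol_apply]
      by_cases hs : Equiv.swap a r0 s = r0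
      · rw [if_pos hs, hvD r hr]
        have hsa : s = a := by
          have := congrArg (Equiv.swap a r0) hs
          rwa [Equiv.swap_apply_self, Equiv.swap_apply_right] at this
        rw [if_neg]
        rw [hsa]; exact hra
      · rw [if_neg hs, Matrix.one_apply]
        by_cases hrs : r = s
        · subst hrs
          rw [Equiv.swap_apply_of_ne_of_ne hra hrr0]
        · rw [if_neg hrs, if_neg]
          intro h
          apply hrs
          have := congrArg (Equiv.swap a r0) h
          rwa [Equiv.swap_apply_self, Equiv.swap_apply_of_ne_of_ne hra hrr0] at this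
    have hAc : ∀ s, s ∉ insert a T → ∀ r, A r s = if r = s then 1 else 0 := by
      intro s hs r
      have hsa : s ≠ a := fun h => hs (h ▸ Finset.mem_insert_self _ _)
      have hsr0 : s ≠ r0 := fun h => hs (h ▸ hr0D)
      rw [hA, Matrix.submatrix_apply, id, hN, Matrix.updateCol_apply,
        Equiv.swap_apply_of_ne_of_ne hsa hsr0, if_neg hsr0, Matrix.one_apply]
    obtain ⟨u, hu, huA⟩ := exd_lift W i (insert a T) A A⁻¹ (Matrix.mul_nonsing_inv A hAdet)
      (Matrix.nonsing_inv_mul A hAdet)
      (by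
        rw [exdE_eq]
        ext r s
        rw [sub_mul, one_mul, Matrix.sub_apply, Matrix.sub_apply, Matrix.diagonal_mul,
          Matrix.one_apply, Matrix.diagonal_apply]
        by_cases hr : r ∈ insert a T
        · simp only [if_pos hr, one_mul, sub_self]
        · simp only [if_neg hr, zero_mul, sub_zero, ite_self]
          exact hAr r hr s)
      (by
        rw [exdE_eq]
        ext r s
        rw [mul_sub, mul_one, Matrix.sub_apply, Matrix.sub_apply, Matrix.mul_diagonal,
          Matrix.one_apply, Matrix.diagonal_apply]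
        by_cases hs : s ∈ insert a T
        · by_cases hrs : r = s
          · subst hrs
            simp only [if_pos hs, mul_one, sub_self, if_true]
          · simp only [if_pos hs, if_neg hrs, mul_one, sub_self]
        · by_cases hrs : r = s
          · subst hrs
            simp only [if_neg hs, mul_zero, sub_zero, if_true]
            rw [hAc r hs r, if_pos rfl]
          · simp only [if_neg hs, if_neg hrs, mul_zero, sub_zero]
            rw [hAc s hs r, if_neg hrs])
    refine ⟨⟨u, hu⟩, fun r => ?_⟩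
    show W.π (u : S) i r a = v r
    rw [huA, hA, Matrix.submatrix_apply, id, Equiv.swap_apply_left, hN, Matrix.updateCol_self]
  · intro g
    show g ∈ P.subgroupOf _ ↔ ∀ r, r ≠ a → W.π ((g : Sˣ) : S) i r a = 0
    rw [Subgroup.mem_subgroupOf, hP]
    have hJ : (∑ b ∈ T, W.E ⟨i, b⟩) * ((g : Sˣ) : S) * W.E ⟨i, a⟩ ∈ jacobson S ↔
        ∀ r, r ∈ T → W.π ((g : Sˣ) : S) i r a = 0 := by
      rw [W.mem_J, map_mul, map_mul]
      have hEa : W.E ⟨i, a⟩ = exdE W i {a} := by rw [exdE, Finset.sum_singleton]
      have hET : ∑ b ∈ T, W.E ⟨i, b⟩ = exdE W i T := rfl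
      rw [hEa, hET]
      constructor
      · intro h r hr
        have h1 := congrFun (congrFun (congrFun h i) r) a
        rw [Pi.mul_apply, Pi.mul_apply, exdE_eq, exdE_eq, Matrix.mul_diagonal,
          Matrix.diagonal_mul] at h1
        simpa [hr] using h1
      · intro h
        funext j
        rw [Pi.mul_apply, Pi.mul_apply, Pi.zero_apply]
        by_cases hj : j = i
        · subst hj
          rw [exdE_eq, exdE_eq]
          ext r s
          rw [Matrix.mul_diagonal, Matrix.diagonal_mul, Matrix.zero_apply]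
          by_cases hr : r ∈ T
          · by_cases hs : s = a
            · subst hs
              rw [h r hr, mul_zero, zero_mul]
            · have hs' : s ∉ ({a} : Finset (Fin (W.d j))) := by rwa [Finset.mem_singleton]
              rw [if_neg hs', mul_zero]
          · rw [if_neg hr, zero_mul, zero_mul]
        · rw [exdE_ne W i T j hj, zero_mul, zero_mul]
    constructor
    · rintro ⟨_, h⟩ r hr
      by_cases hrT : r ∈ T
      · exact hJ.1 h r hrT
      · have hrD : r ∉ insert a T := by
          rw [Finset.mem_insert]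
          push Not
          exact ⟨hr, hrT⟩
        rw [hrow g g.2 r hrD a, if_neg hr]
    · intro h
      refine ⟨g.2, hJ.2 fun r hr => h r ?_⟩
      rintro rfl
      exact ha hr

end URingR
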