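import Pool.Agent.URingR.Exa
import Pool.Agent.URingR.Exb
import Pool.Agent.URingR.Exc
import Pool.Agent.URingR.Exd

/-!
# R3(c). Module EXE
-/

namespace URingR

universe u v

variable {S : Type u} [Ring S] {M : Type v} [CommGroup M]

open Ring (jacobson)

/-- the subgroup of the block upper triangular elements modulo `J` -/
private theorem exe_P [Finite S] {e' e'' : S} (h2 : e'' * e'' = e'')
    (h21 : e'' * e' = 0) :
    ∃ P : Subgroup Sˣ, ∀ u : Sˣ, u ∈ P ↔
      u ∈ cg (e' + e'') ∧ e'' * (u : S) * e' ∈ jacobson S := by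
  let Q : Submonoid Sˣ :=
    { carrier := {u | u ∈ cg (e' + e'') ∧ e'' * (u : S) * e' ∈ jacobson S}
      one_mem' := ⟨one_mem _, by rw [Units.val_one, mul_one, h21]; exact zero_mem _⟩
      mul_mem' := by
        rintro a b ⟨ha, ha'⟩ ⟨hb, hb'⟩
        refine ⟨mul_mem ha hb, ?_⟩
        have h3 : e'' * (1 - (e' + e'')) = 0 := by
          rw [mul_sub, mul_one, mul_add, h21, h2, zero_add, sub_self]
        have h4 : e'' * (a : S) * (1 - (e' + e'')) = 0 := by
          rw [mul_assoc, ha.2, h3]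
        have h5 : e'' * ((a * b : Sˣ) : S) * e'
            = (e'' * (a : S) * e') * ((b : S) * e') + (e'' * (a : S)) * (e'' * (b : S) * e')
              + (e'' * (a : S) * (1 - (e' + e''))) * ((b : S) * e') := by
          rw [Units.val_mul]; noncomm_ring
        rw [h5, h4, zero_mul, add_zero]
        exact add_mem (Ideal.mul_mem_right _ _ ha') (Ideal.mul_mem_left _ _ hb') }
  refine ⟨{ Q with inv_mem' := ?_ }, fun u => Iff.rfl⟩
  intro u hu
  have h6 : u⁻¹ = u ^ (Nat.card Sˣ - 1) := by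
    rw [inv_eq_iff_mul_eq_one, ← pow_succ', Nat.sub_add_cancel Nat.card_pos, pow_card_eq_one']
  have h7 : u ^ (Nat.card Sˣ - 1) ∈ Q := pow_mem (S := Q) (show u ∈ Q from hu) _
  rw [← h6] at h7
  exact h7

private theorem exe_idem (W : Wedd S) (i : Fin W.n) (D : Finset (Fin (W.d i))) :
    (∑ b ∈ D, W.E ⟨i, b⟩) * (∑ b ∈ D, W.E ⟨i, b⟩) = ∑ b ∈ D, W.E ⟨i, b⟩ := by
  classical
  rw [Finset.sum_mul]
  refine Finset.sum_congr rfl fun a ha => ?_
  rw [Finset.mul_sum, Finset.sum_eq_single a]
  · exact W.compl.idem ⟨i, a⟩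
  · intro b _ hb
    exact W.compl.ortho (fun h => hb (by cases h; rfl))
  · intro h; exact absurd ha h

private theorem exe_left (W : Wedd S) (i : Fin W.n) (a : Fin (W.d i))
    (D : Finset (Fin (W.d i))) (ha : a ∉ D) :
    W.E ⟨i, a⟩ * (∑ b ∈ D, W.E ⟨i, b⟩) = 0 := by
  rw [Finset.mul_sum]
  refine Finset.sum_eq_zero fun b hb => W.compl.ortho fun h => ?_
  cases h
  exact ha hb

private theorem exe_right (W : Wedd S) (i : Fin W.n) (a : Fin (W.d i))
    (D : Finset (Fin (W.d i))) (ha : a ∉ D) :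
    (∑ b ∈ D, W.E ⟨i, b⟩) * W.E ⟨i, a⟩ = 0 := by
  rw [Finset.sum_mul]
  refine Finset.sum_eq_zero fun b hb => W.compl.ortho fun h => ?_
  cases h
  exact ha hb

private theorem exe_ne (W : Wedd S) (i : Fin W.n) (D : Finset (Fin (W.d i))) (j : Fin W.n)
    (hj : j ≠ i) : W.π (∑ b ∈ D, W.E ⟨i, b⟩) j = 0 := by
  rw [map_sum, Finset.sum_apply]
  refine Finset.sum_eq_zero fun b _ => ?_
  rw [W.πE]
  exact Pi.single_eq_of_ne hj _

private theorem exe_comp [Finite S] (W : Wedd S) (χ : oneAdd (jacobson S) →* M)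
    (hχ : stab le_rfl χ = ⊤) (i : Fin W.n) (D : Finset (Fin (W.d i))) :
    Claim χ (∑ b ∈ D, W.E ⟨i, b⟩) := by
  classical
  obtain ⟨p, hp⟩ := CharP.exists (W.F i)
  have : Fact p.Prime := ⟨CharP.char_is_prime (W.F i) p⟩
  induction D using Finset.induction_on with
  | empty => rw [Finset.sum_empty]; exact claim_zero χ
  | insert a T ha ih =>
    obtain ⟨P, hP⟩ := exe_P (exe_idem W i T) (exe_right W i a T ha)
    have hsum : W.E ⟨i, a⟩ + ∑ b ∈ T, W.E ⟨i, b⟩ = ∑ b ∈ insert a T, W.E ⟨i, b⟩ := by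
      rw [Finset.sum_insert ha]
    obtain ⟨m, hm⟩ := exists_ppow W i (e := W.E ⟨i, a⟩ + ∑ b ∈ T, W.E ⟨i, b⟩)
      (by rw [hsum]; exact exe_idem W i _) (by rw [hsum]; exact exe_ne W i _) p
    have hidx := index_mod W i a T ha p P hP
    have hcop : Nat.Coprime (P.relIndex (cg (W.E ⟨i, a⟩ + ∑ b ∈ T, W.E ⟨i, b⟩))) (p ^ m) := by
      apply Nat.Coprime.pow_right
      rw [Nat.coprime_comm, Nat.Prime.coprime_iff_not_dvd Fact.out]
      intro h
      have := Nat.mod_eq_zero_of_dvd h
      omega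
    rw [← hsum]
    exact claim_step χ hχ (W.compl.idem ⟨i, a⟩) (exe_idem W i T) (exe_left W i a T ha)
      (exe_right W i a T ha) (claim_prim W χ hχ ⟨i, a⟩) ih P hP (p ^ m) hm hcop

private theorem exe_all [Finite S] (W : Wedd S) (χ : oneAdd (jacobson S) →* M)
    (hχ : stab le_rfl χ = ⊤) (A : Finset (Fin W.n)) : Claim χ (∑ i ∈ A, W.c i) := by
  classical
  induction A using Finset.induction_on with
  | empty => rw [Finset.sum_empty]; exact claim_zero χ
  | insert i A hi ih =>
    have hl : W.c i * (∑ j ∈ A, W.c j) = 0 := by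
      rw [Finset.mul_sum]
      refine Finset.sum_eq_zero fun j hj => W.c_mul_ne ?_
      rintro rfl
      exact hi hj
    have hr : (∑ j ∈ A, W.c j) * W.c i = 0 := by
      rw [Finset.sum_mul]
      refine Finset.sum_eq_zero fun j hj => W.c_mul_ne ?_
      rintro rfl
      exact hi hj
    have hid : (∑ j ∈ A, W.c j) * (∑ j ∈ A, W.c j) = ∑ j ∈ A, W.c j := by
      rw [Finset.sum_mul]
      refine Finset.sum_congr rfl fun j hj => ?_
      rw [Finset.mul_sum, Finset.sum_eq_single j]
      · exact W.c_mul_self j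
      · intro b _ hb
        exact W.c_mul_ne hb.symm
      · intro h; exact absurd hj h
    have hJ : ∀ x : S, (∑ j ∈ A, W.c j) * x * W.c i ∈ jacobson S := by
      intro x
      rw [W.mem_J, map_mul, map_mul, map_sum]
      funext k
      rw [Pi.mul_apply, Pi.mul_apply, Pi.zero_apply]
      by_cases hk : k = i
      · subst hk
        rw [Finset.sum_apply, Finset.sum_eq_zero, zero_mul, zero_mul]
        intro j hj
        rw [W.π_c]
        refine Pi.single_eq_of_ne ?_ _
        rintro rfl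
        exact hi hj
      · rw [W.π_c i, Pi.single_eq_of_ne hk, mul_zero]
    rw [Finset.sum_insert hi]
    refine claim_step χ hχ (W.c_mul_self i) hid hl hr (exe_comp W χ hχ i Finset.univ) ih
      (cg (W.c i + ∑ j ∈ A, W.c j)) (fun u => ⟨fun h => ⟨h, hJ _⟩, fun h => h.1⟩)
      (Nat.card Sˣ) (fun u _ _ => pow_card_eq_one') ?_
    rw [Subgroup.relIndex_self]
    exact Nat.coprime_one_left _

/-- **module EXE.** Assembly. First `∑ b ∈ T, E (i, b)` by induction on the finset `T`
(`claim_zero`, `claim_prim`, `claim_step`, `index_mod`, `exists_ppow`), then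
`∑ i ∈ A, ∑ b, E (i, b)` by induction on `A`: here `e'' S e' ≤ J` (its image under `π` is zero), so
`P = G_(e'+e'')` and `claim_step` applies with relative index `1` and `k = 0 < ` any exponent, e.g.
the order of `Sˣ`. For `A` everything the sum is `1` (`W.compl.complete`,
`Fintype.sum_sigma`), and `exists_of_claim_one`. (The subgroup `P` has to be constructed: units
with `e'' u e' ∈ J` in `cg (e'+e'')` are closed under products and inverses, for the inverse use
that it is a finite submonoid, or `u⁻¹ = u^(n-1)`.) -/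
theorem exists_extension [Finite S] (χ : oneAdd (jacobson S) →* M) (hχ : stab le_rfl χ = ⊤) :
    ∃ F : Sˣ →* M, ∀ n : oneAdd (jacobson S), F n = χ n := by
  obtain ⟨W⟩ := exists_wedd S
  have h := exe_all W χ hχ Finset.univ
  rw [W.sum_c] at h
  exact exists_of_claim_one h

end URingR
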