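import Mathlib

/-!
# R4. Module AND
-/

namespace URingR

universe u

private theorem and_geom {F : Type u} [Field F] [Fintype F] (c : Fˣ) [Decidable (c = 1)] :
    ∑ j ∈ Finset.range (Fintype.card F - 1), (c : F) ^ j = if c = 1 then -1 else 0 := by
  by_cases h : c = 1
  · rw [if_pos h, h]
    simp only [Units.val_one, one_pow, Finset.sum_const, Finset.card_range, nsmul_eq_mul, mul_one]
    have h1 : 1 ≤ Fintype.card F := Fintype.card_pos
    rw [Nat.cast_sub h1, FiniteField.cast_card_eq_zero, Nat.cast_one, zero_sub]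
  · rw [if_neg h]
    have h1 : (c : F) - 1 ≠ 0 := by
      intro h2
      apply h
      ext
      rw [Units.val_one]
      exact sub_eq_zero.1 h2
    have h2 := geom_sum_mul (c : F) (Fintype.card F - 1)
    rw [FiniteField.pow_card_sub_one_eq_one (c : F) c.ne_zero, sub_self] at h2
    exact (mul_eq_zero.1 h2).resolve_right h1

/-- **module AND (pure linear algebra).** Let `F` be a finite field, `V` an `F`-space and
`R : F →+* Module.End F V` a ring homomorphism. Then every `v` is a sum of vectors `v_σ`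
(`σ : F →+* F`) with `R c v_σ = σ(c) • v_σ`.

Proof. For `j < |F| - 1` put `P_j v = - ∑ c ≠ 0, c^j • R(c⁻¹) v`. Then `R c (P_j v) = c^j • P_j v`
for `c ≠ 0` and `∑ j, P_j v = v` (`∑ j, c^j = 0` for `c ≠ 1`, and `|F| - 1 = -1` in `F`;
`FiniteField.sum_pow_units` or geometric sums). If `w = P_j v ≠ 0`, then `c ↦ c^j` (`0 ↦ 0`) is
additive: `(c+d)^j w = R(c+d) w = (c^j + d^j) w`, so it is a ring homomorphism `σ : F →+* F`. -/
theorem exists_decomp {F : Type u} [Field F] [Finite F] {V : Type u} [AddCommGroup V]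
    [Module F V] (R : F →+* Module.End F V) (v : V) :
    v ∈ Submodule.span F {w : V | ∃ σ : F →+* F, ∀ c : F, R c w = σ c • w} := by
  classical
  have : Fintype F := Fintype.ofFinite F
  let Pj : ℕ → V := fun j => - ∑ c : Fˣ, ((c : F) ^ j) • R ((c⁻¹ : Fˣ) : F) v
  have h1 : ∀ (j : ℕ) (d : Fˣ), R (d : F) (Pj j) = ((d : F) ^ j) • Pj j := by
    intro j d
    change R (d : F) (- ∑ c : Fˣ, ((c : F) ^ j) • R ((c⁻¹ : Fˣ) : F) v)
      = ((d : F) ^ j) • (- ∑ c : Fˣ, ((c : F) ^ j) • R ((c⁻¹ : Fˣ) : F) v)
    rw [map_neg, smul_neg, map_sum, Finset.smul_sum]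
    congr 1
    symm
    refine Fintype.sum_equiv (Equiv.mulLeft d) _ _ fun c => ?_
    rw [Equiv.coe_mulLeft, map_smul, smul_smul, ← mul_pow, Units.val_mul]
    congr 1
    rw [← Module.End.mul_apply, ← map_mul]
    congr 2
    rw [mul_inv_rev, Units.val_mul, mul_comm ((c⁻¹ : Fˣ) : F), ← mul_assoc, Units.mul_inv, one_mul]
  have h2 : ∑ j ∈ Finset.range (Fintype.card F - 1), Pj j = v := by
    change ∑ j ∈ Finset.range (Fintype.card F - 1),
      (- ∑ c : Fˣ, ((c : F) ^ j) • R ((c⁻¹ : Fˣ) : F) v) = v
    rw [Finset.sum_neg_distrib, Finset.sum_comm]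
    have h3 : ∀ c : Fˣ, ∑ j ∈ Finset.range (Fintype.card F - 1),
        ((c : F) ^ j) • R ((c⁻¹ : Fˣ) : F) v = if c = 1 then - v else 0 := by
      intro c
      rw [← Finset.sum_smul, and_geom c]
      by_cases hc : c = 1
      · rw [if_pos hc, if_pos hc, hc, inv_one, Units.val_one, map_one, Module.End.one_apply,
          neg_smul, one_smul]
      · rw [if_neg hc, if_neg hc, zero_smul]
    rw [Finset.sum_congr rfl fun c _ => h3 c, Finset.sum_ite_eq' Finset.univ (1 : Fˣ),
      if_pos (Finset.mem_univ _), neg_neg]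
  have h3 : ∀ j, Pj j ∈ Submodule.span F {w : V | ∃ σ : F →+* F, ∀ c : F, R c w = σ c • w} := by
    intro j
    by_cases hw : Pj j = 0
    · rw [hw]
      exact Submodule.zero_mem _
    · apply Submodule.subset_span
      have hs : ∀ c : F, R c (Pj j) = (if c = 0 then (0 : F) else c ^ j) • Pj j := by
        intro c
        by_cases hc : c = 0
        · rw [if_pos hc, hc, map_zero, zero_smul]
          rfl
        · rw [if_neg hc]
          exact h1 j (Units.mk0 c hc)
      have hinj : ∀ a b : F, a • Pj j = b • Pj j → a = b := by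
        intro a b hab
        have h4 : (a - b) • Pj j = 0 := by rw [sub_smul, hab, sub_self]
        rcases smul_eq_zero.1 h4 with h5 | h5
        · exact sub_eq_zero.1 h5
        · exact absurd h5 hw
      refine ⟨⟨⟨⟨fun c => if c = 0 then (0 : F) else c ^ j, ?_⟩, ?_⟩, ?_, ?_⟩, hs⟩
      · apply hinj
        rw [← hs 1, map_one, one_smul]
        rfl
      · intro a b
        apply hinj
        simp only
        rw [← hs (a * b), map_mul, Module.End.mul_apply, hs b, map_smul, hs a, smul_smul, mul_comm]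
      · simp
      · intro a b
        apply hinj
        simp only
        rw [← hs (a + b), map_add, add_smul, ← hs a, ← hs b]
        rfl
  rw [← h2]
  exact Submodule.sum_mem _ fun j _ => h3 j

end URingR
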