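import Mathlib

/-!
# R4. Module ANF
-/

namespace URingR

universe u

/-- **module ANF (finite fields).** A ring endomorphism `σ ≠ 1` of a finite field with `σ² = 1` is
`c ↦ c^q₀` with `|F| = q₀²`.

Proof. `FiniteField` Galois theory or by hand: the fixed field `F₀` of `σ` has `[F : F₀] = 2`
(every `c` is a root of `(X - c)(X - σ c)` over `F₀`; or Artin, `IntermediateField.fixedField`,
`card (zpowers σ) = 2`), `q₀ = |F₀|`, `|F| = q₀²`. For `c ∈ F`: `c^q₀` is a root of
`X² - (c + σ c) X + c σ c` too (coefficients in `F₀`), so `c^q₀ ∈ {c, σ c}`; if `c^q₀ = c` then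
`c ∈ F₀` (`X^q₀ - X` has at most `q₀` roots) and `σ c = c`. -/
theorem exists_frob {F : Type u} [Field F] [Finite F] (σ : F →+* F) (h1 : ∃ c, σ c ≠ c)
    (h2 : ∀ c, σ (σ c) = c) :
    ∃ q0 : ℕ, 1 < q0 ∧ Nat.card F = q0 ^ 2 ∧ ∀ c, σ c = c ^ q0 := by
  obtain ⟨p, hp⟩ := CharP.exists F
  have hpp : p.Prime := (CharP.char_is_prime_or_zero F p).resolve_right (by
    rintro rfl
    have : CharZero F := CharP.charP_to_charZero F
    exact not_finite F)
  have hfact : Fact p.Prime := ⟨hpp⟩
  let _ : Algebra (ZMod p) F := ZMod.algebra F p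
  let σA : F →ₐ[ZMod p] F :=
    { σ with
      commutes' := fun r => by
        change (σ.comp (algebraMap (ZMod p) F)) r = algebraMap (ZMod p) F r
        rw [Subsingleton.elim (σ.comp (algebraMap (ZMod p) F)) (algebraMap (ZMod p) F)] }
  have hσA : ∀ c, σA c = σ c := fun c => rfl
  obtain ⟨k, hk⟩ := (FiniteField.bijective_frobeniusAlgHom_pow (ZMod p) F).2 σA
  have hk' : FiniteField.frobeniusAlgHom (ZMod p) F ^ (k : ℕ) = σA := hk
  have hval : ∀ c, σ c = c ^ (p ^ (k : ℕ)) := by
    intro c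
    rw [← hσA, ← hk', AlgHom.coe_pow, FiniteField.coe_frobeniusAlgHom, pow_iterate, ZMod.card]
  have hsq : FiniteField.frobeniusAlgHom (ZMod p) F ^ (2 * (k : ℕ)) = 1 := by
    rw [mul_comm, pow_mul, hk']
    ext c
    rw [pow_two, AlgHom.mul_apply, hσA, hσA, h2, AlgHom.one_apply]
  have hdvd := orderOf_dvd_of_pow_eq_one hsq
  rw [FiniteField.orderOf_frobeniusAlgHom] at hdvd
  have hk0 : (k : ℕ) ≠ 0 := by
    intro h0
    obtain ⟨c, hc⟩ := h1
    apply hc
    rw [hval c, h0, pow_zero, pow_one]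
  have hlt := k.2
  have hn : Module.finrank (ZMod p) F = 2 * (k : ℕ) := by
    obtain ⟨m, hm⟩ := hdvd
    have hm0 : m ≠ 0 := by
      rintro rfl
      omega
    have hm2 : m < 2 := by
      by_contra hcon
      push Not at hcon
      have : Module.finrank (ZMod p) F * 2 ≤ Module.finrank (ZMod p) F * m :=
        Nat.mul_le_mul_left _ hcon
      omega
    have hm1 : m = 1 := by omega
    rw [hm1, mul_one] at hm
    exact hm.symm
  refine ⟨p ^ (k : ℕ), Nat.one_lt_pow hk0 hpp.one_lt, ?_, hval⟩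
  have : Fintype F := Fintype.ofFinite F
  have h3 : Fintype.card F = Fintype.card (ZMod p) ^ Module.finrank (ZMod p) F :=
    Module.card_eq_pow_finrank
  rw [Nat.card_eq_fintype_card, h3, ZMod.card, ← pow_mul]
  congr 1
  rw [mul_comm]
  exact hn

end URingR
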