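import Pool.Agent.URingR.AnDef

/-!
# R4. Module ANI
-/

namespace URingR

universe u v

variable {S : Type u} [Ring S] {M : Type v} [CommGroup M]

open Ring (jacobson)

section ani

private theorem ani_two_sq {F : Type u} [Field F] [Finite F] (c : F) :
    ∃ a b : F, c = a * a + b * b := by
  classical
  have : Fintype F := Fintype.ofFinite F
  by_cases h2 : ringChar F = 2
  · obtain ⟨a, ha⟩ := FiniteField.isSquare_of_char_two h2 c
    exact ⟨a, 0, by rw [ha]; ring⟩
  · obtain ⟨a, b, hab⟩ := FiniteField.exists_root_sum_quadratic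
      (f := (Polynomial.X ^ 2 : Polynomial F)) (g := Polynomial.X ^ 2 - Polynomial.C c)
      (by simp) (Polynomial.degree_X_pow_sub_C (by norm_num) c)
      (FiniteField.odd_card_of_char_ne_two h2)
    refine ⟨a, b, ?_⟩
    simp only [Polynomial.eval_pow, Polynomial.eval_X, Polynomial.eval_sub,
      Polynomial.eval_C] at hab
    linear_combination (-1 : F) * hab

variable (W : Wedd S) (i : Fin W.n)

private noncomputable def aniL (A : Matrix (Fin (W.d i)) (Fin (W.d i)) (W.F i)) : S :=
  (W.surj (Pi.single i A)).choose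

private theorem π_aniL (A : Matrix (Fin (W.d i)) (Fin (W.d i)) (W.F i)) :
    W.π (aniL W i A) = Pi.single i A := (W.surj (Pi.single i A)).choose_spec

variable {B : Ideal S} [B.IsTwoSided]

private theorem act_left (hsq : ∀ x ∈ jacobson S, ∀ y ∈ jacobson S, x * y ∈ B) {s s' x : S}
    (h : W.π s = W.π s') (hx : x ∈ jacobson S) :
    Ideal.Quotient.mk B s * Ideal.Quotient.mk B x
      = Ideal.Quotient.mk B s' * Ideal.Quotient.mk B x := by
  rw [← map_mul, ← map_mul, Ideal.Quotient.eq, ← sub_mul]
  exact hsq _ (by rw [W.mem_J, map_sub, h, sub_self]) _ hx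

private theorem act_right (hsq : ∀ x ∈ jacobson S, ∀ y ∈ jacobson S, x * y ∈ B) {s s' x : S}
    (h : W.π s = W.π s') (hx : x ∈ jacobson S) :
    Ideal.Quotient.mk B x * Ideal.Quotient.mk B s
      = Ideal.Quotient.mk B x * Ideal.Quotient.mk B s' := by
  rw [← map_mul, ← map_mul, Ideal.Quotient.eq, ← mul_sub]
  exact hsq _ hx _ (by rw [W.mem_J, map_sub, h, sub_self])

/-- the left action of matrices as an additive map -/
private noncomputable def aniΛ (hsq : ∀ x ∈ jacobson S, ∀ y ∈ jacobson S, x * y ∈ B) (x : S)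
    (hx : x ∈ jacobson S) : Matrix (Fin (W.d i)) (Fin (W.d i)) (W.F i) →+ S ⧸ B where
  toFun A := Ideal.Quotient.mk B (aniL W i A) * Ideal.Quotient.mk B x
  map_zero' := by
    rw [act_left W hsq (s' := 0) (by rw [π_aniL, Pi.single_zero, map_zero]) hx, map_zero, zero_mul]
  map_add' A A' := by
    rw [act_left W hsq (s' := aniL W i A + aniL W i A')
      (by rw [π_aniL, map_add, π_aniL, π_aniL, Pi.single_add]) hx, map_add, add_mul]

/-- the right action of matrices as an additive map -/
private noncomputable def aniP (hsq : ∀ x ∈ jacobson S, ∀ y ∈ jacobson S, x * y ∈ B) (x : S)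
    (hx : x ∈ jacobson S) : Matrix (Fin (W.d i)) (Fin (W.d i)) (W.F i) →+ S ⧸ B where
  toFun A := Ideal.Quotient.mk B x * Ideal.Quotient.mk B (aniL W i A)
  map_zero' := by
    rw [act_right W hsq (s' := 0) (by rw [π_aniL, Pi.single_zero, map_zero]) hx, map_zero,
      mul_zero]
  map_add' A A' := by
    rw [act_right W hsq (s' := aniL W i A + aniL W i A')
      (by rw [π_aniL, map_add, π_aniL, π_aniL, Pi.single_add]) hx, map_add, mul_add]

private theorem mul_left (hsq : ∀ x ∈ jacobson S, ∀ y ∈ jacobson S, x * y ∈ B) {x : S}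
    (hx : x ∈ jacobson S) (A A' : Matrix (Fin (W.d i)) (Fin (W.d i)) (W.F i)) :
    Ideal.Quotient.mk B (aniL W i A) * (Ideal.Quotient.mk B (aniL W i A') * Ideal.Quotient.mk B x)
      = Ideal.Quotient.mk B (aniL W i (A * A')) * Ideal.Quotient.mk B x := by
  rw [← mul_assoc, ← map_mul]
  exact act_left W hsq (by rw [map_mul, π_aniL, π_aniL, π_aniL, Pi.single_mul]) hx

private theorem mul_right (hsq : ∀ x ∈ jacobson S, ∀ y ∈ jacobson S, x * y ∈ B) {x : S}
    (hx : x ∈ jacobson S) (A A' : Matrix (Fin (W.d i)) (Fin (W.d i)) (W.F i)) :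
    (Ideal.Quotient.mk B x * Ideal.Quotient.mk B (aniL W i A)) * Ideal.Quotient.mk B (aniL W i A')
      = Ideal.Quotient.mk B x * Ideal.Quotient.mk B (aniL W i (A * A')) := by
  rw [mul_assoc, ← map_mul]
  exact act_right W hsq (by rw [map_mul, π_aniL, π_aniL, π_aniL, Pi.single_mul]) hx

private theorem mul_single_eq {n : ℕ} {F : Type u} [Field F] (A : Matrix (Fin n) (Fin n) F)
    (r a : Fin n) : A * Matrix.single r a 1 = ∑ t, Matrix.single t a (A t r) := by
  ext x y
  rw [Matrix.sum_apply]
  simp only [Matrix.mul_apply, Matrix.single_apply]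
  by_cases h : a = y
  · subst h
    simp
  · simp [h]

private theorem single_mul_eq {n : ℕ} {F : Type u} [Field F] (A : Matrix (Fin n) (Fin n) F)
    (b r : Fin n) : Matrix.single b r 1 * A = ∑ t, Matrix.single b t (A r t) := by
  ext x y
  rw [Matrix.sum_apply]
  simp only [Matrix.mul_apply, Matrix.single_apply]
  by_cases h : b = x
  · subst h
    simp
  · simp [h]

/-- the averaged element -/
private noncomputable def aniW (v : S) (a b : Fin (W.d i)) : S :=
  ∑ r, aniL W i (Matrix.single r a 1) * v * aniL W i (Matrix.single b r 1)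

private theorem aniW_mk (v : S) (a b : Fin (W.d i)) :
    Ideal.Quotient.mk B (aniW W i v a b) = ∑ r, Ideal.Quotient.mk B (aniL W i (Matrix.single r a 1))
      * Ideal.Quotient.mk B v * Ideal.Quotient.mk B (aniL W i (Matrix.single b r 1)) := by
  unfold aniW
  rw [map_sum]
  refine Finset.sum_congr rfl fun r _ => ?_
  rw [map_mul, map_mul]

private theorem bal (hsq : ∀ x ∈ jacobson S, ∀ y ∈ jacobson S, x * y ∈ B) {v : S}
    (hv : v ∈ eig W B hsq i (RingHom.id (W.F i))) (x y a b : Fin (W.d i)) (c : W.F i) :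
    Ideal.Quotient.mk B (aniL W i (Matrix.single x a c)) * Ideal.Quotient.mk B v
        * Ideal.Quotient.mk B (aniL W i (Matrix.single b y 1))
      = Ideal.Quotient.mk B (aniL W i (Matrix.single x a 1)) * Ideal.Quotient.mk B v
        * Ideal.Quotient.mk B (aniL W i (Matrix.single b y c)) := by
  have hvJ : v ∈ jacobson S := hv.1.1
  have hsc : W.IsSc i c (aniL W i (c • 1)) := π_aniL W i _
  have h1 : Ideal.Quotient.mk B v * Ideal.Quotient.mk B (aniL W i (c • 1))
      = Ideal.Quotient.mk B (aniL W i (c • 1)) * Ideal.Quotient.mk B v := by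
    rw [← map_mul, ← map_mul, Ideal.Quotient.eq]
    exact hv.2 c _ _ hsc hsc
  have h2 : (Matrix.single x a c : Matrix (Fin (W.d i)) (Fin (W.d i)) (W.F i))
      = Matrix.single x a 1 * (c • 1) := by
    rw [mul_smul_comm, mul_one, Matrix.smul_single, smul_eq_mul, mul_one]
  have h3 : (Matrix.single b y c : Matrix (Fin (W.d i)) (Fin (W.d i)) (W.F i))
      = (c • 1) * Matrix.single b y 1 := by
    rw [smul_mul_assoc, one_mul, Matrix.smul_single, smul_eq_mul, mul_one]
  rw [h2, ← mul_left W i hsq hvJ, ← h1]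
  rw [mul_assoc, mul_assoc, ← mul_assoc (Ideal.Quotient.mk B v), mul_right W i hsq hvJ, ← h3,
    mul_assoc]

private theorem central (hsq : ∀ x ∈ jacobson S, ∀ y ∈ jacobson S, x * y ∈ B) {v : S}
    (hv : v ∈ eig W B hsq i (RingHom.id (W.F i))) (a b : Fin (W.d i))
    (A : Matrix (Fin (W.d i)) (Fin (W.d i)) (W.F i)) :
    Ideal.Quotient.mk B (aniL W i A) * Ideal.Quotient.mk B (aniW W i v a b)
      = Ideal.Quotient.mk B (aniW W i v a b) * Ideal.Quotient.mk B (aniL W i A) := by
  have hvJ : v ∈ jacobson S := hv.1.1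
  rw [aniW_mk, Finset.mul_sum, Finset.sum_mul]
  have h1 : ∀ r, Ideal.Quotient.mk B (aniL W i A)
      * (Ideal.Quotient.mk B (aniL W i (Matrix.single r a 1)) * Ideal.Quotient.mk B v
        * Ideal.Quotient.mk B (aniL W i (Matrix.single b r 1)))
      = ∑ t, Ideal.Quotient.mk B (aniL W i (Matrix.single t a 1)) * Ideal.Quotient.mk B v
        * Ideal.Quotient.mk B (aniL W i (Matrix.single b r (A t r))) := by
    intro r
    rw [← mul_assoc, mul_left W i hsq hvJ, mul_single_eq]
    have h2 := map_sum (aniΛ W i hsq v hvJ) (fun t => Matrix.single t a (A t r)) Finset.univ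
    have h3 : Ideal.Quotient.mk B (aniL W i (∑ t, Matrix.single t a (A t r)))
        * Ideal.Quotient.mk B v = ∑ t, Ideal.Quotient.mk B (aniL W i (Matrix.single t a (A t r)))
        * Ideal.Quotient.mk B v := h2
    rw [h3, Finset.sum_mul]
    refine Finset.sum_congr rfl fun t _ => ?_
    exact bal W i hsq hv t r a b (A t r)
  have h4 : ∀ t, (Ideal.Quotient.mk B (aniL W i (Matrix.single t a 1)) * Ideal.Quotient.mk B v
        * Ideal.Quotient.mk B (aniL W i (Matrix.single b t 1))) * Ideal.Quotient.mk B (aniL W i A)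
      = ∑ r, Ideal.Quotient.mk B (aniL W i (Matrix.single t a 1)) * Ideal.Quotient.mk B v
        * Ideal.Quotient.mk B (aniL W i (Matrix.single b r (A t r))) := by
    intro t
    have h5 : (Ideal.Quotient.mk B (aniL W i (Matrix.single t a 1)) * Ideal.Quotient.mk B v
        * Ideal.Quotient.mk B (aniL W i (Matrix.single b t 1))) * Ideal.Quotient.mk B (aniL W i A)
        = Ideal.Quotient.mk B (aniL W i (Matrix.single t a 1))
          * ((Ideal.Quotient.mk B v * Ideal.Quotient.mk B (aniL W i (Matrix.single b t 1)))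
            * Ideal.Quotient.mk B (aniL W i A)) := by
      simp only [mul_assoc]
    rw [h5, mul_right W i hsq hvJ, single_mul_eq]
    have h2 := map_sum (aniP W i hsq v hvJ) (fun r => Matrix.single b r (A t r)) Finset.univ
    have h3 : Ideal.Quotient.mk B v
        * Ideal.Quotient.mk B (aniL W i (∑ r, Matrix.single b r (A t r)))
        = ∑ r, Ideal.Quotient.mk B v
          * Ideal.Quotient.mk B (aniL W i (Matrix.single b r (A t r))) := h2
    rw [h3, Finset.mul_sum]
    refine Finset.sum_congr rfl fun r _ => ?_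
    rw [mul_assoc]
  rw [Finset.sum_congr rfl fun r _ => h1 r, Finset.sum_congr rfl fun t _ => h4 t,
    Finset.sum_comm]

private theorem comp_mk (hsq : ∀ x ∈ jacobson S, ∀ y ∈ jacobson S, x * y ∈ B) {x : S}
    (hx : x ∈ comp W B hsq i) : Ideal.Quotient.mk B x = Ideal.Quotient.mk B (W.c i)
      * Ideal.Quotient.mk B x * Ideal.Quotient.mk B (W.c i) := by
  rw [← map_mul, ← map_mul, Ideal.Quotient.eq]
  exact hx.2

private theorem comp_left (hsq : ∀ x ∈ jacobson S, ∀ y ∈ jacobson S, x * y ∈ B) {x : S}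
    (hx : x ∈ comp W B hsq i) (s : S) : Ideal.Quotient.mk B s * Ideal.Quotient.mk B x
      = Ideal.Quotient.mk B (aniL W i (W.π s i)) * Ideal.Quotient.mk B x := by
  have h1 : Ideal.Quotient.mk B (W.c i) * Ideal.Quotient.mk B x = Ideal.Quotient.mk B x := by
    have h2 := comp_mk W i hsq hx
    have h3 : Ideal.Quotient.mk B (W.c i) * Ideal.Quotient.mk B x
        = (Ideal.Quotient.mk B (W.c i) * Ideal.Quotient.mk B (W.c i)) * Ideal.Quotient.mk B x
          * Ideal.Quotient.mk B (W.c i) := by
      nth_rewrite 1 [h2]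
      simp only [mul_assoc]
    rw [h3, ← map_mul, W.c_mul_self, ← h2]
  have h2 : Ideal.Quotient.mk B s * Ideal.Quotient.mk B x
      = Ideal.Quotient.mk B (s * W.c i) * Ideal.Quotient.mk B x := by
    rw [map_mul, mul_assoc, h1]
  rw [h2]
  refine act_left W hsq ?_ hx.1
  rw [map_mul, W.π_c, π_aniL]
  funext j
  by_cases hj : j = i
  · subst hj
    simp
  · simp [Pi.single_eq_of_ne hj]

private theorem comp_right (hsq : ∀ x ∈ jacobson S, ∀ y ∈ jacobson S, x * y ∈ B) {x : S}
    (hx : x ∈ comp W B hsq i) (s : S) : Ideal.Quotient.mk B x * Ideal.Quotient.mk B s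
      = Ideal.Quotient.mk B x * Ideal.Quotient.mk B (aniL W i (W.π s i)) := by
  have h1 : Ideal.Quotient.mk B x * Ideal.Quotient.mk B (W.c i) = Ideal.Quotient.mk B x := by
    have h2 := comp_mk W i hsq hx
    have h3 : Ideal.Quotient.mk B x * Ideal.Quotient.mk B (W.c i)
        = Ideal.Quotient.mk B (W.c i) * Ideal.Quotient.mk B x
          * (Ideal.Quotient.mk B (W.c i) * Ideal.Quotient.mk B (W.c i)) := by
      nth_rewrite 1 [h2]
      simp only [mul_assoc]
    rw [h3, ← map_mul (Ideal.Quotient.mk B) (W.c i) (W.c i), W.c_mul_self, ← h2]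
  have h2 : Ideal.Quotient.mk B x * Ideal.Quotient.mk B s
      = Ideal.Quotient.mk B x * Ideal.Quotient.mk B (W.c i * s) := by
    rw [map_mul, ← mul_assoc, h1]
  rw [h2]
  refine act_right W hsq ?_ hx.1
  rw [map_mul, W.π_c, π_aniL]
  funext j
  by_cases hj : j = i
  · subst hj
    simp
  · simp [Pi.single_eq_of_ne hj]

private theorem aniW_mem (hsq : ∀ x ∈ jacobson S, ∀ y ∈ jacobson S, x * y ∈ B) {v : S}
    (hv : v ∈ comp W B hsq i) (a b : Fin (W.d i)) : aniW W i v a b ∈ comp W B hsq i := by
  unfold aniW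
  refine Ideal.sum_mem _ fun r _ => ?_
  exact Ideal.mul_mem_right _ _ (Ideal.mul_mem_left _ _ hv)

/-- some averaged element is not in `B` -/
private theorem exists_notMem (hsq : ∀ x ∈ jacobson S, ∀ y ∈ jacobson S, x * y ∈ B) {v : S}
    (hv : v ∈ comp W B hsq i) (hvB : v ∉ B) : ∃ a b, aniW W i v a b ∉ B := by
  classical
  by_contra hcon
  push Not at hcon
  apply hvB
  rw [← Ideal.Quotient.eq_zero_iff_mem, comp_mk W i hsq hv]
  have hvJ : v ∈ jacobson S := hv.1
  have h0 : ∀ a b : Fin (W.d i), Ideal.Quotient.mk B (W.E ⟨i, a⟩) * Ideal.Quotient.mk B v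
      * Ideal.Quotient.mk B (W.E ⟨i, b⟩) = 0 := by
    intro a b
    have h1 : Ideal.Quotient.mk B (aniW W i v a b) = 0 :=
      Ideal.Quotient.eq_zero_iff_mem.2 (hcon a b)
    rw [aniW_mk] at h1
    have h2 : Ideal.Quotient.mk B (aniL W i (Matrix.single a a 1))
        * (∑ r, Ideal.Quotient.mk B (aniL W i (Matrix.single r a 1))
        * Ideal.Quotient.mk B v * Ideal.Quotient.mk B (aniL W i (Matrix.single b r 1)))
        * Ideal.Quotient.mk B (aniL W i (Matrix.single a b 1)) = 0 := by
      rw [h1, mul_zero, zero_mul]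
    rw [Finset.mul_sum, Finset.sum_mul] at h2
    have h3 : ∀ r, Ideal.Quotient.mk B (aniL W i (Matrix.single a a 1))
        * (Ideal.Quotient.mk B (aniL W i (Matrix.single r a 1))
        * Ideal.Quotient.mk B v * Ideal.Quotient.mk B (aniL W i (Matrix.single b r 1)))
        * Ideal.Quotient.mk B (aniL W i (Matrix.single a b 1))
        = if r = a then Ideal.Quotient.mk B (aniL W i (Matrix.single a a 1))
          * Ideal.Quotient.mk B v * Ideal.Quotient.mk B (aniL W i (Matrix.single b b 1))
          else 0 := by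
      intro r
      have h4 : Ideal.Quotient.mk B (aniL W i (Matrix.single a a 1))
          * (Ideal.Quotient.mk B (aniL W i (Matrix.single r a 1))
          * Ideal.Quotient.mk B v * Ideal.Quotient.mk B (aniL W i (Matrix.single b r 1)))
          * Ideal.Quotient.mk B (aniL W i (Matrix.single a b 1))
          = ((Ideal.Quotient.mk B (aniL W i (Matrix.single a a 1))
            * (Ideal.Quotient.mk B (aniL W i (Matrix.single r a 1)) * Ideal.Quotient.mk B v))
            * Ideal.Quotient.mk B (aniL W i (Matrix.single b r 1)))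
            * Ideal.Quotient.mk B (aniL W i (Matrix.single a b 1)) := by
        simp only [mul_assoc]
      rw [h4, mul_left W i hsq hvJ]
      by_cases hr : r = a
      · subst hr
        rw [if_pos rfl, Matrix.single_mul_single_same, one_mul]
        have h5 : Ideal.Quotient.mk B (aniL W i (Matrix.single r r 1)) * Ideal.Quotient.mk B v
            * Ideal.Quotient.mk B (aniL W i (Matrix.single b r 1))
            * Ideal.Quotient.mk B (aniL W i (Matrix.single r b 1))
            = Ideal.Quotient.mk B (aniL W i (Matrix.single r r 1)) * ((Ideal.Quotient.mk B v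
            * Ideal.Quotient.mk B (aniL W i (Matrix.single b r 1)))
            * Ideal.Quotient.mk B (aniL W i (Matrix.single r b 1))) := by
          simp only [mul_assoc]
        rw [h5, mul_right W i hsq hvJ, Matrix.single_mul_single_same, one_mul, mul_assoc]
      · rw [if_neg hr, Matrix.single_mul_single_of_ne _ _ _ _ (Ne.symm hr)]
        have h5 : Ideal.Quotient.mk B (aniL W i (0 : Matrix (Fin (W.d i)) (Fin (W.d i)) (W.F i)))
            * Ideal.Quotient.mk B v = 0 := (aniΛ W i hsq v hvJ).map_zero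
        rw [h5, zero_mul, zero_mul]
    rw [Finset.sum_congr rfl fun r _ => h3 r, Finset.sum_ite_eq' Finset.univ a,
      if_pos (Finset.mem_univ _)] at h2
    rw [act_left W hsq (s := W.E ⟨i, a⟩) (s' := aniL W i (Matrix.single a a 1))
      (by rw [W.πE, π_aniL]) hvJ, mul_assoc,
      act_right W hsq (s := W.E ⟨i, b⟩) (s' := aniL W i (Matrix.single b b 1))
      (by rw [W.πE, π_aniL]) hvJ, ← mul_assoc]
    exact h2
  rw [Wedd.c, map_sum, Finset.sum_mul, Finset.sum_mul]
  refine Finset.sum_eq_zero fun a _ => ?_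
  rw [Finset.mul_sum]
  exact Finset.sum_eq_zero fun b _ => h0 a b

end ani

/-- **module ANI (R4(c)).** `eig σ ≤ B` for `σ = 1`.

Proof. Let `v ∈ eig 1`, `v ∉ B`. Write `E a = W.E ⟨i, a⟩`; lifts `e_ab ∈ S` of the matrix units
`Pi.single i (Matrix.single a b 1)` (`W.surj`). Some `E a v E b ∉ B` (`v - c_i v c_i ∈ B`), put
`v₁ = e_0a v e_b0` for a fixed index `0`(the index set is not empty), still not in `B` (multiply by
`e_a0` and `e_0b`), and `w = ∑ r, e_r0 v₁ e_0r`. For all `s ∈ S`: `s w - w s ∈ B` (check for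
`s = e_ab`, for scalars because `v ∈ eig 1`, for `s` in the other components both products are in
`B`; every element of the component `i` of `S/J` is a sum of scalars times matrix units).
`w ∉ B` (`e_00 w e_00 - v₁ ∈ B`). For `s, t ∈ S`: `ω(s w, t w) = ω(w, t w s) = ω(w, t s w)` =: `f(ts)`
and `ω(s w, t w) = ω(w s, t w) = ω(w, s t w) = f(st)`, `f(s s) = ω(sw, sw) = 1`, `f` is additive and
depends only on `π s`. So `f(c e_ab) = f(c e_aa e_ab) = f(e_ab c e_aa) = f(0) = 1` for `a ≠ b`,
`f(c² e_aa) = f((c e_aa)²) = 1`; every element of a finite field is a sum of two squares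
(`FiniteField.exists_root_sum_quadratic`, `FiniteField.isSquare_of_char_two`; or
`Nat`-style: `ZMod`; characteristic 2: every element is a square). So `f = 1`, and
`I = B + S w` (`= {x : ∃ s, x - s w ∈ B}`) is a two-sided ideal with `ω(I, I) = 1`,
`B ≤ I ≤ J`, not `≤ B`: contradiction to (An). -/
theorem eig_id (W : Wedd S) {B : Ideal S} [B.IsTwoSided] {ω : S → S → M}
    (hω : IsForm B ω) (hAn : An B ω) (i : Fin W.n) :
    eig W B hω.sq i (RingHom.id (W.F i)) ≤ B := by
  classical
  intro v hv
  by_contra hvB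
  obtain ⟨a, b, hw⟩ := exists_notMem W i hω.sq hv.1 hvB
  set w := aniW W i v a b with hwdef
  have hwc : w ∈ comp W B hω.sq i := aniW_mem W i hω.sq hv.1 a b
  have hwJ : w ∈ jacobson S := hwc.1
  have hcen : ∀ s : S, s * w - w * s ∈ B := by
    intro s
    rw [← Ideal.Quotient.eq, map_mul, map_mul, comp_left W i hω.sq hwc, comp_right W i hω.sq hwc]
    exact central W i hω.sq hv a b _
  have hswJ : ∀ s : S, s * w ∈ jacobson S := fun s => Ideal.mul_mem_left _ _ hwJ
  have hmodr : ∀ x y y' : S, x ∈ jacobson S → y ∈ jacobson S → y' ∈ jacobson S → y - y' ∈ B →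
      ω x y = ω x y' := by
    intro x y y' hx hy hy' hyy
    have h1 : y = y' + (y - y') := by abel
    rw [h1, hω.add_right x hx y' hy' (y - y') (hω.le hyy), hω.of_mem_right hx hyy, mul_one]
  have hmodl : ∀ x x' y : S, x ∈ jacobson S → x' ∈ jacobson S → y ∈ jacobson S → x - x' ∈ B →
      ω x y = ω x' y := by
    intro x x' y hx hx' hy hxx
    have h1 : x = x' + (x - x') := by abel
    rw [h1, hω.add_left x' hx' (x - x') (hω.le hxx) y hy, hω.of_mem_left hxx hy, mul_one]
  -- the function
  have e1 : ∀ s t : S, ω (s * w) (t * w) = ω w (t * s * w) := by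
    intro s t
    rw [hω.smul s w hwJ (t * w) (hswJ t)]
    refine hmodr _ _ _ hwJ (Ideal.mul_mem_right _ _ (hswJ t)) (hswJ _) ?_
    have h1 : t * w * s - t * s * w = - (t * (s * w - w * s)) := by noncomm_ring
    rw [h1]
    exact B.neg_mem (B.mul_mem_left _ (hcen s))
  have e2 : ∀ s t : S, ω (s * w) (t * w) = ω w (s * t * w) := by
    intro s t
    rw [hmodl (s * w) (w * s) (t * w) (hswJ s) (Ideal.mul_mem_right _ _ hwJ) (hswJ t) (hcen s),
      hω.smul' s w hwJ (t * w) (hswJ t), mul_assoc]
  have hπ : ∀ s t : S, W.π s i = W.π t i → ω w (s * w) = ω w (t * w) := by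
    intro s t h
    refine hmodr _ _ _ hwJ (hswJ s) (hswJ t) ?_
    rw [← Ideal.Quotient.eq, map_mul, map_mul, comp_left W i hω.sq hwc,
      comp_left W i hω.sq hwc t, h]
  let G : Matrix (Fin (W.d i)) (Fin (W.d i)) (W.F i) →+ Additive M :=
    { toFun := fun A => Additive.ofMul (ω w (aniL W i A * w))
      map_zero' := by
        have h1 : ω w (aniL W i (0 : Matrix (Fin (W.d i)) (Fin (W.d i)) (W.F i)) * w)
            = ω w (0 * w) := hπ _ _ (by rw [π_aniL, map_zero, Pi.single_zero])
        rw [h1, zero_mul, hω.zero_right hwJ]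
        rfl
      map_add' := by
        intro A A'
        have h1 : ω w (aniL W i (A + A') * w) = ω w ((aniL W i A + aniL W i A') * w) :=
          hπ _ _ (by rw [π_aniL, map_add, π_aniL, π_aniL, Pi.single_add])
        rw [h1, add_mul, hω.add_right w hwJ _ (hswJ _) _ (hswJ _)]
        rfl }
  have hG : ∀ A, G A = Additive.ofMul (ω w (aniL W i A * w)) := fun A => rfl
  have hGs : ∀ s : S, ω w (s * w) = Additive.toMul (G (W.π s i)) := by
    intro s
    rw [hG, toMul_ofMul]
    exact hπ _ _ (by rw [π_aniL, Pi.single_eq_same])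
  have hcomm : ∀ A A', G (A * A') = G (A' * A) := by
    intro A A'
    have h1 : ω w (aniL W i (A * A') * w) = ω w (aniL W i A * aniL W i A' * w) :=
      hπ _ _ (by rw [π_aniL, map_mul, π_aniL, π_aniL, Pi.single_mul])
    have h2 : ω w (aniL W i (A' * A) * w) = ω w (aniL W i A' * aniL W i A * w) :=
      hπ _ _ (by rw [π_aniL, map_mul, π_aniL, π_aniL, Pi.single_mul])
    rw [hG, hG, h1, h2, ← e1, ← e2]
  have hself : ∀ A, G (A * A) = 0 := by
    intro A
    have h1 : ω w (aniL W i (A * A) * w) = ω w (aniL W i A * aniL W i A * w) :=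
      hπ _ _ (by rw [π_aniL, map_mul, π_aniL, Pi.single_mul])
    rw [hG, h1, ← e1, hω.self _ (hswJ _)]
    rfl
  have hsingle : ∀ (x y : Fin (W.d i)) (c : W.F i), G (Matrix.single x y c) = 0 := by
    intro x y c
    by_cases hxy : x = y
    · subst hxy
      obtain ⟨c1, c2, hc⟩ := ani_two_sq c
      rw [hc, Matrix.single_add, map_add]
      have h1 : ∀ c1 : W.F i, G (Matrix.single x x (c1 * c1)) = 0 := by
        intro c1
        have h2 : (Matrix.single x x (c1 * c1) : Matrix (Fin (W.d i)) (Fin (W.d i)) (W.F i))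
            = Matrix.single x x c1 * Matrix.single x x c1 :=
          (Matrix.single_mul_single_same _ _ _ _ _).symm
        rw [h2]
        exact hself _
      rw [h1, h1, add_zero]
    · have h1 : (Matrix.single x y c : Matrix (Fin (W.d i)) (Fin (W.d i)) (W.F i))
          = Matrix.single x x 1 * Matrix.single x y c := by
        rw [Matrix.single_mul_single_same, one_mul]
      rw [h1, hcomm, Matrix.single_mul_single_of_ne _ _ _ _ (Ne.symm hxy), map_zero]
  have hG0 : ∀ A, G A = 0 := by
    intro A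
    rw [Matrix.matrix_eq_sum_single A, map_sum]
    refine Finset.sum_eq_zero fun x _ => ?_
    rw [map_sum]
    exact Finset.sum_eq_zero fun y _ => hsingle x y _
  have hf : ∀ s : S, ω w (s * w) = 1 := by
    intro s
    rw [hGs, hG0]
    rfl
  -- the ideal
  let I : Ideal S :=
    { carrier := {x | ∃ s, x - s * w ∈ B}
      add_mem' := by
        rintro x y ⟨s, hs⟩ ⟨t, ht⟩
        refine ⟨s + t, ?_⟩
        have h1 : x + y - (s + t) * w = (x - s * w) + (y - t * w) := by noncomm_ring
        rw [h1]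
        exact B.add_mem hs ht
      zero_mem' := ⟨0, by simp⟩
      smul_mem' := by
        rintro r x ⟨s, hs⟩
        refine ⟨r * s, ?_⟩
        have h1 : r • x - r * s * w = r * (x - s * w) := by
          rw [smul_eq_mul]
          noncomm_ring
        rw [h1]
        exact B.mul_mem_left _ hs }
  have hI2 : I.IsTwoSided := ⟨by
    rintro x r ⟨s, hs⟩
    refine ⟨s * r, ?_⟩
    have h1 : x * r - s * r * w = (x - s * w) * r - s * (r * w - w * r) := by noncomm_ring
    rw [h1]
    exact B.sub_mem (B.mul_mem_right _ hs) (B.mul_mem_left _ (hcen r))⟩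
  have hBI : B ≤ I := fun x hx => ⟨0, by rwa [zero_mul, sub_zero]⟩
  have hIJ : I ≤ jacobson S := by
    rintro x ⟨s, hs⟩
    have h1 : x = (x - s * w) + s * w := by abel
    rw [h1]
    exact add_mem (hω.le hs) (hswJ s)
  have hIω : ∀ x ∈ I, ∀ y ∈ I, ω x y = 1 := by
    rintro x ⟨s, hs⟩ y ⟨t, ht⟩
    have hx : x ∈ jacobson S := hIJ ⟨s, hs⟩
    have hy : y ∈ jacobson S := hIJ ⟨t, ht⟩
    rw [hmodl x (s * w) y hx (hswJ s) hy hs, hmodr (s * w) y (t * w) (hswJ s) hy (hswJ t) ht,
      e1, hf]
  exact hw (hAn I hI2 hBI hIJ hIω ⟨1, by rw [one_mul, sub_self]; exact B.zero_mem⟩)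

end URingR
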