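import Pool.Agent.URingR.AnDef

/-!
# R4. Module ANO
-/

namespace URingR

universe u v

variable {S : Type u} [Ring S] {M : Type v} [CommGroup M]

open Ring (jacobson)

/-- **module ANO (R4(b)).** If `eig σ` is not contained in `B` then `σ² = 1`.

Proof. Otherwise `σ (σ c) ≠ c` for some `c`. For `x, y ∈ eig σ`, lifts `s` of `c`, `s'` of `σ c`,
`s''` of `σ(σ c)` (`IsSc`): `ω(s x, y) = ω(x, y s) = ω(x, s' y) = ω(x s', y) = ω(s'' x, y)`
(`hω.smul`, `hω.smul'`, and `x s' - s'' x ∈ B`). So `ω((s - s'') x, y) = 1`; `s - s''` is a lift of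
the nonzero scalar `d = c - σ(σ c)`; with `s₁` a lift of `d⁻¹`: `(s - s'') (s₁ x) - x ∈ B`
(`c_i x - x ∈ B`, elements with the same image under `π` differ by `J`, `J J ≤ B`), and
`s₁ x ∈ eig σ`. So `ω(x, y) = 1` on `eig σ` and (An) gives `eig σ ≤ B`. -/
theorem eig_invol (W : Wedd S) {B : Ideal S} [B.IsTwoSided] {ω : S → S → M}
    (hω : IsForm B ω) (hAn : An B ω) (i : Fin W.n) (σ : W.F i →+* W.F i)
    (h : ¬ eig W B hω.sq i σ ≤ B) (c : W.F i) : σ (σ c) = c := by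
  by_contra hne
  apply h
  have hJ : ∀ x ∈ eig W B hω.sq i σ, x ∈ jacobson S := fun x hx => hx.1.1
  refine hAn _ inferInstance (le_eig W B hω.le hω.sq i σ) hJ ?_
  -- change an argument modulo `B`
  have cl : ∀ x ∈ jacobson S, ∀ x' ∈ jacobson S, ∀ y ∈ jacobson S, x - x' ∈ B →
      ω x y = ω x' y := by
    intro x _ x' hx' y hy hxx
    have h1 := hω.add_left (x - x') (hω.le hxx) x' hx' y hy
    rw [sub_add_cancel, hω.of_mem_left hxx hy, one_mul] at h1
    exact h1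
  have cr : ∀ x ∈ jacobson S, ∀ y ∈ jacobson S, ∀ y' ∈ jacobson S, y - y' ∈ B →
      ω x y = ω x y' := by
    intro x hx y _ y' hy' hyy
    have h1 := hω.add_right x hx (y - y') (hω.le hyy) y' hy'
    rw [sub_add_cancel, hω.of_mem_right hx hyy, one_mul] at h1
    exact h1
  obtain ⟨s, hs⟩ := W.exists_isSc i c
  obtain ⟨s', hs'⟩ := W.exists_isSc i (σ c)
  obtain ⟨s'', hs''⟩ := W.exists_isSc i (σ (σ c))
  have hd : c - σ (σ c) ≠ 0 := sub_ne_zero.2 (Ne.symm hne)
  obtain ⟨s₁, hs₁⟩ := W.exists_isSc i (c - σ (σ c))⁻¹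
  have step : ∀ x ∈ eig W B hω.sq i σ, ∀ y ∈ eig W B hω.sq i σ, ω ((s - s'') * x) y = 1 := by
    intro x hx y hy
    have hxJ := hJ x hx
    have hyJ := hJ y hy
    have hsx : s * x ∈ jacobson S := Ideal.mul_mem_left _ _ hxJ
    have hsx'' : s'' * x ∈ jacobson S := Ideal.mul_mem_left _ _ hxJ
    have e1 : ω (s * x) y = ω (s'' * x) y := by
      rw [hω.smul s x hxJ y hyJ, cr x hxJ (y * s) (Ideal.mul_mem_right _ _ hyJ) (s' * y)
        (Ideal.mul_mem_left _ _ hyJ) (hy.2 c s s' hs hs'), ← hω.smul' s' x hxJ y hyJ,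
        cl (x * s') (Ideal.mul_mem_right _ _ hxJ) (s'' * x) hsx'' y hyJ
          (hx.2 (σ c) s' s'' hs' hs'')]
    have h1 := hω.add_left ((s - s'') * x) (Ideal.mul_mem_left _ _ hxJ) (s'' * x) hsx'' y hyJ
    have h2 : (s - s'') * x + s'' * x = s * x := by rw [sub_mul]; abel
    rw [h2, e1] at h1
    exact (mul_eq_right.mp h1.symm)
  intro x hx y hy
  have hxJ := hJ x hx
  have h1 := step (s₁ * x) (Ideal.mul_mem_left _ _ hx) y hy
  rw [← h1]
  refine cl x hxJ _ (Ideal.mul_mem_left _ _ (Ideal.mul_mem_left _ _ hxJ)) y (hJ y hy) ?_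
  -- `x - (s - s'') s₁ x ∈ B`
  have e1 : (s - s'') * s₁ - W.c i ∈ jacobson S := by
    rw [W.mem_J, map_sub, map_mul, map_sub, hs, hs'', hs₁, W.π_c]
    funext j
    by_cases hj : j = i
    · subst hj
      simp only [Pi.sub_apply, Pi.mul_apply, Pi.single_eq_same, Pi.zero_apply]
      rw [← sub_smul, smul_mul_smul_comm, mul_one, mul_inv_cancel₀ hd, one_smul, sub_self]
    · simp [Pi.single_eq_of_ne hj]
  have e2 : x - W.c i * x ∈ B := by
    have h2 := hx.1.2
    have h3 : W.c i * (x - W.c i * x * W.c i) ∈ B := B.mul_mem_left _ h2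
    have h4 : x - W.c i * x = (x - W.c i * x * W.c i)
        - (W.c i * (x - W.c i * x * W.c i)) := by
      have h5 : W.c i * (W.c i * x * W.c i) = W.c i * x * W.c i := by
        rw [← mul_assoc, ← mul_assoc, W.c_mul_self]
      rw [mul_sub, h5]; abel
    rw [h4]
    exact B.sub_mem h2 h3
  have h6 : x - (s - s'') * (s₁ * x) = (x - W.c i * x) - ((s - s'') * s₁ - W.c i) * x := by
    noncomm_ring
  rw [h6]
  exact B.sub_mem e2 (hω.sq _ e1 _ hxJ)

end URingR
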