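import Pool.Agent.URingR.AnDef

/-!
# R4. Module ANV
-/

namespace URingR

universe u v

variable {S : Type u} [Ring S] {M : Type v} [CommGroup M]

open Ring (jacobson)

section anv

variable (W : Wedd S) {B : Ideal S} [B.IsTwoSided]
    (hsq : ∀ x ∈ jacobson S, ∀ y ∈ jacobson S, x * y ∈ B) (i : Fin W.n) (I : Ideal S)
    [I.IsTwoSided]

private def anvN (B I : Ideal S) : Submodule S I := Submodule.comap I.subtype B

omit [B.IsTwoSided] [I.IsTwoSided] in
include hsq in
private theorem anv_smul_eq (hI : I ≤ jacobson S) {s s' : S} (h : W.π s = W.π s')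
    (v : I ⧸ anvN B I) : s • v = s' • v := by
  obtain ⟨x, rfl⟩ := Submodule.Quotient.mk_surjective _ v
  rw [← Submodule.Quotient.mk_smul, ← Submodule.Quotient.mk_smul, Submodule.Quotient.eq]
  change ((s • x - s' • x : I) : S) ∈ B
  have h1 : s - s' ∈ jacobson S := by
    rw [W.mem_J, map_sub, h, sub_self]
  have h2 : ((s • x - s' • x : I) : S) = (s - s') * (x : S) := by
    rw [sub_mul]
    rfl
  rw [h2]
  exact hsq _ h1 _ (hI x.2)

end anv

/-- **module ANV.** The quotient `V = I / B` as a vector space over `F_i`, for a two-sided ideal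
`B ≤ I ≤ comp i`. `m s t` is the map `q x ↦ q (s x t)`.

Proof. `V = I ⧸ (B.comap ..)` (quotient of additive groups). Two elements `s, s'` of `S` with
`π s = π s'` differ by an element of `J`, and `J I ≤ B`, so `q(s x) = q(s' x)`; define
`c • q x = q (s x)` for any `s` with `W.IsSc i c s` (`exists_isSc`, `IsSc.add`, `IsSc.mul`);
`1 • v = v` because `x - c_i x c_i ∈ B` gives `x - c_i x ∈ B`. `m s t` is `F_i`-linear because
`s s₀ - s₀ s ∈ J` for `IsSc i c s₀` (`IsSc.comm`). -/
theorem exists_V (W : Wedd S) {B : Ideal S} [B.IsTwoSided]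
    (hsq : ∀ x ∈ jacobson S, ∀ y ∈ jacobson S, x * y ∈ B) (i : Fin W.n) (I : Ideal S)
    [I.IsTwoSided] (hBI : B ≤ I) (hI : I ≤ comp W B hsq i) :
    ∃ (V : Type u) (_ : AddCommGroup V) (_ : Module (W.F i) V) (q : I →+ V)
      (m : S → S → (V →ₗ[W.F i] V)),
      Function.Surjective q ∧ (∀ x : I, q x = 0 ↔ (x : S) ∈ B) ∧
      (∀ (s t : S) (x : I),
        m s t (q x) = q ⟨s * x * t, I.mul_mem_right _ (I.mul_mem_left _ x.2)⟩) ∧
      (∀ (c : W.F i) (s : S), W.IsSc i c s → ∀ x : I,
        q ⟨s * x, I.mul_mem_left _ x.2⟩ = c • q x) := by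
  classical
  have hIJ : I ≤ jacobson S := fun x hx => (hI hx).1
  have key : ∀ {s s' : S}, W.π s = W.π s' → ∀ v : I ⧸ anvN B I, s • v = s' • v :=
    fun h v => anv_smul_eq W hsq I hIJ h v
  -- representatives of the scalars
  let rep : W.F i → S := fun c => (W.exists_isSc i c).choose
  have hrep : ∀ c, W.IsSc i c (rep c) := fun c => (W.exists_isSc i c).choose_spec
  have hsm : ∀ (c : W.F i) (s : S), W.IsSc i c s → ∀ v : I ⧸ anvN B I, rep c • v = s • v :=
    fun c s hs v => key ((hrep c).trans hs.symm) v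
  have hone : ∀ v : I ⧸ anvN B I, W.c i • v = v := by
    intro v
    obtain ⟨x, rfl⟩ := Submodule.Quotient.mk_surjective _ v
    rw [← Submodule.Quotient.mk_smul, Submodule.Quotient.eq]
    change ((W.c i • x - x : I) : S) ∈ B
    have h1 : (x : S) - W.c i * x * W.c i ∈ B := (hI x.2).2
    have h2 : ((W.c i • x - x : I) : S)
        = W.c i * ((x : S) - W.c i * x * W.c i) - ((x : S) - W.c i * x * W.c i) := by
      have h3 : ((W.c i • x - x : I) : S) = W.c i * (x : S) - x := rfl
      have h4 : W.c i * (W.c i * (x : S) * W.c i) = W.c i * (x : S) * W.c i := by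
        rw [← mul_assoc, ← mul_assoc, W.c_mul_self]
      rw [h3, mul_sub, h4]
      abel
    rw [h2]
    exact B.sub_mem (B.mul_mem_left _ h1) h1
  let inst : Module (W.F i) (I ⧸ anvN B I) :=
    { smul := fun c v => rep c • v
      one_smul := fun v => by
        change rep 1 • v = v
        rw [hsm 1 (W.c i) (W.isSc_c i), hone]
      mul_smul := fun c d v => by
        change rep (c * d) • v = rep c • (rep d • v)
        rw [hsm (c * d) (rep c * rep d) ((hrep c).mul W (hrep d)), mul_smul]
      smul_zero := fun c => by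
        change rep c • (0 : I ⧸ anvN B I) = 0
        rw [smul_zero]
      smul_add := fun c v w => by
        change rep c • (v + w) = rep c • v + rep c • w
        rw [smul_add]
      add_smul := fun c d v => by
        change rep (c + d) • v = rep c • v + rep d • v
        rw [hsm (c + d) (rep c + rep d) ((hrep c).add W (hrep d)), add_smul]
      zero_smul := fun v => by
        change rep 0 • v = 0
        have h0 : W.IsSc i 0 (0 : S) := by
          rw [Wedd.IsSc, map_zero, zero_smul, Pi.single_zero]
        rw [hsm 0 0 h0, zero_smul] }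
  have hsmul : ∀ (c : W.F i) (v : I ⧸ anvN B I), c • v = rep c • v := fun c v => rfl
  let q : I →+ (I ⧸ anvN B I) := (anvN B I).mkQ.toAddMonoidHom
  have hq : ∀ x : I, q x = Submodule.Quotient.mk x := fun x => rfl
  have hqs : Function.Surjective q := Submodule.Quotient.mk_surjective _
  have hq0 : ∀ x : I, q x = 0 ↔ (x : S) ∈ B := by
    intro x
    rw [hq, Submodule.Quotient.mk_eq_zero]
    rfl
  have hqq : ∀ x y : I, q x = q y ↔ (x : S) - y ∈ B := by
    intro x y
    rw [← sub_eq_zero, ← map_sub, hq0]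
    rfl
  have hqsm : ∀ (c : W.F i) (s : S), W.IsSc i c s → ∀ x : I,
      q ⟨s * x, I.mul_mem_left _ x.2⟩ = c • q x := by
    intro c s hs x
    rw [hsmul, hsm c s hs, hq, hq, ← Submodule.Quotient.mk_smul]
    rfl
  -- the maps
  let mf : S → S → (I ⧸ anvN B I) → (I ⧸ anvN B I) := fun s t v =>
    q ⟨s * ((hqs v).choose : S) * t, I.mul_mem_right _ (I.mul_mem_left _ (hqs v).choose.2)⟩
  have hmf : ∀ (s t : S) (x : I),
      mf s t (q x) = q ⟨s * x * t, I.mul_mem_right _ (I.mul_mem_left _ x.2)⟩ := by
    intro s t x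
    change q _ = q _
    rw [hqq]
    have h1 : ((hqs (q x)).choose : S) - x ∈ B := (hqq _ _).1 (hqs (q x)).choose_spec
    have h2 : s * ((hqs (q x)).choose : S) * t - s * x * t
        = s * (((hqs (q x)).choose : S) - x) * t := by noncomm_ring
    change s * ((hqs (q x)).choose : S) * t - s * x * t ∈ B
    rw [h2]
    exact B.mul_mem_right _ (B.mul_mem_left _ h1)
  let m : S → S → ((I ⧸ anvN B I) →ₗ[W.F i] (I ⧸ anvN B I)) := fun s t =>
    { toFun := mf s t
      map_add' := by
        intro v w
        obtain ⟨x, rfl⟩ := hqs v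
        obtain ⟨y, rfl⟩ := hqs w
        rw [← map_add, hmf, hmf, hmf, ← map_add]
        congr 1
        apply Subtype.ext
        change s * ((x : S) + y) * t = s * x * t + s * y * t
        noncomm_ring
      map_smul' := by
        intro c v
        obtain ⟨x, rfl⟩ := hqs v
        rw [RingHom.id_apply, ← hqsm c (rep c) (hrep c) x, hmf, hmf,
          ← hqsm c (rep c) (hrep c), hqq]
        change s * (rep c * (x : S)) * t - rep c * (s * x * t) ∈ B
        have h2 : s * (rep c * (x : S)) * t - rep c * (s * x * t)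
            = ((s * rep c - rep c * s) * x) * t := by noncomm_ring
        rw [h2]
        exact B.mul_mem_right _ (hsq _ ((hrep c).comm W s) _ (hIJ x.2)) }
  exact ⟨I ⧸ anvN B I, inferInstance, inst, q, m, hqs, hq0, fun s t x => hmf s t x, hqsm⟩

end URingR
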