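import Pool.Agent.URingR.An2
import Pool.Agent.URingR.AnV
import Pool.Agent.URingR.AnD
import Pool.Agent.URingR.AnF
import Pool.Agent.URingR.AnO
import Pool.Agent.URingR.AnI

/-!
# R4. Module ANC
-/

namespace URingR

universe u v

variable {S : Type u} [Ring S] {M : Type v} [CommGroup M]

open Ring (jacobson)

/-- **module ANC (R4(d)).** If `J` is not contained in `B` there is a component `i` with
`comp i` not contained in `B`, `|F_i| = q₀²` and `x c = c^q₀ x` on it, modulo `B`.

Proof. `comp_props` gives `i`. Apply `exists_V` to `I = comp i`, `R c = m 1 s` for a lift `s` of `c`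
(`IsSc`): by `exists_decomp` `V` is spanned by eigenvectors; an eigenvector for `σ` is `q x` with
`x ∈ eig σ`. As `V ≠ 0`, some `eig σ` is not in `B`; by `eig_invol` and `eig_id`
`σ² = 1`, `σ ≠ 1`, so `σ c = c^q₀`, `|F| = q₀²` by `exists_frob`; `q₀` does not depend on `σ`
(`q₀² = |F|`). So every `x ∈ comp i` is modulo `B` a sum of elements of the ideal
`eig σ` for this one `σ`. -/
theorem exists_aniso (W : Wedd S) {B : Ideal S} [B.IsTwoSided] {ω : S → S → M}
    (hω : IsForm B ω) (hAn : An B ω) (hJ : ¬ jacobson S ≤ B) :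
    ∃ (i : Fin W.n) (q0 : ℕ) (σ : W.F i →+* W.F i), 1 < q0 ∧ Nat.card (W.F i) = q0 ^ 2 ∧
      (∀ c, σ c = c ^ q0) ∧ ¬ comp W B hω.sq i ≤ B ∧
      comp W B hω.sq i ≤ eig W B hω.sq i σ := by
  obtain ⟨-, -, p3, -⟩ := comp_props W hω hAn
  have hex : ∃ i, ¬ comp W B hω.sq i ≤ B := by
    by_contra hno
    push Not at hno
    exact hJ (p3 hno)
  obtain ⟨i, hi⟩ := hex
  obtain ⟨V, iV1, iV2, q, m, hsurj, hker, hm, hsc⟩ := exists_V W hω.sq i (comp W B hω.sq i)
    (le_comp W B hω.le hω.sq i) le_rfl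
  -- multiplication on the right by elements with the same image
  have hqr : ∀ (s s' : S) (x : comp W B hω.sq i), W.π s = W.π s' →
      m 1 s (q x) = m 1 s' (q x) := by
    intro s s' x hss
    rw [hm, hm, ← sub_eq_zero, ← map_sub, hker]
    show 1 * (x : S) * s - 1 * (x : S) * s' ∈ B
    have h1 : s - s' ∈ jacobson S := by rw [W.mem_J, map_sub, hss, sub_self]
    have h2 : 1 * (x : S) * s - 1 * (x : S) * s' = (x : S) * (s - s') := by noncomm_ring
    rw [h2]
    exact hω.sq _ x.2.1 _ h1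
  have hqr' : ∀ (s s' : S) (v : V), W.π s = W.π s' → m 1 s v = m 1 s' v := by
    intro s s' v hss
    obtain ⟨x, rfl⟩ := hsurj v
    exact hqr s s' x hss
  choose sc hscc using fun c : W.F i => W.exists_isSc i c
  have hπ : ∀ {c : W.F i} {s : S}, W.IsSc i c s → W.π s = W.π (sc c) := by
    intro c s hs
    rw [hs, hscc c]
  have hmul : ∀ (s s' : S) (v : V), m 1 (s' * s) v = m 1 s (m 1 s' v) := by
    intro s s' v
    obtain ⟨x, rfl⟩ := hsurj v
    rw [hm, hm, hm]
    congr 1
    apply Subtype.ext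
    show 1 * (x : S) * (s' * s) = 1 * (1 * (x : S) * s') * s
    noncomm_ring
  have hadd : ∀ (s s' : S) (v : V), m 1 (s + s') v = m 1 s v + m 1 s' v := by
    intro s s' v
    obtain ⟨x, rfl⟩ := hsurj v
    rw [hm, hm, hm, ← map_add]
    congr 1
    apply Subtype.ext
    show 1 * (x : S) * (s + s') = 1 * (x : S) * s + 1 * (x : S) * s'
    noncomm_ring
  have hzero : ∀ v : V, m 1 0 v = 0 := by
    intro v
    obtain ⟨x, rfl⟩ := hsurj v
    rw [hm, hker]
    show 1 * (x : S) * 0 ∈ B
    rw [mul_zero]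
    exact B.zero_mem
  have hone : ∀ v : V, m 1 (W.c i) v = v := by
    intro v
    obtain ⟨x, rfl⟩ := hsurj v
    rw [hm, ← sub_eq_zero, ← map_sub, hker]
    show 1 * (x : S) * W.c i - (x : S) ∈ B
    have h2 := x.2.2
    have h3 : ((x : S) - W.c i * x * W.c i) * W.c i ∈ B := B.mul_mem_right _ h2
    have h4 : 1 * (x : S) * W.c i - (x : S)
        = ((x : S) - W.c i * x * W.c i) * W.c i - ((x : S) - W.c i * x * W.c i) := by
      have h5 : W.c i * (x : S) * W.c i * W.c i = W.c i * x * W.c i := by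
        rw [mul_assoc _ (W.c i) (W.c i), W.c_mul_self]
      rw [sub_mul, h5]; noncomm_ring
    rw [h4]
    exact B.sub_mem h3 h2
  let R : W.F i →+* Module.End (W.F i) V :=
    { toFun := fun c => m 1 (sc c)
      map_one' := by
        ext v
        show m 1 (sc 1) v = v
        rw [← hqr' _ _ v (hπ (W.isSc_c i)), hone]
      map_mul' := by
        intro a b
        ext v
        show m 1 (sc (a * b)) v = m 1 (sc a) (m 1 (sc b) v)
        rw [← hmul]
        refine (hqr' _ _ v (hπ ?_)).symm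
        rw [mul_comm a b]
        exact (hscc b).mul W (hscc a)
      map_zero' := by
        ext v
        show m 1 (sc 0) v = 0
        rw [← hzero v]
        refine (hqr' _ _ v (hπ ?_)).symm
        show W.π 0 = Pi.single i ((0 : W.F i) • 1)
        rw [map_zero, zero_smul, Pi.single_zero]
      map_add' := by
        intro a b
        ext v
        show m 1 (sc (a + b)) v = m 1 (sc a) v + m 1 (sc b) v
        rw [← hadd]
        exact (hqr' _ _ v (hπ ((hscc a).add W (hscc b)))).symm }
  have hR : ∀ (c : W.F i) (v : V), R c v = m 1 (sc c) v := fun _ _ => rfl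
  -- eigenvectors come from `eig σ`
  have heig : ∀ (σ : W.F i →+* W.F i) (x : comp W B hω.sq i),
      (∀ c, R c (q x) = σ c • q x) → (x : S) ∈ eig W B hω.sq i σ := by
    intro σ x hx
    refine mem_eig.2 ⟨x.2, fun c s s' hs hs' => ?_⟩
    have h1 := hx c
    rw [hR, ← hqr' _ _ _ (hπ hs), hm, ← hsc (σ c) s' hs' x, ← sub_eq_zero, ← map_sub, hker] at h1
    have h2 : (1 * (x : S) * s) - s' * (x : S) ∈ B := h1
    rwa [one_mul] at h2
  -- a nonzero eigenvector
  have hfrob : ∀ σ : W.F i →+* W.F i, ¬ eig W B hω.sq i σ ≤ B →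
      ∃ q0 : ℕ, 1 < q0 ∧ Nat.card (W.F i) = q0 ^ 2 ∧ ∀ c, σ c = c ^ q0 := by
    intro σ hσ
    refine exists_frob σ ?_ (fun c => eig_invol W hω hAn i σ hσ c)
    by_contra hno
    push Not at hno
    have : σ = RingHom.id (W.F i) := RingHom.ext hno
    rw [this] at hσ
    exact hσ (eig_id W hω hAn i)
  have hexσ : ∃ σ : W.F i →+* W.F i, ¬ eig W B hω.sq i σ ≤ B := by
    by_contra hno
    push Not at hno
    apply hi
    intro x hx
    have h1 := exists_decomp R (q ⟨x, hx⟩)
    have h2 : {w : V | ∃ σ : W.F i →+* W.F i, ∀ c : W.F i, R c w = σ c • w} ⊆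
        ((⊥ : Submodule (W.F i) V) : Set V) := by
      rintro w ⟨σ, hw⟩
      obtain ⟨y, rfl⟩ := hsurj w
      have h3 := hno σ (heig σ y hw)
      exact (Submodule.mem_bot _).2 ((hker y).2 h3)
    have h4 := Submodule.span_le.2 h2 h1
    rw [Submodule.mem_bot] at h4
    exact (hker ⟨x, hx⟩).1 h4
  obtain ⟨σ₀, hσ₀⟩ := hexσ
  obtain ⟨q0, hq1, hq2, hq3⟩ := hfrob σ₀ hσ₀
  refine ⟨i, q0, σ₀, hq1, hq2, hq3, hi, ?_⟩
  intro x hx
  have key : ∀ v : V, ∀ y : comp W B hω.sq i, q y = v → (y : S) ∈ eig W B hω.sq i σ₀ := by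
    intro v
    have hv := exists_decomp R v
    induction hv using Submodule.span_induction with
    | mem w hw =>
      obtain ⟨σ, hw⟩ := hw
      intro y hy
      subst hy
      have h1 := heig σ y hw
      by_cases hyB : (y : S) ∈ B
      · exact le_eig W B hω.le hω.sq i σ₀ hyB
      · obtain ⟨q1, -, hc1, hc2⟩ := hfrob σ (fun hle => hyB (hle h1))
        have hqq : q1 = q0 := by
          rw [hq2] at hc1
          exact (Nat.pow_left_injective (n := 2) (by norm_num) hc1).symm
        have : σ = σ₀ := RingHom.ext fun c => by rw [hc2, hq3, hqq]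
        rwa [this] at h1
    | zero =>
      intro y hy
      exact le_eig W B hω.le hω.sq i σ₀ ((hker y).1 hy)
    | add v w _ _ hv hw =>
      intro y hy
      obtain ⟨a, ha⟩ := hsurj v
      obtain ⟨b, hb⟩ := hsurj w
      have h1 : q (y - (a + b)) = 0 := by rw [map_sub, map_add, ha, hb, hy, sub_self]
      have h2 := (hker _).1 h1
      have h3 : (y : S) = ((y - (a + b) : comp W B hω.sq i) : S) + ((a : S) + (b : S)) := by
        simp
      rw [h3]
      exact add_mem (le_eig W B hω.le hω.sq i σ₀ h2) (add_mem (hv a ha) (hw b hb))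
    | smul c v _ hv =>
      intro y hy
      obtain ⟨a, ha⟩ := hsurj v
      have h0 := hsc c (sc c) (hscc c) a
      have h1 : q (y - ⟨sc c * a, Ideal.mul_mem_left _ _ a.2⟩) = 0 := by
        rw [map_sub, h0, hy, ha, sub_self]
      have h2 := (hker _).1 h1
      have h3 : (y : S) = ((y - ⟨sc c * a, Ideal.mul_mem_left _ _ a.2⟩ :
          comp W B hω.sq i) : S) + sc c * (a : S) := by
        simp
      rw [h3]
      exact add_mem (le_eig W B hω.le hω.sq i σ₀ h2) (Ideal.mul_mem_left _ _ (hv a ha))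
  exact key _ ⟨x, hx⟩ rfl

end URingR
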