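import Pool.Agent.URingR.Corner
import Pool.Agent.URingR.WeddA

/-!
# R3(c). Module EXA
-/

namespace URingR

universe u v

variable {S : Type u} [Ring S] {M : Type v} [CommGroup M]

open Ring (jacobson)

private theorem exa_nil [Finite S] {x : S} (hx : x ∈ jacobson S) : ∃ r : ℕ, 0 < r ∧ x ^ r = 0 := by
  obtain ⟨n, hn⟩ := IsArtinianRing.isNilpotent_jacobson_bot (R := S)
  rw [Ideal.jacobson_bot] at hn
  refine ⟨n + 1, Nat.succ_pos n, ?_⟩
  have h := Ideal.pow_mem_pow hx n
  rw [hn] at h
  have h2 : x ^ n = 0 := by simpa using h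
  rw [pow_succ, h2, zero_mul]

/-- the additive group of the `x ∈ J` with `e x = x = x e` -/
private def exaA (e : S) : AddSubgroup S where
  carrier := {x | x ∈ jacobson S ∧ e * x = x ∧ x * e = x}
  add_mem' := by
    rintro a b ⟨ha, ha1, ha2⟩ ⟨hb, hb1, hb2⟩
    exact ⟨add_mem ha hb, by rw [mul_add, ha1, hb1], by rw [add_mul, ha2, hb2]⟩
  zero_mem' := ⟨zero_mem _, by rw [mul_zero], by rw [zero_mul]⟩
  neg_mem' := by
    rintro a ⟨ha, ha1, ha2⟩
    exact ⟨neg_mem ha, by rw [mul_neg, ha1], by rw [neg_mul, ha2]⟩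

private theorem exa_mem {e : S} {u : Sˣ} :
    u ∈ cg e ↔ e * ((u : S) - 1) = (u : S) - 1 ∧ ((u : S) - 1) * e = (u : S) - 1 := by
  rw [mem_cg]
  constructor
  · rintro ⟨h1, h2⟩
    refine ⟨?_, ?_⟩
    · have h3 : (u : S) - e * (u : S) = 1 - e := by rw [← h1]; noncomm_ring
      have h4 : e * (u : S) = (u : S) - (1 - e) := by rw [← h3]; abel
      rw [mul_sub, mul_one, h4]; abel
    · have h3 : (u : S) - (u : S) * e = 1 - e := by rw [← h2]; noncomm_ring
      have h4 : (u : S) * e = (u : S) - (1 - e) := by rw [← h3]; abel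
      rw [sub_mul, one_mul, h4]; abel
  · rintro ⟨h1, h2⟩
    refine ⟨?_, ?_⟩
    · have h3 : (1 - e) * ((u : S) - 1) = 0 := by rw [sub_mul, h1, one_mul, sub_self]
      rw [mul_sub, mul_one, sub_eq_zero] at h3
      exact h3
    · have h3 : ((u : S) - 1) * (1 - e) = 0 := by rw [mul_sub, h2, mul_one, sub_self]
      rw [sub_mul, one_mul, sub_eq_zero] at h3
      exact h3

/-- **module EXA.** Let `e` be an idempotent with image in the component `i` of `S / J`, `p` the
characteristic of `F_i`. Then `G_e ∩ (1 + J)` has exponent dividing a power of `p`.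

Proof. `π(p e) = 0`, so `p e ∈ J`, which is nilpotent (`IsArtinianRing.isNilpotent_jacobson_bot`,
`Ideal.jacobson_bot`), so `p^r e = (p e)^r = 0` and `p^r x = 0` for `x ∈ e S e`.
`u ↦ u - 1` is a bijection from `G_e ∩ (1 + J)` (a subgroup) to the additive group
`{x ∈ J : e x = x = x e}` (every `1 + x`, `x ∈ J`, is a unit, `exists_oneAdd`), which is killed by
`p^r`, so its cardinality is a power of `p` (`IsPGroup`/ `Sylow`-free: a finite additive group with
exponent a power of `p`: `IsPGroup.iff_card` for `Multiplicative`), then `pow_card_eq_one'`. -/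
theorem exists_ppow [Finite S] (W : Wedd S) (i : Fin W.n) {e : S} (he : e * e = e)
    (hei : ∀ j, j ≠ i → W.π e j = 0) (p : ℕ) [Fact p.Prime] [CharP (W.F i) p] :
    ∃ m : ℕ, ∀ u : Sˣ, u ∈ cg e → u ∈ oneAdd (jacobson S) → u ^ (p ^ m) = 1 := by
  classical
  -- `p e` is in the radical
  have hpe : (p : S) * e ∈ jacobson S := by
    rw [W.mem_J, map_mul, map_natCast]
    funext j
    by_cases hj : j = i
    · subst hj
      rw [Pi.mul_apply, Pi.natCast_apply, Pi.zero_apply, ← nsmul_eq_mul]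
      ext a b
      rw [Matrix.smul_apply, Matrix.zero_apply, nsmul_eq_mul, CharP.cast_eq_zero, zero_mul]
    · rw [Pi.mul_apply, hei j hj, mul_zero, Pi.zero_apply]
  obtain ⟨r, hr0, hr⟩ := exa_nil hpe
  have hepow : e ^ r = e := by
    have : ∀ n : ℕ, e ^ (n + 1) = e := by
      intro n
      induction n with
      | zero => rw [zero_add, pow_one]
      | succ n ih => rw [pow_succ, ih, he]
    obtain ⟨r', rfl⟩ : ∃ r', r = r' + 1 := ⟨r - 1, by omega⟩
    exact this r'
  have hpr : ((p ^ r : ℕ) : S) * e = 0 := by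
    rw [(Nat.cast_commute p e).mul_pow, hepow] at hr
    rw [Nat.cast_pow]
    exact hr
  have hA : ∀ x ∈ exaA e, (p ^ r) • x = 0 := by
    rintro x ⟨_, hx, _⟩
    rw [nsmul_eq_mul, ← hx, ← mul_assoc, hpr, zero_mul]
  have hPA : IsPGroup p (Multiplicative (exaA e)) := by
    intro g
    refine ⟨r, ?_⟩
    apply Multiplicative.toAdd.injective
    rw [toAdd_pow, toAdd_one]
    apply Subtype.ext
    exact hA _ (Multiplicative.toAdd g).2
  obtain ⟨m, hm⟩ := IsPGroup.iff_card.1 hPA
  refine ⟨m, ?_⟩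
  -- the group and the bijection
  let H : Subgroup Sˣ := cg e ⊓ oneAdd (jacobson S)
  have hcard : Nat.card H = Nat.card (Multiplicative (exaA e)) := by
    refine Nat.card_congr (Equiv.ofBijective
      (fun u : H => Multiplicative.ofAdd (⟨((u : Sˣ) : S) - 1, u.2.2,
        (exa_mem.1 u.2.1).1, (exa_mem.1 u.2.1).2⟩ : exaA e)) ⟨?_, ?_⟩)
    · intro u w huw
      have h1 : ((u : Sˣ) : S) - 1 = ((w : Sˣ) : S) - 1 :=
        congrArg (fun z : Multiplicative (exaA e) => ((Multiplicative.toAdd z : exaA e) : S)) huw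
      apply Subtype.ext
      apply Units.ext
      exact sub_left_inj.1 h1
    · intro x
      obtain ⟨w, hw⟩ := exists_oneAdd (le_refl (jacobson S)) (Multiplicative.toAdd x).2.1
      have hw1 : ((w : Sˣ) : S) - 1 = ((Multiplicative.toAdd x : exaA e) : S) := by
        rw [hw, add_sub_cancel_left]
      refine ⟨⟨w, exa_mem.2 ?_, w.2⟩, ?_⟩
      · rw [hw1]
        exact (Multiplicative.toAdd x).2.2
      · apply Multiplicative.toAdd.injective
        apply Subtype.ext
        exact hw1
  intro u hu hJ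
  have h1 : (⟨u, hu, hJ⟩ : H) ^ Nat.card H = 1 := pow_card_eq_one'
  rw [hcard, hm] at h1
  exact congrArg (fun z : H => (z : Sˣ)) h1

end URingR
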