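import Pool.Agent.URingR.WDef
import Pool.Agent.URingR.Exa

/-!
# R4(e). Module ZA
-/

namespace URingR

universe u v

variable {S : Type u} [Ring S] {M : Type v} [CommGroup M]

open Ring (jacobson)

private theorem za_unit {a b : S} (h1 : a * b - 1 ∈ jacobson S) (h2 : b * a - 1 ∈ jacobson S) :
    IsUnit a := by
  obtain ⟨u, hu⟩ := exists_oneAdd (le_refl (jacobson S)) h1
  obtain ⟨w, hw⟩ := exists_oneAdd (le_refl (jacobson S)) h2
  have hu1 : ((u : Sˣ) : S) = a * b := by rw [hu]; abel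
  have hw1 : ((w : Sˣ) : S) = b * a := by rw [hw]; abel
  have hr : a * (b * (((u : Sˣ)⁻¹ : Sˣ) : S)) = 1 := by
    rw [← mul_assoc, ← hu1, Units.mul_inv]
  have hl : ((((w : Sˣ)⁻¹ : Sˣ) : S) * b) * a = 1 := by
    rw [mul_assoc, ← hw1, Units.inv_mul]
  have he : (((w : Sˣ)⁻¹ : Sˣ) : S) * b = b * (((u : Sˣ)⁻¹ : Sˣ) : S) :=
    left_inv_eq_right_inv hl hr
  exact ⟨⟨a, b * (((u : Sˣ)⁻¹ : Sˣ) : S), hr, by rw [← he]; exact hl⟩, rfl⟩

/-- **module ZA.** A unit `z ∈ G_(c_i)` of order dividing `|F_i| - 1` acting as the scalar `ζ`.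

Proof. `Q = |F_i|`. Take `y ∈ S` with `π y = Pi.single i (ζ • 1)` and `y₁ = c_i y c_i + (1 - c_i)`;
its image is a unit, so `y₁` is a unit of `S` (`ker π = J`, `exists_oneAdd`: a left and a right
inverse modulo `J`), `y₁ ∈ cg (c_i)`, and `y₁^(Q-1) ∈ 1 + J`, in `cg (c_i)`. This element has
order a power of `p` (as in `exists_ppow`; proved again here or: the group `cg e ∩ (1 + J)` is
finite, `x ↦ p x` is nilpotent on `c_i S c_i`), hence `y₁^((Q-1) Q^k) = 1` for large `k`;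
`z = y₁^(Q^k)`, `π z i = ζ^(Q^k) • 1 = ζ • 1` (`FiniteField.pow_card`). -/
theorem exists_z [Finite S] (W : Wedd S) (i : Fin W.n) (ζ : W.F i) (hζ : ζ ≠ 0) :
    ∃ z : Sˣ, z ∈ cg (W.c i) ∧ W.π (z : S) i = ζ • 1 ∧ z ^ (Nat.card (W.F i) - 1) = 1 := by
  classical
  have hF : Fintype (W.F i) := Fintype.ofFinite _
  obtain ⟨p, hp⟩ := CharP.exists (W.F i)
  obtain ⟨f, hpp, hcard⟩ := FiniteField.card (W.F i) p
  have hfp : Fact p.Prime := ⟨hpp⟩
  have hcard' : Nat.card (W.F i) = p ^ (f : ℕ) := by rw [Nat.card_eq_fintype_card, hcard]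
  -- the elements `e y e + (1 - e)`
  have hel : ∀ η : W.F i, ∃ y : S, (∀ j, j ≠ i → W.π y j = 1) ∧ W.π y i = η • 1 ∧
      (1 - W.c i) * y = 1 - W.c i ∧ y * (1 - W.c i) = 1 - W.c i := by
    intro η
    obtain ⟨x, hx⟩ := W.exists_isSc i η
    have hx' : W.π x = Pi.single i (η • 1) := hx
    have hff : (1 - W.c i) * (1 - W.c i) = 1 - W.c i := by
      have := W.c_mul_self i
      rw [sub_mul, one_mul, mul_sub, mul_one, this, sub_self, sub_zero]
    have hfe : (1 - W.c i) * W.c i = 0 := by rw [sub_mul, one_mul, W.c_mul_self, sub_self]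
    have hef : W.c i * (1 - W.c i) = 0 := by rw [mul_sub, mul_one, W.c_mul_self, sub_self]
    refine ⟨W.c i * x * W.c i + (1 - W.c i), ?_, ?_, ?_, ?_⟩
    · intro j hj
      rw [map_add, map_mul, map_mul, map_sub, map_one, W.π_c, hx']
      simp [hj]
    · rw [map_add, map_mul, map_mul, map_sub, map_one, W.π_c, hx']
      simp
    · rw [mul_add, hff, mul_assoc, ← mul_assoc (1 - W.c i), hfe, zero_mul, zero_add]
    · rw [add_mul, hff, mul_assoc (W.c i * x), hef, mul_zero, zero_add]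
  obtain ⟨y, hy1, hy2, hy3, hy4⟩ := hel ζ
  obtain ⟨y', hy1', hy2', -, -⟩ := hel ζ⁻¹
  have hmul : ∀ a b : S, ∀ α β : W.F i, α * β = 1 → (∀ j, j ≠ i → W.π a j = 1) →
      W.π a i = α • 1 → (∀ j, j ≠ i → W.π b j = 1) → W.π b i = β • 1 →
      a * b - 1 ∈ jacobson S := by
    intro a b α β hαβ h1 h2 h3 h4
    rw [W.mem_J, map_sub, map_mul, map_one, sub_eq_zero]
    funext j
    rw [Pi.mul_apply, Pi.one_apply]
    by_cases hj : j = i
    · subst hj
      rw [h2, h4, smul_mul_smul_comm, mul_one, hαβ, one_smul]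
    · rw [h1 j hj, h3 j hj, mul_one]
  obtain ⟨u, hu⟩ := za_unit (hmul y y' ζ ζ⁻¹ (mul_inv_cancel₀ hζ) hy1 hy2 hy1' hy2')
    (hmul y' y ζ⁻¹ ζ (inv_mul_cancel₀ hζ) hy1' hy2' hy1 hy2)
  have hucg : u ∈ cg (W.c i) := by
    rw [mem_cg, hu]
    exact ⟨hy3, hy4⟩
  have hpow1 : ∀ n : ℕ, W.π ((u ^ n : Sˣ) : S) i = ζ ^ n • 1 := by
    intro n
    rw [Units.val_pow_eq_pow_val, map_pow, hu, Pi.pow_apply, hy2, smul_pow, one_pow]
  have hpow2 : ∀ (n : ℕ) (j : Fin W.n), j ≠ i → W.π ((u ^ n : Sˣ) : S) j = 1 := by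
    intro n j hj
    rw [Units.val_pow_eq_pow_val, map_pow, hu, Pi.pow_apply, hy1 j hj, one_pow]
  obtain ⟨m, hm⟩ := exists_ppow W i (W.c_mul_self i) (fun j hj => by
    rw [W.π_c, Pi.single_eq_of_ne hj]) p
  have hQ1 : ζ ^ (Nat.card (W.F i) - 1) = 1 := by
    rw [Nat.card_eq_fintype_card]
    exact FiniteField.pow_card_sub_one_eq_one ζ hζ
  have hJ : u ^ (Nat.card (W.F i) - 1) ∈ oneAdd (jacobson S) := by
    rw [mem_oneAdd, W.mem_J, map_sub, map_one, sub_eq_zero]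
    funext j
    rw [Pi.one_apply]
    by_cases hj : j = i
    · subst hj
      rw [hpow1, hQ1, one_smul]
    · exact hpow2 _ j hj
  have h1 := hm _ (Subgroup.pow_mem _ hucg _) hJ
  refine ⟨u ^ (Nat.card (W.F i) ^ m), Subgroup.pow_mem _ hucg _, ?_, ?_⟩
  · rw [hpow1]
    congr 1
    rw [Nat.card_eq_fintype_card]
    exact FiniteField.pow_card_pow m ζ
  · have h2 : p ^ m ∣ Nat.card (W.F i) ^ m := by
      rw [hcard', ← pow_mul]
      exact pow_dvd_pow p (Nat.le_mul_of_pos_left m f.pos)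
    obtain ⟨c, hc⟩ := h2
    rw [← pow_mul, mul_comm, pow_mul, hc, pow_mul, h1, one_pow]

end URingR
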