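import Pool.Agent.URingR.WDef

/-!
# R4(e). Module ZB
-/

namespace URingR

universe u v

variable {S : Type u} [Ring S] {M : Type v} [CommGroup M]

open Ring (jacobson)

private theorem zb_nil [Finite S] {x : S} (hx : x ∈ jacobson S) : ∃ r : ℕ, 0 < r ∧ x ^ r = 0 := by
  obtain ⟨n, hn⟩ := IsArtinianRing.isNilpotent_jacobson_bot (R := S)
  rw [Ideal.jacobson_bot] at hn
  refine ⟨n + 1, Nat.succ_pos n, ?_⟩
  have h := Ideal.pow_mem_pow hx n
  rw [hn] at h
  have h2 : x ^ n = 0 := by simpa using h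
  rw [pow_succ, h2, zero_mul]

/-- an integer `r` with `r (Q - 1) e = e` -/
private theorem zb_int [Finite S] (W : Wedd S) (i : Fin W.n) :
    ∃ r : ℤ, ∀ x : S, W.c i * x = x → (r * ((Nat.card (W.F i) - 1 : ℕ) : ℤ)) • x = x := by
  classical
  have hF : Fintype (W.F i) := Fintype.ofFinite _
  obtain ⟨p, hp⟩ := CharP.exists (W.F i)
  obtain ⟨f, hpp, hcard⟩ := FiniteField.card (W.F i) p
  have hcard' : Nat.card (W.F i) = p ^ (f : ℕ) := by rw [Nat.card_eq_fintype_card, hcard]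
  have hpe : (p : S) * W.c i ∈ jacobson S := by
    rw [W.mem_J, map_mul, map_natCast]
    funext j
    by_cases hj : j = i
    · subst hj
      rw [Pi.mul_apply, Pi.natCast_apply, Pi.zero_apply, ← nsmul_eq_mul]
      ext a b
      rw [Matrix.smul_apply, Matrix.zero_apply, nsmul_eq_mul, CharP.cast_eq_zero, zero_mul]
    · rw [Pi.mul_apply, W.π_c, Pi.single_eq_of_ne hj, mul_zero, Pi.zero_apply]
  obtain ⟨m, hm0, hm⟩ := zb_nil hpe
  have hepow : W.c i ^ m = W.c i := by
    have : ∀ n : ℕ, W.c i ^ (n + 1) = W.c i := by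
      intro n
      induction n with
      | zero => rw [zero_add, pow_one]
      | succ n ih => rw [pow_succ, ih, W.c_mul_self]
    obtain ⟨r', rfl⟩ : ∃ r', m = r' + 1 := ⟨m - 1, by omega⟩
    exact this r'
  have hpr : ((p ^ m : ℕ) : S) * W.c i = 0 := by
    rw [(Nat.cast_commute p (W.c i)).mul_pow, hepow] at hm
    rw [Nat.cast_pow]
    exact hm
  have hcop : Nat.Coprime (Nat.card (W.F i) - 1) (p ^ m) := by
    apply Nat.Coprime.pow_right
    rw [Nat.coprime_comm, Nat.Prime.coprime_iff_not_dvd hpp]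
    intro hd
    have h1 : p ∣ Nat.card (W.F i) := by
      rw [hcard']
      exact dvd_pow_self p f.pos.ne'
    have hpos : 1 ≤ Nat.card (W.F i) := Nat.card_pos
    have h2 : p ∣ 1 := by
      have h3 := Nat.dvd_sub h1 hd
      rwa [Nat.sub_sub_self hpos] at h3
    exact hpp.one_lt.ne' (Nat.dvd_one.1 h2)
  obtain ⟨r, t, hrt⟩ := Nat.isCoprime_iff_coprime.2 hcop
  refine ⟨r, fun x hx => ?_⟩
  have h1 : ((p ^ m : ℕ) : ℤ) • x = 0 := by
    rw [natCast_zsmul, nsmul_eq_mul, ← hx, ← mul_assoc, hpr, zero_mul]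
  have h2 : (r * ((Nat.card (W.F i) - 1 : ℕ) : ℤ) + t * ((p ^ m : ℕ) : ℤ)) • x = x := by
    rw [hrt, one_smul]
  rw [add_smul, mul_smul t, h1, smul_zero, add_zero] at h2
  exact h2

/-- **module ZB.** `S = C_S(z) + comp i` for such a `z`.

Proof. `e = c_i`, `f = 1 - e`. `s = ese + esf + fse + fsf`. `π(esf) = 0` (`W.π_c_comm`,
`c_mul_self`), so `esf ∈ J`, and `esf = e (esf) f ∈ B` by `hB`; same for `fse`. `z f = f = f z`
because `z ∈ cg e`, so `fsf` commutes with `z`. `t = r • ∑ k < Q-1, z^k (ese) z^(-k)` with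
`r (Q-1) ≡ 1` modulo a power of `p` killing `eSe` (`p • e ∈ J` is nilpotent) commutes with `z`
(`z^(Q-1) = 1`), and `ese - t = r • ∑ (ese - z^k ese z^(-k))` is in `J` (the image of `z` is
central in the component `i`) and of the form `e x e`, so in `comp i`. -/
theorem exists_centralizer_add [Finite S] (W : Wedd S) (i : Fin W.n) {B : Ideal S}
    [B.IsTwoSided] (hsq : ∀ x ∈ jacobson S, ∀ y ∈ jacobson S, x * y ∈ B)
    (hB : ∀ x ∈ jacobson S, W.c i * x * (1 - W.c i) ∈ B ∧ (1 - W.c i) * x * W.c i ∈ B)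
    (hBJ : B ≤ jacobson S) (ζ : W.F i)
    (z : Sˣ) (hz : z ∈ cg (W.c i)) (hπ : W.π (z : S) i = ζ • 1)
    (hz1 : z ^ (Nat.card (W.F i) - 1) = 1) (s : S) :
    ∃ t ∈ Subring.centralizer {(z : S)}, s - t ∈ comp W B hsq i := by
  classical
  obtain ⟨r, hr⟩ := zb_int W i
  obtain ⟨e, he⟩ : ∃ e, e = W.c i := ⟨_, rfl⟩
  obtain ⟨N, hN⟩ : ∃ N, N = Nat.card (W.F i) - 1 := ⟨_, rfl⟩
  have hee : e * e = e := by rw [he]; exact W.c_mul_self i
  have hff : (1 - e) * (1 - e) = 1 - e := by rw [sub_mul, one_mul, mul_sub, mul_one, hee, sub_self,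
    sub_zero]
  have hfe : (1 - e) * e = 0 := by rw [sub_mul, one_mul, hee, sub_self]
  have hef : e * (1 - e) = 0 := by rw [mul_sub, mul_one, hee, sub_self]
  have hz' := mem_cg.1 hz
  rw [← he] at hz'
  obtain ⟨hz2, hz3⟩ := hz'
  rw [← he] at hB hr
  -- `z` commutes with `e`
  have hze : (z : S) * e = e * (z : S) := by
    have h1 : (z : S) - (z : S) * e = (z : S) - e * (z : S) := by
      have h2 : (z : S) * (1 - e) = (1 - e) * (z : S) := by rw [hz2, hz3]
      rw [mul_sub, mul_one, sub_mul, one_mul] at h2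
      exact h2
    exact sub_right_inj.1 h1
  have hzk : ∀ k : ℕ, ((z ^ k : Sˣ) : S) * e = e * ((z ^ k : Sˣ) : S) := by
    intro k
    rw [Units.val_pow_eq_pow_val]
    exact (Commute.pow_left (show Commute (z : S) e from hze) k).eq
  have hzk' : ∀ k : ℕ, (((z ^ k)⁻¹ : Sˣ) : S) * e = e * (((z ^ k)⁻¹ : Sˣ) : S) := by
    intro k
    have h1 := hzk k
    calc (((z ^ k)⁻¹ : Sˣ) : S) * e
        = (((z ^ k)⁻¹ : Sˣ) : S) * (e * ((z ^ k : Sˣ) : S)) * (((z ^ k)⁻¹ : Sˣ) : S) := by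
          rw [mul_assoc, mul_assoc, Units.mul_inv, mul_one]
      _ = (((z ^ k)⁻¹ : Sˣ) : S) * (((z ^ k : Sˣ) : S) * e) * (((z ^ k)⁻¹ : Sˣ) : S) := by
          rw [h1]
      _ = e * (((z ^ k)⁻¹ : Sˣ) : S) := by rw [← mul_assoc, Units.inv_mul, one_mul]
  obtain ⟨A, hA⟩ : ∃ A, A = e * s * e := ⟨_, rfl⟩
  have heA : e * A = A := by rw [hA, ← mul_assoc, ← mul_assoc, hee]
  have hAe : A * e = A := by rw [hA, mul_assoc, hee]
  let F : ℕ → S := fun k => ((z ^ k : Sˣ) : S) * A * (((z ^ k)⁻¹ : Sˣ) : S)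
  have hF0 : F 0 = A := by simp [F]
  have hFN : F N = A := by
    show ((z ^ N : Sˣ) : S) * A * (((z ^ N)⁻¹ : Sˣ) : S) = A
    rw [hN, hz1]
    simp
  have hFz : ∀ k, (z : S) * F k = F (k + 1) * (z : S) := by
    intro k
    show (z : S) * (((z ^ k : Sˣ) : S) * A * (((z ^ k)⁻¹ : Sˣ) : S)) =
      ((z ^ (k + 1) : Sˣ) : S) * A * (((z ^ (k + 1))⁻¹ : Sˣ) : S) * (z : S)
    have h1 : ((z ^ (k + 1) : Sˣ) : S) = (z : S) * ((z ^ k : Sˣ) : S) := by
      rw [pow_succ', Units.val_mul]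
    have h2 : (((z ^ (k + 1))⁻¹ : Sˣ) : S) * (z : S) = (((z ^ k)⁻¹ : Sˣ) : S) := by
      rw [pow_succ', mul_inv_rev, Units.val_mul, mul_assoc, Units.inv_mul, mul_one]
    rw [mul_assoc _ _ (z : S), h2, h1]
    simp only [mul_assoc]
  have hsum : (z : S) * ∑ k ∈ Finset.range N, F k = (∑ k ∈ Finset.range N, F k) * (z : S) := by
    rw [Finset.mul_sum, Finset.sum_congr rfl (fun k _ => hFz k), ← Finset.sum_mul]
    congr 1
    have h1 := Finset.sum_range_succ F N
    have h2 := Finset.sum_range_succ' F N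
    rw [hFN] at h1
    rw [hF0] at h2
    rw [h1] at h2
    exact (add_right_cancel h2).symm
  have heF : ∀ k, e * F k = F k ∧ F k * e = F k := by
    intro k
    refine ⟨?_, ?_⟩
    · show e * (((z ^ k : Sˣ) : S) * A * (((z ^ k)⁻¹ : Sˣ) : S)) = _
      rw [← mul_assoc, ← mul_assoc, ← hzk, mul_assoc _ e A, heA]
    · show ((z ^ k : Sˣ) : S) * A * (((z ^ k)⁻¹ : Sˣ) : S) * e = _
      rw [mul_assoc, hzk', ← mul_assoc, mul_assoc _ A e, hAe]
  -- `π (F k) = π A`
  have hπe : ∀ j, j ≠ i → W.π e j = 0 := by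
    intro j hj
    rw [he, W.π_c, Pi.single_eq_of_ne hj]
  have hπF : ∀ k, W.π (F k) = W.π A := by
    intro k
    funext j
    by_cases hj : j = i
    · subst hj
      show W.π (((z ^ k : Sˣ) : S) * A * (((z ^ k)⁻¹ : Sˣ) : S)) j = W.π A j
      have h1 : W.π ((z ^ k : Sˣ) : S) j = ζ ^ k • 1 := by
        rw [Units.val_pow_eq_pow_val, map_pow, Pi.pow_apply, hπ, smul_pow, one_pow]
      have h2 : W.π ((z ^ k : Sˣ) : S) j * W.π (((z ^ k)⁻¹ : Sˣ) : S) j = 1 := by
        rw [← Pi.mul_apply, ← map_mul, Units.mul_inv, map_one, Pi.one_apply]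
      have h3 : W.π ((z ^ k : Sˣ) : S) j * W.π A j = W.π A j * W.π ((z ^ k : Sˣ) : S) j := by
        rw [h1]
        simp
      rw [map_mul, map_mul, Pi.mul_apply, Pi.mul_apply, h3, mul_assoc, h2, mul_one]
    · have h1 : W.π (F k) j = 0 := by
        have h2 := congrFun (congrArg W.π (heF k).1) j
        rw [map_mul, Pi.mul_apply, hπe j hj, zero_mul] at h2
        exact h2.symm
      have h3 : W.π A j = 0 := by
        have h2 := congrFun (congrArg W.π heA) j
        rw [map_mul, Pi.mul_apply, hπe j hj, zero_mul] at h2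
        exact h2.symm
      rw [h1, h3]
  -- the element
  refine ⟨(1 - e) * s * (1 - e) + r • ∑ k ∈ Finset.range N, F k, ?_, ?_⟩
  · rw [Subring.mem_centralizer_iff]
    intro g hg
    rw [Set.mem_singleton_iff] at hg
    subst hg
    rw [mul_add, add_mul]
    congr 1
    · rw [← mul_assoc, ← mul_assoc, hz3, mul_assoc ((1 - e) * s), hz2]
    · rw [mul_smul_comm, hsum, smul_mul_assoc]
  · have hdec : s - ((1 - e) * s * (1 - e) + r • ∑ k ∈ Finset.range N, F k) =
        (A - r • ∑ k ∈ Finset.range N, F k) + (e * s * (1 - e) + (1 - e) * s * e) := by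
      rw [hA]
      noncomm_ring
    rw [hdec]
    refine add_mem ?_ (le_comp W B hBJ hsq i (add_mem ?_ ?_))
    · have h1 : A - r • ∑ k ∈ Finset.range N, F k = r • ∑ k ∈ Finset.range N, (A - F k) := by
        rw [Finset.sum_sub_distrib, Finset.sum_const, Finset.card_range, smul_sub]
        congr 1
        have h2 := hr A heA
        rw [mul_smul, natCast_zsmul, ← hN] at h2
        exact h2.symm
      rw [h1]
      refine zsmul_mem (sum_mem fun k _ => ?_) r
      rw [mem_comp]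
      refine ⟨?_, ?_⟩
      · rw [W.mem_J, map_sub, hπF, sub_self]
      · rw [← he]
        have h3 : e * (A - F k) * e = A - F k := by
          rw [mul_sub, heA, (heF k).1, sub_mul, hAe, (heF k).2]
        rw [h3, sub_self]
        exact B.zero_mem
    · have hJ : e * s * (1 - e) ∈ jacobson S := by
        rw [W.mem_J, map_mul, map_mul, he, ← W.π_c_comm, mul_assoc, ← map_mul, ← he, hef, map_zero,
          mul_zero]
      have h1 := (hB _ hJ).1
      have h2 : e * (e * s * (1 - e)) * (1 - e) = e * s * (1 - e) := by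
        rw [← mul_assoc, ← mul_assoc, hee, mul_assoc (e * s), hff]
      rwa [h2] at h1
    · have hJ : (1 - e) * s * e ∈ jacobson S := by
        rw [W.mem_J, mul_assoc, map_mul, map_mul, he, W.π_c_comm, ← mul_assoc, ← map_mul, ← he, hfe,
          map_zero, zero_mul]
      have h1 := (hB _ hJ).2
      have h2 : (1 - e) * ((1 - e) * s * e) * e = (1 - e) * s * e := by
        rw [← mul_assoc, ← mul_assoc, hff, mul_assoc _ e e, hee]
      rwa [h2] at h1

end URingR
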