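import Pool.Agent.URingR.WDef

/-!
# R4(e). Module ZC
-/

namespace URingR

universe u v

variable {S : Type u} [Ring S] {M : Type v} [CommGroup M]

open Ring (jacobson)

/-- **module ZC.** Units: if `S = T + I` for a subring `T` and a two-sided ideal `I ≤ J`, then
`Sˣ = (1 + I) Tˣ`.

Proof. `u = t + j`, `t = u - j` is a unit of `S` (`u (1 - u⁻¹ j)`), its inverse is a power of `t`
(`S` finite), so `t` is a unit of `T`; `u = (1 + j t⁻¹) t`. -/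
theorem exists_unit_decomp [Finite S] (T : Subring S) (I : Ideal S) [I.IsTwoSided]
    (hI : I ≤ jacobson S) (h : ∀ s : S, ∃ t ∈ T, s - t ∈ I) (u : Sˣ) :
    ∃ n ∈ oneAdd I, ∃ y : Tˣ, u = n * uinc T y := by
  obtain ⟨t, htT, hj⟩ := h u
  -- `t = (1 - j u⁻¹) u`
  obtain ⟨w, hw⟩ := exists_oneAdd hI (a := -(((u : S) - t) * ((u⁻¹ : Sˣ) : S)))
    (I.neg_mem (I.mul_mem_right _ hj))
  have ht : (((w : Sˣ) * u : Sˣ) : S) = t := by
    rw [Units.val_mul, hw, add_mul, neg_mul, mul_assoc, Units.inv_mul, mul_one, one_mul]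
    abel
  set x : Sˣ := (w : Sˣ) * u with hx
  -- the inverse of `x` is a power of `x`
  obtain ⟨k, hk⟩ : ∃ k : ℕ, x⁻¹ = x ^ k := by
    have hfin : IsOfFinOrder x := isOfFinOrder_of_finite x
    have h1 := hfin.mem_powers_iff_mem_zpowers (y := x⁻¹)
    obtain ⟨k, hk⟩ := h1.mpr (Subgroup.inv_mem _ (Subgroup.mem_zpowers x))
    exact ⟨k, hk.symm⟩
  have hinv : ((x⁻¹ : Sˣ) : S) ∈ T := by
    rw [hk, Units.val_pow_eq_pow_val, ht]
    exact T.pow_mem htT k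
  refine ⟨(w : Sˣ)⁻¹, (oneAdd I).inv_mem w.2,
    ⟨⟨t, htT⟩, ⟨((x⁻¹ : Sˣ) : S), hinv⟩, Subtype.ext ?_, Subtype.ext ?_⟩, Units.ext ?_⟩
  · show t * ((x⁻¹ : Sˣ) : S) = 1
    rw [← ht, Units.mul_inv]
  · show ((x⁻¹ : Sˣ) : S) * t = 1
    rw [← ht, Units.inv_mul]
  · show (u : S) = (((w : Sˣ)⁻¹ : Sˣ) : S) * t
    rw [← ht, Units.val_mul, ← mul_assoc, Units.inv_mul, one_mul]

end URingR
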