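import Pool.Agent.URingR.An2
import Pool.Agent.URingR.AnV
import Pool.Agent.URingR.AnC
import Pool.Agent.URingR.Za
import Pool.Agent.URingR.Zb
import Pool.Agent.URingR.Zc

/-!
# R4(e). Module ZD
-/

namespace URingR

universe u v

variable {S : Type u} [Ring S] {M : Type v} [CommGroup M]

open Ring (jacobson)

/-- **module ZD.** Assembly of R4: the Weil data.

Proof. `exists_aniso` gives `i, q₀, σ`. `K = comp i`, `F = W.F i`, `ζ` a generator of `Fˣ`
(`IsCyclic`), `z` from `exists_z`, `T = Subring.centralizer {z}`. `V, q, m` from `exists_V` with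
`I = comp i`; finite, nontrivial as `comp i` is not contained in `B`. `θ n = q (n - 1)`:
multiplicative because `(n-1)(n'-1) ∈ B` (`hω.sq`), kernel `1 + B`, surjective by `exists_oneAdd`.
`ρ y = m y y⁻¹` for `y ∈ Tˣ` (multiplicative by `m s t (q x) = q (s x t)` and surjectivity of `q`).
`decomp`: `exists_centralizer_add` (with `comp_props`) and `exists_unit_decomp`. `z ∈ T` is central
in `T`. For `x ∈ comp i`: `z x z⁻¹ = ζ x σ(ζ)⁻¹`-wise: `q (z x z⁻¹) = (ζ * (σ ζ)⁻¹) • q x`, because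
`z⁻¹` acts like a lift of `ζ⁻¹` on `comp i` (`z ∈ cg c_i`) and `comp i ≤ eig σ`; so
`u₀ = ζ (ζ^q₀)⁻¹ = ζ^(1-q₀)`, a primitive root of order `(q₀² - 1)/(q₀ - 1) = q₀ + 1`
(`IsPrimitiveRoot.pow`, inverse). `T ≠ ⊤`: otherwise `z` commutes with `comp i` and `u₀ = 1`, as
`V ≠ 0`; but `q₀ + 1 > 1`. `nondeg`: `n - 1 ∉ B`, so `ω(n-1, y) ≠ 1` for some `y ∈ J`
(`hω.mem_iff`), and `ω(n-1, y) = ω(n-1, c_i y c_i)` by `comp_props`, `c_i y c_i ∈ comp i`;
`n' = 1 + c_i y c_i`, and `hμ`. -/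
theorem exists_WOut [Finite S] (W : Wedd S) {B : Ideal S} [B.IsTwoSided] (μ : oneAdd B →* M)
    {ω : S → S → M} (hω : IsForm B ω) (hAn : An B ω) (hJ : ¬ jacobson S ≤ B)
    (hμ : ∀ u ∈ oneAdd (jacobson S), ∀ v ∈ oneAdd (jacobson S),
      ∃ h : u * v * u⁻¹ * v⁻¹ ∈ oneAdd B, μ ⟨_, h⟩ = ω ((u : S) - 1) ((v : S) - 1)) :
    Nonempty (WOut B μ) := by
  obtain ⟨i, q0, σ, hq0, hcF, hσ, hnB, hle⟩ := exists_aniso W hω hAn hJ
  obtain ⟨hcp1, hcp2, -, hcp4⟩ := comp_props W hω hAn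
  have hcp1 := hcp1 i
  have hcp2 := hcp2 i
  have hcp4 := hcp4 i
  have hIJ : comp W B hω.sq i ≤ jacobson S := comp_le W B hω.sq i
  have hBI : B ≤ comp W B hω.sq i := le_comp W B hω.le hω.sq i
  obtain ⟨V, iV, mV, q, m, hqs, hqk, hm, hsc⟩ := exists_V W hω.sq i (comp W B hω.sq i) hBI le_rfl
  -- equality of values of `q`
  have hqe : ∀ x y : comp W B hω.sq i, (x : S) - (y : S) ∈ B → q x = q y := by
    intro x y h
    rw [← sub_eq_zero, ← map_sub, hqk]
    exact h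
  obtain ⟨ζ, hζ⟩ := IsCyclic.exists_generator (α := (W.F i)ˣ)
  obtain ⟨z, hz1, hz2, hz3⟩ := exists_z W i (ζ : W.F i) ζ.ne_zero
  have hfinV : Finite V := Finite.of_surjective q hqs
  have hntV : Nontrivial V := by
    obtain ⟨x, hx, hxB⟩ := Set.not_subset.1 hnB
    refine ⟨⟨q ⟨x, hx⟩, 0, fun h => hxB ((hqk _).1 h)⟩⟩
  -- the unit `u0`
  have hord : orderOf (ζ : W.F i) = q0 ^ 2 - 1 := by
    rw [orderOf_units, orderOf_eq_card_of_forall_mem_zpowers hζ, Nat.card_units, hcF]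
  have hprimζ : IsPrimitiveRoot (ζ : W.F i) ((q0 - 1) * (q0 + 1)) := by
    have h1 : (q0 - 1) * (q0 + 1) = q0 ^ 2 - 1 := by
      obtain ⟨k, rfl⟩ : ∃ k, q0 = k + 1 := ⟨q0 - 1, by omega⟩
      simp only [Nat.add_sub_cancel]
      have : (k + 1) ^ 2 = k * (k + 1 + 1) + 1 := by ring
      rw [this, Nat.add_sub_cancel]
    rw [h1, ← hord]
    exact IsPrimitiveRoot.orderOf _
  have hprim : IsPrimitiveRoot ((ζ : W.F i) * σ ((ζ : W.F i)⁻¹)) (q0 + 1) := by
    have h1 : (ζ : W.F i) * σ ((ζ : W.F i)⁻¹) = ((ζ : W.F i) ^ (q0 - 1))⁻¹ := by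
      rw [hσ]
      obtain ⟨k, rfl⟩ : ∃ k, q0 = k + 1 := ⟨q0 - 1, by omega⟩
      rw [Nat.add_sub_cancel, pow_succ, inv_pow, mul_comm ((ζ : W.F i) ^ k)⁻¹, ← mul_assoc,
        mul_inv_cancel₀ ζ.ne_zero, one_mul]
    rw [h1]
    exact (hprimζ.pow (Nat.mul_pos (by omega) (by omega)) rfl).inv
  -- action of `z`
  have hcz : ∀ x ∈ comp W B hω.sq i, x - W.c i * x ∈ B ∧ x - x * W.c i ∈ B := by
    intro x hx
    have h1 : x - W.c i * x
        = (x - W.c i * x * W.c i) - W.c i * (x - W.c i * x * W.c i) := by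
      have h2 : W.c i * (x - W.c i * x * W.c i)
          = W.c i * x - (W.c i * W.c i) * x * W.c i := by noncomm_ring
      rw [h2, W.c_mul_self]; abel
    have h3 : x - x * W.c i
        = (x - W.c i * x * W.c i) - (x - W.c i * x * W.c i) * W.c i := by
      have h2 : (x - W.c i * x * W.c i) * W.c i
          = x * W.c i - W.c i * x * (W.c i * W.c i) := by noncomm_ring
      rw [h2, W.c_mul_self]; abel
    constructor
    · rw [h1]; exact B.sub_mem hx.2 (B.mul_mem_left _ hx.2)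
    · rw [h3]; exact B.sub_mem hx.2 (B.mul_mem_right _ hx.2)
  have hscz : W.IsSc i (ζ : W.F i) ((z : S) * W.c i) := by
    rw [Wedd.IsSc, map_mul, W.π_c]
    funext j
    by_cases hj : j = i
    · subst hj
      rw [Pi.mul_apply, Pi.single_eq_same, Pi.single_eq_same, mul_one, hz2]
    · rw [Pi.mul_apply, Pi.single_eq_of_ne hj, Pi.single_eq_of_ne hj, mul_zero]
  have hπz : W.π (((z⁻¹ : Sˣ) : S)) i = ((ζ : W.F i)⁻¹) • 1 := by
    have h1 : W.π (z : S) i * W.π (((z⁻¹ : Sˣ) : S)) i = 1 := by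
      rw [← Pi.mul_apply, ← map_mul, Units.mul_inv, map_one, Pi.one_apply]
    rw [hz2, smul_mul_assoc, one_mul] at h1
    rw [← h1, smul_smul, inv_mul_cancel₀ ζ.ne_zero, one_smul]
  have hscz' : W.IsSc i ((ζ : W.F i)⁻¹) (W.c i * ((z⁻¹ : Sˣ) : S)) := by
    rw [Wedd.IsSc, map_mul, W.π_c]
    funext j
    by_cases hj : j = i
    · subst hj
      rw [Pi.mul_apply, Pi.single_eq_same, Pi.single_eq_same, one_mul, hπz]
    · rw [Pi.mul_apply, Pi.single_eq_of_ne hj, Pi.single_eq_of_ne hj, zero_mul]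
  have hρz : ∀ v : V, m (z : S) ((z⁻¹ : Sˣ) : S) v
      = ((ζ : W.F i) * σ ((ζ : W.F i)⁻¹)) • v := by
    intro v
    obtain ⟨x, rfl⟩ := hqs v
    obtain ⟨s', hs'⟩ := W.exists_isSc i (σ ((ζ : W.F i)⁻¹))
    rw [hm, mul_smul, ← hsc _ s' hs' x, ← hsc _ _ hscz ⟨s' * (x : S), _⟩]
    apply hqe
    have hx := hle x.2
    have h1 := hx.2 _ _ _ hscz' hs'
    have h2 : (z : S) * (x : S) * ((z⁻¹ : Sˣ) : S) - (z : S) * W.c i * (s' * (x : S))
        = (z : S) * (((x : S) - (x : S) * W.c i) * ((z⁻¹ : Sˣ) : S))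
          + (z : S) * ((x : S) * (W.c i * ((z⁻¹ : Sˣ) : S)) - s' * (x : S))
          + (z : S) * (s' * (x : S) - W.c i * (s' * (x : S))) := by noncomm_ring
    change (z : S) * (x : S) * ((z⁻¹ : Sˣ) : S) - (z : S) * W.c i * (s' * (x : S)) ∈ B
    rw [h2]
    exact B.add_mem (B.add_mem (B.mul_mem_left _ (B.mul_mem_right _ (hcz _ x.2).2))
      (B.mul_mem_left _ h1)) (B.mul_mem_left _ (hcz _ (Ideal.mul_mem_left _ _ x.2)).1)
  -- `θ`
  let θ : oneAdd (comp W B hω.sq i) →* Multiplicative V :=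
    { toFun := fun n => Multiplicative.ofAdd (q ⟨((n : Sˣ) : S) - 1, n.2⟩)
      map_one' := by
        rw [← ofAdd_zero]
        congr 1
        rw [hqk]
        simp
      map_mul' := by
        intro n n'
        rw [← ofAdd_add, ← map_add]
        congr 1
        apply hqe
        have h1 : (((n * n' : oneAdd (comp W B hω.sq i)) : Sˣ) : S) - 1
            - ((((n : Sˣ) : S) - 1) + (((n' : Sˣ) : S) - 1))
            = (((n : Sˣ) : S) - 1) * (((n' : Sˣ) : S) - 1) := by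
          rw [Subgroup.coe_mul, Units.val_mul]; noncomm_ring
        change (((n * n' : oneAdd (comp W B hω.sq i)) : Sˣ) : S) - 1
            - ((((n : Sˣ) : S) - 1) + (((n' : Sˣ) : S) - 1)) ∈ B
        rw [h1]
        exact hω.sq _ (hIJ n.2) _ (hIJ n'.2) }
  have hθ : ∀ n : oneAdd (comp W B hω.sq i),
      θ n = Multiplicative.ofAdd (q ⟨((n : Sˣ) : S) - 1, n.2⟩) := fun _ => rfl
  have hθs : Function.Surjective θ := by
    intro v
    obtain ⟨x, hx⟩ := hqs (Multiplicative.toAdd v)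
    obtain ⟨n, hn⟩ := exists_oneAdd hIJ x.2
    refine ⟨n, ?_⟩
    rw [hθ, ← ofAdd_toAdd v, ← hx]
    congr 2
    apply Subtype.ext
    change ((n : Sˣ) : S) - 1 = (x : S)
    rw [hn]
    abel
  have hθk : ∀ n : oneAdd (comp W B hω.sq i), θ n = 1 ↔ (n : Sˣ) ∈ oneAdd B := by
    intro n
    rw [hθ, ← ofAdd_zero, Multiplicative.ofAdd.injective.eq_iff, hqk]
    rfl
  -- `T` and `ρ`
  let T : Subring S := Subring.centralizer {(z : S)}
  have hTmem : ∀ {x : S}, x ∈ T ↔ (z : S) * x = x * (z : S) := by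
    intro x
    rw [Subring.mem_centralizer_iff]
    simp
  have hm1 : ∀ v : V, m 1 1 v = v := by
    intro v
    obtain ⟨x, rfl⟩ := hqs v
    rw [hm]
    congr 1
    apply Subtype.ext
    simp
  have hmm : ∀ (s t s' t' : S) (v : V), m s t (m s' t' v) = m (s * s') (t' * t) v := by
    intro s t s' t' v
    obtain ⟨x, rfl⟩ := hqs v
    rw [hm, hm, hm]
    congr 1
    apply Subtype.ext
    simp only [mul_assoc]
  let ρ : Tˣ →* Module.End (W.F i) V :=
    { toFun := fun y => m ((y : T) : S) (((y⁻¹ : Tˣ) : T) : S)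
      map_one' := by
        apply LinearMap.ext
        intro v
        simp only [inv_one, Units.val_one, Subring.coe_one]
        exact hm1 v
      map_mul' := by
        intro y y'
        apply LinearMap.ext
        intro v
        rw [Module.End.mul_apply, hmm, mul_inv_rev, Units.val_mul, Units.val_mul, Subring.coe_mul,
          Subring.coe_mul] }
  have hρ : ∀ y : Tˣ, ρ y = m ((y : T) : S) (((y⁻¹ : Tˣ) : T) : S) := fun _ => rfl
  have hzT : (z : S) ∈ T := hTmem.2 rfl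
  have hzT' : ((z⁻¹ : Sˣ) : S) ∈ T := hTmem.2 (by rw [Units.mul_inv, Units.inv_mul])
  let zT : Tˣ := ⟨⟨(z : S), hzT⟩, ⟨((z⁻¹ : Sˣ) : S), hzT'⟩, Subtype.ext (Units.mul_inv z),
    Subtype.ext (Units.inv_mul z)⟩
  have hTne : T ≠ ⊤ := by
    intro hT
    have h1 : ∀ v : V, m (z : S) ((z⁻¹ : Sˣ) : S) v = v := by
      intro v
      obtain ⟨x, rfl⟩ := hqs v
      rw [hm]
      congr 1
      apply Subtype.ext
      have h2 : (z : S) * (x : S) = (x : S) * (z : S) :=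
        hTmem.1 (by rw [hT]; exact Subring.mem_top _)
      change (z : S) * (x : S) * ((z⁻¹ : Sˣ) : S) = (x : S)
      rw [h2, mul_assoc, Units.mul_inv, mul_one]
    obtain ⟨v, hv⟩ := exists_ne (0 : V)
    have h2 : ((ζ : W.F i) * σ ((ζ : W.F i)⁻¹)) • v = (1 : W.F i) • v := by
      rw [← hρz, h1, one_smul]
    have h3 : (ζ : W.F i) * σ ((ζ : W.F i)⁻¹) = 1 := smul_left_injective _ hv h2
    have h4 : q0 + 1 ∣ 1 := hprim.dvd_of_pow_eq_one 1 (by rw [h3, one_pow])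
    have h5 := Nat.le_of_dvd one_pos h4
    omega
  refine ⟨{
    K := comp W B hω.sq i
    BK := hBI
    KJ := hIJ
    F := W.F i
    q0 := q0
    one_lt := hq0
    card_F := hcF
    V := V
    θ := θ
    θ_surj := hθs
    θ_ker := hθk
    T := T
    T_ne := hTne
    ρ := ρ
    equiv := ?_
    decomp := ?_
    z := zT
    z_comm := ?_
    u0 := (ζ : W.F i) * σ ((ζ : W.F i)⁻¹)
    prim := hprim
    ρ_z := ?_
    nondeg := ?_ }⟩
  · intro y n
    rw [hθ, hθ, hρ]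
    congr 1
    rw [toAdd_ofAdd, hm]
    congr 1
    apply Subtype.ext
    change (((uinc T y) * (n : Sˣ) * (uinc T y)⁻¹ : Sˣ) : S) - 1
      = ((y : T) : S) * (((n : Sˣ) : S) - 1) * (((y⁻¹ : Tˣ) : T) : S)
    have h1 : ((uinc T y : Sˣ) : S) = ((y : T) : S) := rfl
    have h2 : (((uinc T y)⁻¹ : Sˣ) : S) = (((y⁻¹ : Tˣ) : T) : S) := rfl
    have h3 : ((y : T) : S) * (((y⁻¹ : Tˣ) : T) : S) = 1 := by
      rw [← h1, ← h2, Units.mul_inv]
    rw [Units.val_mul, Units.val_mul, h1, h2, mul_sub, sub_mul, mul_one, h3]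
  · intro u
    exact exists_unit_decomp T (comp W B hω.sq i) hIJ
      (fun s => exists_centralizer_add W i hω.sq hcp2 hω.le (ζ : W.F i) z hz1 hz2 hz3 s) u
  · intro y
    apply Units.ext
    apply Subtype.ext
    exact hTmem.1 (y : T).2
  · intro v
    exact hρz v
  · intro n hn
    have h1 : ((n : Sˣ) : S) - 1 ∉ B := hn
    rw [hω.mem_iff _ (hIJ n.2)] at h1
    push Not at h1
    obtain ⟨y, hy, hy1⟩ := h1
    rw [hcp4 _ n.2 y hy] at hy1
    obtain ⟨n', hn'⟩ := exists_oneAdd hIJ (hcp1 y hy)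
    obtain ⟨h, hh⟩ := hμ (n : Sˣ) (oneAdd_mono hIJ n.2) (n' : Sˣ) (oneAdd_mono hIJ n'.2)
    refine ⟨n', h, ?_⟩
    rw [hh, hn']
    have h2 : (1 : S) + W.c i * y * W.c i - 1 = W.c i * y * W.c i := by abel
    rw [h2]
    exact hy1

end URingR
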