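import Pool.Agent.URingR.Cmt2
import Pool.Agent.URingR.Exe
import Pool.Agent.URingR.Zd

/-!
# R5. The reduction theorem for rings (module RMAIN)
-/

namespace URingR

universe u v

variable {S : Type u} [Ring S] {M : Type v} [CommGroup M]

open Ring (jacobson)

/-- The two properties of the relation `Ov I χ` (the block lies over `χ`) that are used. -/
structure OvAx (Ov : ∀ (I : Ideal S) [I.IsTwoSided], (oneAdd I →* M) → Prop) : Prop where
  bot : Ov ⊥ 1
  ext : ∀ (I I' : Ideal S) [I.IsTwoSided] [I'.IsTwoSided] (hII' : I ≤ I'),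
    I' ≤ jacobson S → ∀ χ : oneAdd I →* M,
    (∀ (g : Sˣ) (n : oneAdd I), χ (conjE g n) = χ n) →
    (∀ g ∈ oneAdd I', ∀ h ∈ oneAdd I', ∃ h' : g * h * g⁻¹ * h⁻¹ ∈ oneAdd I, χ ⟨_, h'⟩ = 1) →
    Ov I χ → ∃ χ' : oneAdd I' →* M,
      (∀ n : oneAdd I, χ' ⟨n, oneAdd_mono hII' n.2⟩ = χ n) ∧ Ov I' χ'

private theorem rmain_transport {Ov : ∀ (I : Ideal S) [I.IsTwoSided], (oneAdd I →* M) → Prop}
    {I I' : Ideal S} [h1 : I.IsTwoSided] [h2 : I'.IsTwoSided] (h : I = I')
    (hO : ∃ χ : oneAdd I →* M, Ov I χ) : ∃ χ : oneAdd I' →* M, Ov I' χ := by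
  subst h
  exact hO

private theorem rmain_ev {I I' : Ideal S} [I.IsTwoSided] [I'.IsTwoSided] (h : I ≤ I')
    (hI : I ≤ jacobson S) (χ : oneAdd I →* M) (χ' : oneAdd I' →* M)
    (hχ : ∀ n : oneAdd I, χ' ⟨n, oneAdd_mono h n.2⟩ = χ n) {a : S} (ha : a ∈ I) :
    ev χ' a = ev χ a := by
  obtain ⟨u, hu⟩ := exists_oneAdd hI ha
  rw [ev_of χ u hu, ← hχ u]
  exact ev_of χ' ⟨u, oneAdd_mono h u.2⟩ hu

/-- **R5.** Proof. Suppose (C) never holds: `stab χ = ⊤` whenever `Ov I χ`, so every such `χ` is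
invariant (`conj_of_stab_top`).
If some `χ` on `1 + J` has `Ov J χ`: `exists_extension` gives the second case.
Otherwise let `n` be minimal such that some `χ` on `1 + J^(n+1)` has `Ov` (`J^(n+1) = ⊥` for large
`n`, `IsArtinianRing.isNilpotent_jacobson_bot`; from `bot` by `ext` with
`I = ⊥`, `I' = J^(n+1) = ⊥`; same trick to go from `J^1` to `J`). So `n ≥ 1`; `K = J^(n+1)`,
`L = J^n` is a `Step`.
`n ≥ 2`: `J^n ≤ J*J ≤ bid` (`mul_mem_bid`), so by `comm_bid` commutators of `1 + J^n` are in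
`ker χ`, and `ext` gives a character of `1 + J^n`: contradiction to the minimality.
`n = 1`: `B = bid`, `L = J` (or a `Step (J^2) J`); `ω = omega χ`, `isForm_omega`. `comm_bid` with
`oneAdd B ≤ oneAdd J` shows that `1 + B` is abelian modulo `ker χ`: `ext` gives `μ` on `1 + B`
extending `χ`, `Ov B μ`. `B ≠ J`, since otherwise `Ov` holds for a character of `1 + J`. If (An)
fails there is a two-sided `I`, `B ≤ I ≤ J`, `ω(I,I) = 1`, not `I ≤ B`; commutators of `1 + I` have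
`μ = χ = ω = 1`, so `ext` gives `ν` on `1 + I` extending `μ`; `stab ν = ⊤` implies
`ω(x,y) = ν(1+xy) ν(1+yx)⁻¹ = 1` for all `x ∈ I`, `y ∈ J` (`xy, yx ∈ J² ≤ B`), so `I ≤ B` by
`mem_iff`, contradiction. So (An) holds and `exists_WOut` gives the third case for `B`, `μ`. -/
theorem ring_main [Finite S] {Ov : ∀ (I : Ideal S) [I.IsTwoSided], (oneAdd I →* M) → Prop}
    (h : OvAx Ov) :
    ∃ (I : Ideal S) (_ : I.IsTwoSided) (hI : I ≤ jacobson S) (χ : oneAdd I →* M), Ov I χ ∧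
      (stab hI χ ≠ ⊤ ∨
       (I = jacobson S ∧ ∃ F : Sˣ →* M, ∀ n : oneAdd I, F n = χ n) ∨
       (stab hI χ = ⊤ ∧ Nonempty (WOut I χ))) := by
  classical
  by_cases hC : ∃ (I : Ideal S) (_ : I.IsTwoSided) (hI : I ≤ jacobson S) (χ : oneAdd I →* M),
      Ov I χ ∧ stab hI χ ≠ ⊤
  · obtain ⟨I, hI2, hI, χ, h1, h2⟩ := hC
    exact ⟨I, hI2, hI, χ, h1, Or.inl h2⟩
  have hC' : ∀ (I : Ideal S) (_ : I.IsTwoSided) (hI : I ≤ jacobson S) (χ : oneAdd I →* M),
      Ov I χ → stab hI χ = ⊤ := by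
    intro I hI2 hI χ h1
    by_contra h2
    exact hC ⟨I, hI2, hI, χ, h1, h2⟩
  -- the radical is nilpotent
  have hPex : ∃ n : ℕ, ∃ χ : oneAdd ((jacobson S) ^ (n + 1)) →* M,
      Ov ((jacobson S) ^ (n + 1)) χ := by
    obtain ⟨N, hN⟩ := IsArtinianRing.isNilpotent_jacobson_bot (R := S)
    rw [Ideal.jacobson_bot] at hN
    refine ⟨N, rmain_transport (Ov := Ov) (I := (⊥ : Ideal S)) ?_ ⟨1, h.bot⟩⟩
    refine (le_bot_iff.1 ?_).symm
    calc (jacobson S) ^ (N + 1) ≤ (jacobson S) ^ N := Ideal.pow_le_pow_right (by omega)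
      _ = ⊥ := hN
  obtain ⟨n, hn, hmin⟩ : ∃ n : ℕ, (∃ χ : oneAdd ((jacobson S) ^ (n + 1)) →* M,
      Ov ((jacobson S) ^ (n + 1)) χ) ∧ ∀ m < n, ¬ ∃ χ : oneAdd ((jacobson S) ^ (m + 1)) →* M,
      Ov ((jacobson S) ^ (m + 1)) χ :=
    ⟨Nat.find hPex, Nat.find_spec hPex, fun m hm => Nat.find_min hPex hm⟩
  rcases n with _ | n
  · -- `1 + J`
    obtain ⟨χ, hχ⟩ := rmain_transport (Ov := Ov) (I' := jacobson S)
      (by rw [zero_add, Submodule.pow_one]) hn
    have hst := hC' _ inferInstance le_rfl χ hχ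
    exact ⟨jacobson S, inferInstance, le_rfl, χ, hχ,
      Or.inr (Or.inl ⟨rfl, exists_extension χ hst⟩)⟩
  obtain ⟨χ, hχ⟩ := hn
  have hKJ : (jacobson S) ^ (n + 1 + 1) ≤ jacobson S := Ideal.pow_le_self (by omega)
  have hst : stab hKJ χ = ⊤ := hC' _ inferInstance hKJ χ hχ
  rcases n with _ | n
  · -- the case of `J²`
    have hstep : Step ((jacobson S) ^ (0 + 1 + 1)) (jacobson S) :=
      { KL := hKJ
        LJ := le_rfl
        mul_left := by
          intro a ha y hy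
          rw [Submodule.pow_succ, Submodule.pow_one]
          exact Ideal.mul_mem_mul ha hy
        mul_right := by
          intro y hy a ha
          rw [Submodule.pow_succ, Submodule.pow_one]
          exact Ideal.mul_mem_mul hy ha }
    have hst' : stab hstep.KJ χ = ⊤ := hst
    obtain ⟨hω, hcomm⟩ := isForm_omega hstep χ hst'
    have hBJ := bid_le hstep χ hst'
    have hKB := K_le_bid hstep χ hst'
    obtain ⟨μ, hμχ, hμ⟩ := h.ext _ (bid hstep χ hst') hKB hBJ χ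
      (fun g n => conj_of_stab_top hKJ χ hst g n)
      (fun g hg k hk => ⟨comm_mem hstep (hBJ hg) (hBJ hk),
        comm_bid hstep χ hst' hg (hBJ hk)⟩) hχ
    have hstμ := hC' _ inferInstance hBJ μ hμ
    have hJB : ¬ jacobson S ≤ bid hstep χ hst' := by
      intro hle
      refine hmin 0 (by omega) ?_
      refine rmain_transport (Ov := Ov) (I := bid hstep χ hst') ?_ ⟨μ, hμ⟩
      exact (le_antisymm hBJ hle).trans (Submodule.pow_one _).symm
    have hμc : ∀ u ∈ oneAdd (jacobson S), ∀ v ∈ oneAdd (jacobson S),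
        ∃ h : u * v * u⁻¹ * v⁻¹ ∈ oneAdd (bid hstep χ hst'),
          μ ⟨_, h⟩ = omega χ ((u : S) - 1) ((v : S) - 1) := by
      intro u hu v hv
      have hm := comm_mem hstep hu hv
      refine ⟨oneAdd_mono hKB hm, ?_⟩
      rw [← hcomm u v hu hv]
      exact hμχ ⟨_, hm⟩
    have hAn : An (bid hstep χ hst') (omega χ) := by
      intro I hI2 hBI hIJ hiso
      obtain ⟨ν, hνμ, hν⟩ := h.ext (bid hstep χ hst') I hBI hIJ μ
        (fun g n => conj_of_stab_top hBJ μ hstμ g n)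
        (fun g hg k hk => by
          obtain ⟨h1, h2⟩ := hμc g (hIJ hg) k (hIJ hk)
          exact ⟨h1, by rw [h2]; exact hiso _ hg _ hk⟩) hμ
      have hstν := hC' I hI2 hIJ ν hν
      intro x hx
      rw [hω.mem_iff x (hIJ hx)]
      intro y hy
      have hxy : x * y ∈ (jacobson S) ^ (0 + 1 + 1) := hstep.mul_left x (hIJ hx) y hy
      have hyx : y * x ∈ (jacobson S) ^ (0 + 1 + 1) := hstep.mul_left y hy x (hIJ hx)
      have hy' : y ∈ stab hIJ ν := by rw [hstν]; exact Subring.mem_top _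
      have h3 := hy' x hx
      rw [rmain_ev hBI hBJ μ ν hνμ (hKB hyx), rmain_ev hBI hBJ μ ν hνμ (hKB hxy),
        rmain_ev hKB hKJ χ μ hμχ hyx, rmain_ev hKB hKJ χ μ hμχ hxy] at h3
      rw [omega, h3, mul_inv_cancel]
    obtain ⟨W⟩ := exists_wedd S
    exact ⟨bid hstep χ hst', inferInstance, hBJ, μ, hμ,
      Or.inr (Or.inr ⟨hstμ, exists_WOut W μ hω hAn hJB hμc⟩)⟩
  · -- impossible: `J^(n+2) ≤ J²`
    exfalso
    have hstep : Step ((jacobson S) ^ (n + 1 + 1 + 1)) ((jacobson S) ^ (n + 1 + 1)) :=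
      { KL := Ideal.pow_le_pow_right (by omega)
        LJ := Ideal.pow_le_self (by omega)
        mul_left := by
          intro a ha y hy
          rw [Submodule.pow_succ' _ (by omega)]
          exact Ideal.mul_mem_mul ha hy
        mul_right := by
          intro y hy a ha
          rw [Submodule.pow_succ]
          exact Ideal.mul_mem_mul hy ha }
    have hst' : stab hstep.KJ χ = ⊤ := hst
    have hL : (jacobson S) ^ (n + 1 + 1) ≤ bid hstep χ hst' := by
      refine (Ideal.pow_le_pow_right (show 2 ≤ n + 1 + 1 by omega)).trans ?_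
      rw [show (2 : ℕ) = 1 + 1 from rfl, Submodule.pow_succ, Submodule.pow_one, Ideal.mul_le]
      intro a ha b hb
      exact mul_mem_bid hstep χ hst' ha hb
    obtain ⟨χ', -, hχ'⟩ := h.ext _ ((jacobson S) ^ (n + 1 + 1)) hstep.KL hstep.LJ χ
      (fun g n => conj_of_stab_top hKJ χ hst g n)
      (fun g hg k hk => ⟨comm_mem hstep (hstep.LJ hg) hk,
        comm_bid hstep χ hst' (hL hg) hk⟩) hχ
    exact hmin (n + 1) (by omega) ⟨χ', hχ'⟩

end URingR
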