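import Pool.Agent.URingR.AnDef

/-!
# R4. Module AN1
-/

namespace URingR

universe u v

variable {S : Type u} [Ring S] {M : Type v} [CommGroup M]

open Ring (jacobson)

/-- **module AN1 (R4(a)).** For `i ≠ j` and `x ∈ J`: `c_i x c_j ∈ B`.

Proof. The ideal `I = {x ∈ J : x - c_i x c_j ∈ B}` is two-sided (`W.c_comm`: `s c_i - c_i s ∈ J`,
and `J · J ≤ B` is `hω.sq`) and contains `B`; for `x, y ∈ I`, modulo `B` (`of_mem_left`,
`of_mem_right`, additivity) `ω(x,y) = ω(c_i x c_j, c_i y c_j) = ω(x c_j, c_i y c_j c_i)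
= ω(x c_j, 0) = 1` (`hω.smul`). By (An) `I ≤ B`; `c_i x c_j ∈ I` for every `x ∈ J`. -/
theorem c_mul_c_mem (W : Wedd S) {B : Ideal S} [B.IsTwoSided] {ω : S → S → M}
    (hω : IsForm B ω) (hAn : An B ω) {i j : Fin W.n} (hij : i ≠ j) {x : S}
    (hx : x ∈ jacobson S) : W.c i * x * W.c j ∈ B := by
  have hcj : ∀ (i : Fin W.n) (s : S), s * W.c i - W.c i * s ∈ jacobson S := fun i s => W.c_comm i s
  let I : Ideal S :=
    { carrier := {x | x ∈ jacobson S ∧ x - W.c i * x * W.c j ∈ B}
      add_mem' := by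
        rintro a b ⟨ha, ha'⟩ ⟨hb, hb'⟩
        refine ⟨add_mem ha hb, ?_⟩
        have h1 : a + b - W.c i * (a + b) * W.c j
            = (a - W.c i * a * W.c j) + (b - W.c i * b * W.c j) := by noncomm_ring
        rw [h1]
        exact B.add_mem ha' hb'
      zero_mem' := ⟨zero_mem _, by simp⟩
      smul_mem' := by
        rintro s a ⟨ha, ha'⟩
        refine ⟨Ideal.mul_mem_left _ _ ha, ?_⟩
        have h1 : s • a - W.c i * (s • a) * W.c j
            = s * (a - W.c i * a * W.c j) + ((s * W.c i - W.c i * s) * a) * W.c j := by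
          rw [smul_eq_mul]; noncomm_ring
        rw [h1]
        exact B.add_mem (B.mul_mem_left _ ha')
          (B.mul_mem_right _ (hω.sq _ (hcj i s) _ ha)) }
  have hmem : ∀ a : S, a ∈ I ↔ a ∈ jacobson S ∧ a - W.c i * a * W.c j ∈ B := fun _ => Iff.rfl
  have hI2 : I.IsTwoSided :=
    { mul_mem_of_left := by
        intro a s h
        obtain ⟨ha, ha'⟩ := (hmem a).1 h
        refine (hmem _).2 ⟨Ideal.mul_mem_right _ _ ha, ?_⟩
        have h1 : a * s - W.c i * (a * s) * W.c j
            = (a - W.c i * a * W.c j) * s - W.c i * (a * (s * W.c j - W.c j * s)) := by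
          noncomm_ring
        rw [h1]
        exact B.sub_mem (B.mul_mem_right _ ha')
          (B.mul_mem_left _ (hω.sq _ ha _ (hcj j s))) }
  have hle := hAn I hI2 (fun x hx => (hmem x).2
    ⟨hω.le hx, B.sub_mem hx (B.mul_mem_right _ (B.mul_mem_left _ hx))⟩)
    (fun x hx => ((hmem x).1 hx).1) (by
      intro x hx y hy
      obtain ⟨hxJ, hx'⟩ := (hmem x).1 hx
      obtain ⟨hyJ, hy'⟩ := (hmem y).1 hy
      have hcx : W.c i * x * W.c j ∈ jacobson S :=
        Ideal.mul_mem_right _ _ (Ideal.mul_mem_left _ _ hxJ)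
      have hcy : W.c i * y * W.c j ∈ jacobson S :=
        Ideal.mul_mem_right _ _ (Ideal.mul_mem_left _ _ hyJ)
      have hxc : x * W.c j ∈ jacobson S := Ideal.mul_mem_right _ _ hxJ
      have e1 : ω x y = ω (W.c i * x * W.c j) y := by
        have h1 := hω.add_left (x - W.c i * x * W.c j) (hω.le hx') (W.c i * x * W.c j) hcx y hyJ
        rw [sub_add_cancel, hω.of_mem_left hx' hyJ, one_mul] at h1
        exact h1
      have e2 : ω (W.c i * x * W.c j) y = ω (W.c i * x * W.c j) (W.c i * y * W.c j) := by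
        have h1 := hω.add_right (W.c i * x * W.c j) hcx (y - W.c i * y * W.c j) (hω.le hy')
          (W.c i * y * W.c j) hcy
        rw [sub_add_cancel, hω.of_mem_right hcx hy', one_mul] at h1
        exact h1
      rw [e1, e2, mul_assoc (W.c i) x, hω.smul (W.c i) _ hxc _ hcy, mul_assoc,
        W.c_mul_ne (Ne.symm hij), mul_zero, hω.zero_right hxc])
  refine hle ((hmem _).2 ⟨Ideal.mul_mem_right _ _ (Ideal.mul_mem_left _ _ hx), ?_⟩)
  have h1 : W.c i * (W.c i * x * W.c j) * W.c j = W.c i * x * W.c j := by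
    calc W.c i * (W.c i * x * W.c j) * W.c j = (W.c i * W.c i) * x * (W.c j * W.c j) := by
          simp only [mul_assoc]
      _ = _ := by rw [W.c_mul_self, W.c_mul_self]
  rw [h1, sub_self]
  exact B.zero_mem

end URingR
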