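import Pool.Agent.URingR.An1

/-!
# R4. Module AN2
-/

namespace URingR

universe u v

variable {S : Type u} [Ring S] {M : Type v} [CommGroup M]

open Ring (jacobson)

/-- **module AN2.** The components: `c_i x c_i` belongs to `comp i`; `c_i x (1-c_i)` and
`(1-c_i) x c_i` are in `B` (`c_mul_c_mem`, `W.sum_c`); if all `comp i ≤ B` then `J ≤ B`
(`x = ∑ c_i x c_j`); different components are orthogonal for `ω`
(`ω(c_i x c_i, c_j y c_j) = ω(x c_i, c_j y c_j c_i)`). -/
theorem comp_props (W : Wedd S) {B : Ideal S} [B.IsTwoSided] {ω : S → S → M}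
    (hω : IsForm B ω) (hAn : An B ω) :
    (∀ i, ∀ x ∈ jacobson S, W.c i * x * W.c i ∈ comp W B hω.sq i) ∧
    (∀ i, ∀ x ∈ jacobson S, W.c i * x * (1 - W.c i) ∈ B ∧ (1 - W.c i) * x * W.c i ∈ B) ∧
    ((∀ i, comp W B hω.sq i ≤ B) → jacobson S ≤ B) ∧
    (∀ i, ∀ x ∈ comp W B hω.sq i, ∀ y ∈ jacobson S, ω x y = ω x (W.c i * y * W.c i)) := by
  have hsum : ∀ x : S, x = ∑ i, ∑ j, W.c i * x * W.c j := by
    intro x
    have h1 : x = (∑ i, W.c i) * x * (∑ j, W.c j) := by rw [W.sum_c, one_mul, mul_one]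
    conv_lhs => rw [h1]
    rw [Finset.sum_mul, Finset.sum_mul]
    exact Finset.sum_congr rfl fun i _ => Finset.mul_sum _ _ _
  have hcc : ∀ (i : Fin W.n) (x : S), W.c i * (W.c i * x * W.c i) * W.c i
      = W.c i * x * W.c i := by
    intro i x
    calc W.c i * (W.c i * x * W.c i) * W.c i = (W.c i * W.c i) * x * (W.c i * W.c i) := by
          simp only [mul_assoc]
      _ = _ := by rw [W.c_mul_self]
  have hone : ∀ i : Fin W.n, (1 : S) - W.c i = ∑ j ∈ Finset.univ.erase i, W.c j := by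
    intro i
    rw [← W.sum_c, ← Finset.add_sum_erase Finset.univ _ (Finset.mem_univ i)]
    abel
  refine ⟨fun i x hx => ?_, fun i x hx => ⟨?_, ?_⟩, fun h x hx => ?_, fun i x hx y hy => ?_⟩
  · refine mem_comp.2 ⟨Ideal.mul_mem_right _ _ (Ideal.mul_mem_left _ _ hx), ?_⟩
    rw [hcc, sub_self]
    exact B.zero_mem
  · rw [hone, Finset.mul_sum]
    exact B.sum_mem fun j hj =>
      c_mul_c_mem W hω hAn (Ne.symm (Finset.ne_of_mem_erase hj)) hx
  · rw [hone, Finset.sum_mul, Finset.sum_mul]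
    exact B.sum_mem fun j hj =>
      c_mul_c_mem W hω hAn (Finset.ne_of_mem_erase hj) hx
  · rw [hsum x]
    refine B.sum_mem fun i _ => B.sum_mem fun j _ => ?_
    by_cases hij : i = j
    · subst hij
      refine h i (mem_comp.2 ⟨Ideal.mul_mem_right _ _ (Ideal.mul_mem_left _ _ hx), ?_⟩)
      rw [hcc, sub_self]
      exact B.zero_mem
    · exact c_mul_c_mem W hω hAn hij hx
  · obtain ⟨hxJ, hx'⟩ := mem_comp.1 hx
    have hcx : W.c i * x * W.c i ∈ jacobson S :=
      Ideal.mul_mem_right _ _ (Ideal.mul_mem_left _ _ hxJ)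
    have hxc : x * W.c i ∈ jacobson S := Ideal.mul_mem_right _ _ hxJ
    have e1 : ω x y = ω (W.c i * x * W.c i) y := by
      have h1 := hω.add_left (x - W.c i * x * W.c i) (hω.le hx') (W.c i * x * W.c i) hcx y hy
      rw [sub_add_cancel, hω.of_mem_left hx' hy, one_mul] at h1
      exact h1
    rw [e1, mul_assoc (W.c i) x, hω.smul (W.c i) _ hxc _ hy,
      hω.smul' (W.c i) _ hxJ _ (Ideal.mul_mem_right _ _ hy), mul_assoc (W.c i) y]

end URingR
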