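import Pool.Agent.URingR.Bid

/-!
# R2(c), (e). Commutators and the form `ω`

Module CMT1: `comm_formula`.
-/

namespace URingR

universe u v

variable {S : Type u} [Ring S] {M : Type v} [CommGroup M]
variable {K L : Ideal S} [K.IsTwoSided] [L.IsTwoSided]

open Ring (jacobson)

/-- commutators of `1 + J` and `1 + L` lie in `1 + K` -/
theorem comm_mem (h : Step K L) {u v : Sˣ} (hu : u ∈ oneAdd (jacobson S)) (hv : v ∈ oneAdd L) :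
    u * v * u⁻¹ * v⁻¹ ∈ oneAdd K := by
  have e : ((u * v * u⁻¹ * v⁻¹ : Sˣ) : S) - 1
      = (((u : S) - 1) * ((v : S) - 1) - ((v : S) - 1) * ((u : S) - 1))
          * (((v * u)⁻¹ : Sˣ) : S) := by
    have h1 : ((u * v * u⁻¹ * v⁻¹ : Sˣ) : S) = ((u : S) * (v : S)) * (((v * u)⁻¹ : Sˣ) : S) := by
      push_cast [mul_inv_rev]; noncomm_ring
    have h2 : (((v : S) * (u : S))) * (((v * u)⁻¹ : Sˣ) : S) = 1 := by
      rw [← Units.val_mul, Units.mul_inv]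
    calc ((u * v * u⁻¹ * v⁻¹ : Sˣ) : S) - 1
        = ((u : S) * (v : S)) * (((v * u)⁻¹ : Sˣ) : S)
            - (((v : S) * (u : S))) * (((v * u)⁻¹ : Sˣ) : S) := by rw [h1, h2]
      _ = _ := by rw [← sub_mul]; congr 1; noncomm_ring
  rw [mem_oneAdd, e]
  exact K.mul_mem_right _ (K.sub_mem (h.mul_left _ hu _ hv) (h.mul_right _ hv _ hu))

/-- **R2(c), the formula.** For `u = 1 + x`, `x ∈ J`, `v = 1 + y`, `y ∈ L`, and `y' = y (1+x+y)⁻¹`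
(`t = 1 + x + y`): `χ([u, v]) = χ(1 + x y') χ(1 + y' x)⁻¹`.

Proof. Put `y₁ = y u⁻¹`. Then `u v u⁻¹ = 1 + u y₁ = (1 + y₁) (1 + (1+y₁)⁻¹ x y₁)` and
`v = 1 + y₁ u = (1 + y₁ x (1+y₁)⁻¹) (1 + y₁)`, hence
`[u, v] = (1+y₁) (1 + (1+y₁)⁻¹ x y₁) (1+y₁)⁻¹ (1 + y₁ x (1+y₁)⁻¹)⁻¹`. `χ` is invariant under
conjugation by units (`ev_conj_unit`, `conj_of_stab_top`); conjugate the first factor by `1+y₁`:
it becomes `1 + x y₁ (1+y₁)⁻¹`, the second: `1 + (1+y₁)⁻¹ y₁ x`. And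
`y₁ (1+y₁)⁻¹ = (1+y₁)⁻¹ y₁ = y u⁻¹ (1 + y u⁻¹)⁻¹ = y (u + y)⁻¹ = y t⁻¹`. -/
theorem comm_formula (h : Step K L) (χ : oneAdd K →* M) (hχ : stab h.KJ χ = ⊤)
    {u v : Sˣ} (hu : u ∈ oneAdd (jacobson S)) (hv : v ∈ oneAdd L) (t : Sˣ)
    (ht : (t : S) = (u : S) + (v : S) - 1) :
    χ ⟨u * v * u⁻¹ * v⁻¹, comm_mem h hu hv⟩
      = ev χ (((u : S) - 1) * (((v : S) - 1) * ((t⁻¹ : Sˣ) : S)))
        * (ev χ ((((v : S) - 1) * ((t⁻¹ : Sˣ) : S)) * ((u : S) - 1)))⁻¹ := by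
  have hx : (u : S) - 1 ∈ jacobson S := hu
  have hy : (v : S) - 1 ∈ L := hv
  have hyt : ((v : S) - 1) * ((t⁻¹ : Sˣ) : S) ∈ L := L.mul_mem_right _ hy
  have hy1 : ((v : S) - 1) * ((u⁻¹ : Sˣ) : S) ∈ L := L.mul_mem_right _ hy
  obtain ⟨a, ha⟩ := exists_oneAdd h.KJ (h.mul_left _ hx _ hyt)
  have hbK : ((v : S) - 1) * ((u⁻¹ : Sˣ) : S) * ((u : S) - 1) * (((t * u⁻¹)⁻¹ : Sˣ) : S) ∈ K :=
    K.mul_mem_right _ (h.mul_right _ hy1 _ hx)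
  obtain ⟨b, hb⟩ := exists_oneAdd h.KJ hbK
  have hvt : (v : S) = (t : S) - (u : S) + 1 := by rw [ht]; abel
  -- `v = b w`
  have e1 : v = (b : Sˣ) * (t * u⁻¹) := by
    apply Units.ext
    rw [Units.val_mul, hb, add_mul, one_mul, mul_assoc _ (((t * u⁻¹)⁻¹ : Sˣ) : S), Units.inv_mul,
      mul_one, Units.val_mul, mul_sub, mul_one, mul_assoc, Units.inv_mul, mul_one, hvt]
    have : (t : S) * ((u⁻¹ : Sˣ) : S) + ((t : S) - (u : S) + 1 - 1 -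
        ((t : S) - (u : S) + 1 - 1) * ((u⁻¹ : Sˣ) : S)) =
        (t : S) - (u : S) + (u : S) * ((u⁻¹ : Sˣ) : S) := by noncomm_ring
    rw [this, Units.mul_inv]
  -- `u v u⁻¹ = a w`
  have e2 : u * v * u⁻¹ = (a : Sˣ) * (t * u⁻¹) := by
    apply Units.ext
    rw [Units.val_mul, Units.val_mul, Units.val_mul, Units.val_mul, ha]
    have h1 : ((u : S) - 1) * (((v : S) - 1) * ((t⁻¹ : Sˣ) : S)) * ((t : S) * ((u⁻¹ : Sˣ) : S)) =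
        ((u : S) - 1) * ((v : S) - 1) * ((u⁻¹ : Sˣ) : S) := by
      rw [← mul_assoc, mul_assoc _ _ (t : S), mul_assoc ((v : S) - 1), Units.inv_mul, mul_one]
    rw [add_mul, h1, one_mul, ht, ← add_mul]
    congr 1
    noncomm_ring
  have e3 : (⟨u * v * u⁻¹ * v⁻¹, comm_mem h hu hv⟩ : oneAdd K) = a * b⁻¹ := by
    apply Subtype.ext
    change u * v * u⁻¹ * v⁻¹ = (a : Sˣ) * (b : Sˣ)⁻¹
    rw [e2]
    conv_lhs => rw [e1]
    group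
  rw [e3, map_mul, map_inv, ev_of χ a ha]
  congr 2
  have h2 := ev_conj_unit h.KJ χ hχ (t * u⁻¹)⁻¹ hbK
  rw [← ev_of χ b hb, ← h2]
  congr 1
  rw [inv_inv, mul_assoc, mul_assoc _ (((t * u⁻¹)⁻¹ : Sˣ) : S), Units.inv_mul, mul_one,
    ← mul_assoc, ← mul_assoc]
  congr 1
  rw [mul_inv_rev, inv_inv, Units.val_mul, hvt]
  have h3 : (u : S) * ((t⁻¹ : Sˣ) : S) * ((t : S) - (u : S) + 1 - 1) =
      ((t : S) - (u : S) + 1 - 1) * ((t⁻¹ : Sˣ) : S) * (u : S) := by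
    have h4 : (u : S) * ((t⁻¹ : Sˣ) : S) * ((t : S) - (u : S) + 1 - 1) =
        (u : S) * (((t⁻¹ : Sˣ) : S) * (t : S)) - (u : S) * ((t⁻¹ : Sˣ) : S) * (u : S) := by
      noncomm_ring
    have h5 : ((t : S) - (u : S) + 1 - 1) * ((t⁻¹ : Sˣ) : S) * (u : S) =
        ((t : S) * ((t⁻¹ : Sˣ) : S)) * (u : S) - (u : S) * ((t⁻¹ : Sˣ) : S) * (u : S) := by
      noncomm_ring
    rw [h4, h5, Units.inv_mul, Units.mul_inv, mul_one, one_mul]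
  rw [h3, mul_assoc _ (u : S), Units.mul_inv, mul_one]

/-- R2(c): `χ([1+x, 1+y]) = 1` for `x ∈ B`, `y ∈ L`. -/
theorem comm_bid (h : Step K L) (χ : oneAdd K →* M) (hχ : stab h.KJ χ = ⊤)
    {u v : Sˣ} (hu : u ∈ oneAdd (bid h χ hχ)) (hv : v ∈ oneAdd L) :
    χ ⟨u * v * u⁻¹ * v⁻¹, comm_mem h (bid_le h χ hχ hu) hv⟩ = 1 := by
  have hs : ∃ t : Sˣ, (t : S) = (u : S) + (v : S) - 1 := by
    obtain ⟨t, ht⟩ := exists_oneAdd (I := jacobson S) le_rfl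
      (a := ((u : S) - 1) + ((v : S) - 1)) (add_mem (bid_le h χ hχ hu) (h.LJ hv))
    exact ⟨t, by rw [ht]; abel⟩
  obtain ⟨t, ht⟩ := hs
  rw [comm_formula h χ hχ (bid_le h χ hχ hu) hv t ht]
  rw [hu.2 _ (L.mul_mem_right _ hv), mul_inv_cancel]

/-- The properties of the form `ω(x, y) = χ([1+x, 1+y])` on `J / B`. -/
structure IsForm (B : Ideal S) (ω : S → S → M) : Prop where
  le : B ≤ jacobson S
  sq : ∀ x ∈ jacobson S, ∀ y ∈ jacobson S, x * y ∈ B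
  add_left : ∀ x ∈ jacobson S, ∀ x' ∈ jacobson S, ∀ y ∈ jacobson S,
    ω (x + x') y = ω x y * ω x' y
  add_right : ∀ x ∈ jacobson S, ∀ y ∈ jacobson S, ∀ y' ∈ jacobson S,
    ω x (y + y') = ω x y * ω x y'
  self : ∀ x ∈ jacobson S, ω x x = 1
  smul : ∀ s : S, ∀ x ∈ jacobson S, ∀ y ∈ jacobson S, ω (s * x) y = ω x (y * s)
  smul' : ∀ s : S, ∀ x ∈ jacobson S, ∀ y ∈ jacobson S, ω (x * s) y = ω x (s * y)
  mem_iff : ∀ x ∈ jacobson S, (x ∈ B ↔ ∀ y ∈ jacobson S, ω x y = 1)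

/-- `ω(x, y) = χ(1+xy) χ(1+yx)⁻¹` -/
noncomputable def omega (χ : oneAdd K →* M) (x y : S) : M := ev χ (x * y) * (ev χ (y * x))⁻¹

end URingR
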