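import Pool.Agent.URingR.WeddA
import Pool.Agent.URingR.Cmt1

/-!
# R4. The anisotropic case: definitions

`ω` is the form on `J / B`, and (An): every two-sided ideal `I` with `B ≤ I ≤ J` and
`ω(I, I) = 1` is `≤ B`.
-/

namespace URingR

universe u v

variable {S : Type u} [Ring S] {M : Type v} [CommGroup M]

open Ring (jacobson)

/-- (An) -/
def An (B : Ideal S) (ω : S → S → M) : Prop :=
  ∀ I : Ideal S, I.IsTwoSided → B ≤ I → I ≤ jacobson S →
    (∀ x ∈ I, ∀ y ∈ I, ω x y = 1) → I ≤ B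

namespace IsForm

variable {B : Ideal S} {ω : S → S → M}

theorem zero_left (h : IsForm B ω) {y : S} (hy : y ∈ jacobson S) : ω 0 y = 1 := by
  have h1 := h.add_left 0 (zero_mem _) 0 (zero_mem _) y hy
  rw [add_zero] at h1
  exact (mul_eq_left.mp h1.symm)

theorem zero_right (h : IsForm B ω) {x : S} (hx : x ∈ jacobson S) : ω x 0 = 1 := by
  have h1 := h.add_right x hx 0 (zero_mem _) 0 (zero_mem _)
  rw [add_zero] at h1
  exact (mul_eq_left.mp h1.symm)

/-- `ω` is skew -/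
theorem skew (h : IsForm B ω) {x y : S} (hx : x ∈ jacobson S) (hy : y ∈ jacobson S) :
    ω x y * ω y x = 1 := by
  have h1 := h.self (x + y) (add_mem hx hy)
  rw [h.add_left x hx y hy _ (add_mem hx hy), h.add_right x hx x hx y hy,
    h.add_right y hy x hx y hy, h.self x hx, h.self y hy, one_mul, mul_one] at h1
  exact h1

theorem of_mem_left (h : IsForm B ω) {x y : S} (hx : x ∈ B) (hy : y ∈ jacobson S) :
    ω x y = 1 := (h.mem_iff x (h.le hx)).1 hx y hy

theorem of_mem_right (h : IsForm B ω) {x y : S} (hx : x ∈ jacobson S) (hy : y ∈ B) :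
    ω x y = 1 := by
  have h1 := h.skew hx (h.le hy)
  rw [h.of_mem_left hy hx, mul_one] at h1
  exact h1

end IsForm

/-- the part of `J` belonging to the component `i` -/
def comp (W : Wedd S) (B : Ideal S) [B.IsTwoSided]
    (hsq : ∀ x ∈ jacobson S, ∀ y ∈ jacobson S, x * y ∈ B) (i : Fin W.n) : Ideal S where
  carrier := {x | x ∈ jacobson S ∧ x - W.c i * x * W.c i ∈ B}
  add_mem' := by
    rintro a b ⟨ha, ha'⟩ ⟨hb, hb'⟩
    refine ⟨add_mem ha hb, ?_⟩
    have h1 : a + b - W.c i * (a + b) * W.c i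
        = (a - W.c i * a * W.c i) + (b - W.c i * b * W.c i) := by noncomm_ring
    rw [h1]
    exact B.add_mem ha' hb'
  zero_mem' := ⟨zero_mem _, by simp⟩
  smul_mem' := by
    rintro s a ⟨ha, ha'⟩
    refine ⟨Ideal.mul_mem_left _ _ ha, ?_⟩
    have h1 : s • a - W.c i * (s • a) * W.c i
        = s * (a - W.c i * a * W.c i) + ((s * W.c i - W.c i * s) * a) * W.c i := by
      rw [smul_eq_mul]; noncomm_ring
    rw [h1]
    exact B.add_mem (B.mul_mem_left _ ha')
      (B.mul_mem_right _ (hsq _ (W.c_comm i s) _ ha))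

theorem mem_comp {W : Wedd S} {B : Ideal S} [B.IsTwoSided]
    {hsq : ∀ x ∈ jacobson S, ∀ y ∈ jacobson S, x * y ∈ B} {i : Fin W.n} {x : S} :
    x ∈ comp W B hsq i ↔ x ∈ jacobson S ∧ x - W.c i * x * W.c i ∈ B := Iff.rfl

instance comp_isTwoSided (W : Wedd S) (B : Ideal S) [B.IsTwoSided]
    (hsq : ∀ x ∈ jacobson S, ∀ y ∈ jacobson S, x * y ∈ B) (i : Fin W.n) :
    (comp W B hsq i).IsTwoSided where
  mul_mem_of_left := by
    rintro a s ⟨ha, ha'⟩
    refine ⟨Ideal.mul_mem_right _ _ ha, ?_⟩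
    have h1 : a * s - W.c i * (a * s) * W.c i
        = (a - W.c i * a * W.c i) * s - W.c i * (a * (s * W.c i - W.c i * s)) := by
      noncomm_ring
    rw [h1]
    exact B.sub_mem (B.mul_mem_right _ ha')
      (B.mul_mem_left _ (hsq _ ha _ (W.c_comm i s)))

theorem comp_le (W : Wedd S) (B : Ideal S) [B.IsTwoSided]
    (hsq : ∀ x ∈ jacobson S, ∀ y ∈ jacobson S, x * y ∈ B) (i : Fin W.n) :
    comp W B hsq i ≤ jacobson S := fun _ h => h.1

theorem le_comp (W : Wedd S) (B : Ideal S) [B.IsTwoSided] (hB : B ≤ jacobson S)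
    (hsq : ∀ x ∈ jacobson S, ∀ y ∈ jacobson S, x * y ∈ B) (i : Fin W.n) :
    B ≤ comp W B hsq i := fun _ hx =>
  ⟨hB hx, B.sub_mem hx (B.mul_mem_right _ (B.mul_mem_left _ hx))⟩

/-- the elements of `comp i` on which the scalars act by `x c = σ(c) x` modulo `B` -/
def eig (W : Wedd S) (B : Ideal S) [B.IsTwoSided]
    (hsq : ∀ x ∈ jacobson S, ∀ y ∈ jacobson S, x * y ∈ B) (i : Fin W.n)
    (σ : W.F i →+* W.F i) : Ideal S where
  carrier := {x | x ∈ comp W B hsq i ∧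
    ∀ (c : W.F i) (s s' : S), W.IsSc i c s → W.IsSc i (σ c) s' → x * s - s' * x ∈ B}
  add_mem' := by
    rintro a b ⟨ha, ha'⟩ ⟨hb, hb'⟩
    refine ⟨add_mem ha hb, fun c s s' hs hs' => ?_⟩
    have h1 : (a + b) * s - s' * (a + b) = (a * s - s' * a) + (b * s - s' * b) := by
      noncomm_ring
    rw [h1]
    exact B.add_mem (ha' c s s' hs hs') (hb' c s s' hs hs')
  zero_mem' := ⟨zero_mem _, by simp⟩
  smul_mem' := by
    rintro r a ⟨ha, ha'⟩
    refine ⟨Ideal.mul_mem_left _ _ ha, fun c s s' hs hs' => ?_⟩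
    have h1 : (r • a) * s - s' * (r • a)
        = r * (a * s - s' * a) + (r * s' - s' * r) * a := by
      rw [smul_eq_mul]; noncomm_ring
    rw [h1]
    exact B.add_mem (B.mul_mem_left _ (ha' c s s' hs hs')) (hsq _ (hs'.comm W r) _ ha.1)

theorem mem_eig {W : Wedd S} {B : Ideal S} [B.IsTwoSided]
    {hsq : ∀ x ∈ jacobson S, ∀ y ∈ jacobson S, x * y ∈ B} {i : Fin W.n}
    {σ : W.F i →+* W.F i} {x : S} :
    x ∈ eig W B hsq i σ ↔ x ∈ comp W B hsq i ∧
      ∀ (c : W.F i) (s s' : S), W.IsSc i c s → W.IsSc i (σ c) s' → x * s - s' * x ∈ B := Iff.rfl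

instance eig_isTwoSided (W : Wedd S) (B : Ideal S) [B.IsTwoSided]
    (hsq : ∀ x ∈ jacobson S, ∀ y ∈ jacobson S, x * y ∈ B) (i : Fin W.n)
    (σ : W.F i →+* W.F i) : (eig W B hsq i σ).IsTwoSided where
  mul_mem_of_left := by
    rintro a r ⟨ha, ha'⟩
    refine ⟨Ideal.mul_mem_right _ _ ha, fun c s s' hs hs' => ?_⟩
    have h1 : (a * r) * s - s' * (a * r)
        = (a * s - s' * a) * r + a * (r * s - s * r) := by
      noncomm_ring
    rw [h1]
    exact B.add_mem (B.mul_mem_right _ (ha' c s s' hs hs')) (hsq _ ha.1 _ (hs.comm W r))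

theorem le_eig (W : Wedd S) (B : Ideal S) [B.IsTwoSided] (hB : B ≤ jacobson S)
    (hsq : ∀ x ∈ jacobson S, ∀ y ∈ jacobson S, x * y ∈ B) (i : Fin W.n)
    (σ : W.F i →+* W.F i) : B ≤ eig W B hsq i σ := fun _ hx =>
  ⟨le_comp W B hB hsq i hx, fun _ _ _ _ _ =>
    B.sub_mem (B.mul_mem_right _ hx) (B.mul_mem_left _ hx)⟩

end URingR
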