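import Pool.Agent.URingR.Stab

/-!
# R2(a), (b). The ideal `B(χ)`
-/

namespace URingR

universe u v

variable {S : Type u} [Ring S] {M : Type v} [CommGroup M]

/-- `K ≤ L ≤ J` two-sided ideals with `J L ≤ K` and `L J ≤ K` (for instance `L = J ^ n`,
`K = J ^ (n + 1)`). -/
structure Step (K L : Ideal S) : Prop where
  KL : K ≤ L
  LJ : L ≤ Ring.jacobson S
  mul_left : ∀ a ∈ Ring.jacobson S, ∀ y ∈ L, a * y ∈ K
  mul_right : ∀ y ∈ L, ∀ a ∈ Ring.jacobson S, y * a ∈ K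

variable {K L : Ideal S}

theorem Step.KJ (h : Step K L) : K ≤ Ring.jacobson S := h.KL.trans h.LJ

variable [K.IsTwoSided] [L.IsTwoSided]

/-- the ideal `B = { a ∈ J : χ(1+ay) = χ(1+ya) for all y ∈ L }` -/
def bid (h : Step K L) (χ : oneAdd K →* M) (hχ : stab h.KJ χ = ⊤) : Ideal S where
  carrier := {a | a ∈ Ring.jacobson S ∧ ∀ y ∈ L, ev χ (a * y) = ev χ (y * a)}
  add_mem' := by
    rintro a b ⟨ha, ha'⟩ ⟨hb, hb'⟩
    refine ⟨add_mem ha hb, fun y hy => ?_⟩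
    refine ev_add_aux h.KJ χ a b y (h.mul_left a ha y hy) (h.mul_right y hy a ha)
      (h.mul_left b hb y hy) (h.mul_right y hy b hb) (ha' y hy) ?_
    intro w _
    exact hb' _ (L.mul_mem_left _ hy)
  zero_mem' := ⟨zero_mem _, by intro y _; rw [zero_mul, mul_zero]⟩
  smul_mem' := by
    rintro s a ⟨ha, ha'⟩
    refine ⟨Ideal.mul_mem_left _ _ ha, fun y hy => ?_⟩
    have hs : s ∈ stab h.KJ χ := by rw [hχ]; exact Subring.mem_top _
    have h1 := hs (a * y) (h.mul_left a ha y hy)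
    rw [smul_eq_mul, mul_assoc, h1, mul_assoc, ha' (y * s) (L.mul_mem_right _ hy), mul_assoc]

theorem mem_bid (h : Step K L) (χ : oneAdd K →* M) (hχ : stab h.KJ χ = ⊤) {a : S} :
    a ∈ bid h χ hχ ↔ a ∈ Ring.jacobson S ∧ ∀ y ∈ L, ev χ (a * y) = ev χ (y * a) := Iff.rfl

instance bid_isTwoSided (h : Step K L) (χ : oneAdd K →* M) (hχ : stab h.KJ χ = ⊤) :
    (bid h χ hχ).IsTwoSided where
  mul_mem_of_left := by
    rintro a s ⟨ha, ha'⟩
    refine ⟨Ideal.mul_mem_right _ _ ha, fun y hy => ?_⟩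
    have hs : s ∈ stab h.KJ χ := by rw [hχ]; exact Subring.mem_top _
    have h1 := hs (y * a) (h.mul_right y hy a ha)
    rw [mul_assoc, ha' (s * y) (L.mul_mem_left _ hy), mul_assoc, h1, mul_assoc]

theorem bid_le (h : Step K L) (χ : oneAdd K →* M) (hχ : stab h.KJ χ = ⊤) :
    bid h χ hχ ≤ Ring.jacobson S := fun _ ha => ha.1

/-- R2(a): `J² ≤ B`. -/
theorem mul_mem_bid (h : Step K L) (χ : oneAdd K →* M) (hχ : stab h.KJ χ = ⊤) {b c : S}
    (hb : b ∈ Ring.jacobson S) (hc : c ∈ Ring.jacobson S) : b * c ∈ bid h χ hχ := by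
  refine ⟨Ideal.mul_mem_left _ _ hc, fun y hy => ?_⟩
  have hs : ∀ s : S, s ∈ stab h.KJ χ := fun s => by rw [hχ]; exact Subring.mem_top _
  have h1 := hs b (c * y) (h.mul_left c hc y hy)
  have h2 := hs c (y * b) (h.mul_right y hy b hb)
  rw [mul_assoc, h1, mul_assoc, h2, mul_assoc]

/-- `K ≤ B` when `K` is contained in the radical: elements of `K` commute with everything under
`χ`. -/
theorem K_le_bid (h : Step K L) (χ : oneAdd K →* M) (hχ : stab h.KJ χ = ⊤) :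
    K ≤ bid h χ hχ := by
  intro a ha
  refine ⟨h.KJ ha, fun y _ => ?_⟩
  have hs : y ∈ stab h.KJ χ := by rw [hχ]; exact Subring.mem_top _
  exact (hs a ha).symm

end URingR
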