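import Pool.Agent.URingR.Cmt1

/-!
# R2(e). The form (module CMT2)
-/

namespace URingR

universe u v

variable {S : Type u} [Ring S] {M : Type v} [CommGroup M]

open Ring (jacobson)

section

variable {K : Ideal S} [K.IsTwoSided] (h : Step K (jacobson S)) (χ : oneAdd K →* M)

/-- `χ` of the commutator -/
private def cmt2C (a b : oneAdd (jacobson S)) : M :=
  χ ⟨(a : Sˣ) * b * (a : Sˣ)⁻¹ * (b : Sˣ)⁻¹, comm_mem h a.2 b.2⟩

private theorem cmt2C_mul (hχ : stab h.KJ χ = ⊤) (a a' b : oneAdd (jacobson S)) :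
    cmt2C h χ (a * a') b = cmt2C h χ a b * cmt2C h χ a' b := by
  have h1 : cmt2C h χ a' b = χ (conjE (a : Sˣ)
      ⟨(a' : Sˣ) * b * (a' : Sˣ)⁻¹ * (b : Sˣ)⁻¹, comm_mem h a'.2 b.2⟩) :=
    (conj_of_stab_top h.KJ χ hχ (a : Sˣ) _).symm
  rw [h1, mul_comm, cmt2C, cmt2C, ← map_mul]
  congr 1
  apply Subtype.ext
  simp only [conjE, Subgroup.coe_mul]
  group

private theorem cmt2C_swap (a b : oneAdd (jacobson S)) :
    cmt2C h χ b a = (cmt2C h χ a b)⁻¹ := by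
  rw [cmt2C, cmt2C, ← map_inv]
  congr 1
  apply Subtype.ext
  simp only [Subgroup.coe_inv]
  group

private theorem cmt2C_bid (hχ : stab h.KJ χ = ⊤) (a b : oneAdd (jacobson S))
    (ha : (a : Sˣ) ∈ oneAdd (bid h χ hχ)) : cmt2C h χ a b = 1 :=
  comm_bid h χ hχ ha b.2

/-- dependence on the class modulo `B` -/
private theorem cmt2C_congr (hχ : stab h.KJ χ = ⊤) (a a' b : oneAdd (jacobson S))
    (haa : ((a : Sˣ) : S) - ((a' : Sˣ) : S) ∈ bid h χ hχ) : cmt2C h χ a b = cmt2C h χ a' b := by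
  have h1 : a = (a * a'⁻¹) * a' := by rw [inv_mul_cancel_right]
  rw [h1, cmt2C_mul h χ hχ, cmt2C_bid h χ hχ, one_mul]
  have h2 : (((a * a'⁻¹ : oneAdd (jacobson S)) : Sˣ) : S) - 1 =
      (((a : Sˣ) : S) - ((a' : Sˣ) : S)) * (((a' : Sˣ)⁻¹ : Sˣ) : S) := by
    rw [sub_mul, Units.mul_inv]
    rfl
  rw [mem_oneAdd, h2]
  exact (bid h χ hχ).mul_mem_right _ haa

private theorem cmt2C_congr' (hχ : stab h.KJ χ = ⊤) (a b b' : oneAdd (jacobson S))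
    (hbb : ((b : Sˣ) : S) - ((b' : Sˣ) : S) ∈ bid h χ hχ) : cmt2C h χ a b = cmt2C h χ a b' := by
  rw [cmt2C_swap h χ b a, cmt2C_swap h χ b' a, cmt2C_congr h χ hχ b b' a hbb]

/-- the formula for the commutators -/
private theorem cmt2C_omega (hχ : stab h.KJ χ = ⊤) (a b : oneAdd (jacobson S)) :
    cmt2C h χ a b = omega χ (((a : Sˣ) : S) - 1) (((b : Sˣ) : S) - 1) := by
  obtain ⟨y, hy⟩ : ∃ y : S, y = ((b : Sˣ) : S) - 1 := ⟨_, rfl⟩
  have hyJ : y ∈ jacobson S := hy ▸ b.2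
  obtain ⟨x, hx⟩ : ∃ x : S, x = ((a : Sˣ) : S) - 1 := ⟨_, rfl⟩
  have hxJ : x ∈ jacobson S := hx ▸ a.2
  have ha : ((a : Sˣ) : S) = 1 + x := by rw [hx]; abel
  have hb : ((b : Sˣ) : S) = 1 + y := by rw [hy]; abel
  obtain ⟨w, hw⟩ := exists_oneAdd (I := jacobson S) le_rfl ((jacobson S).neg_mem hyJ)
  have hw' : ((w : Sˣ) : S) = 1 - y := by rw [hw]; abel
  have hwi : (((w : Sˣ)⁻¹ : Sˣ) : S) * (1 - y) = 1 := by rw [← hw', Units.inv_mul]
  have hiw : (1 - y) * (((w : Sˣ)⁻¹ : Sˣ) : S) = 1 := by rw [← hw', Units.mul_inv]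
  -- the auxiliary element
  have hzJ : (((w : Sˣ)⁻¹ : Sˣ) : S) * y * (1 + x) ∈ jacobson S :=
    (jacobson S).mul_mem_right _ ((jacobson S).mul_mem_left _ hyJ)
  obtain ⟨b', hb'⟩ := exists_oneAdd (I := jacobson S) le_rfl hzJ
  have ht : ((((w : Sˣ)⁻¹ * (a : Sˣ)) : Sˣ) : S) = ((a : Sˣ) : S) + ((b' : Sˣ) : S) - 1 := by
    rw [Units.val_mul, ha, hb']
    have e1 : (((w : Sˣ)⁻¹ : Sˣ) : S) = 1 + (((w : Sˣ)⁻¹ : Sˣ) : S) * y := by
      have : (((w : Sˣ)⁻¹ : Sˣ) : S) * (1 - y) =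
          (((w : Sˣ)⁻¹ : Sˣ) : S) - (((w : Sˣ)⁻¹ : Sˣ) : S) * y := by noncomm_ring
      rw [this, sub_eq_iff_eq_add] at hwi
      exact hwi
    calc (((w : Sˣ)⁻¹ : Sˣ) : S) * (1 + x)
        = (1 + (((w : Sˣ)⁻¹ : Sˣ) : S) * y) * (1 + x) := by rw [← e1]
      _ = _ := by noncomm_ring
  have hc := comm_formula h χ hχ a.2 b'.2 ((w : Sˣ)⁻¹ * (a : Sˣ)) ht
  have hyt : (((b' : Sˣ) : S) - 1) * (((((w : Sˣ)⁻¹ * (a : Sˣ))⁻¹ : Sˣ)) : S) = y := by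
    rw [hb', mul_inv_rev, inv_inv, Units.val_mul, hw', add_sub_cancel_left]
    have e2 : (((w : Sˣ)⁻¹ : Sˣ) : S) * y * (1 + x) * ((((a : Sˣ)⁻¹ : Sˣ) : S) * (1 - y)) =
        (((w : Sˣ)⁻¹ : Sˣ) : S) * y * (((1 + x) * (((a : Sˣ)⁻¹ : Sˣ) : S)) * (1 - y)) := by
      noncomm_ring
    rw [e2, ← ha, Units.mul_inv, one_mul]
    have e3 : (((w : Sˣ)⁻¹ : Sˣ) : S) * y * (1 - y) =
        ((((w : Sˣ)⁻¹ : Sˣ) : S) * (1 - y)) * y := by noncomm_ring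
    rw [e3, hwi, one_mul]
  rw [hyt] at hc
  have hcc : cmt2C h χ a b' = omega χ x y := by
    rw [cmt2C, hc, omega, ← hx]
  rw [← hx, ← hy, ← hcc]
  apply cmt2C_congr' h χ hχ
  have e4 : ((b : Sˣ) : S) - ((b' : Sˣ) : S) =
      -(y * x + (((w : Sˣ)⁻¹ : Sˣ) : S) * (y * y) * (1 + x)) := by
    have e5 : (((w : Sˣ)⁻¹ : Sˣ) : S) * y = y + (((w : Sˣ)⁻¹ : Sˣ) : S) * (y * y) := by
      have : (((w : Sˣ)⁻¹ : Sˣ) : S) * y - (((w : Sˣ)⁻¹ : Sˣ) : S) * (y * y) =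
          ((((w : Sˣ)⁻¹ : Sˣ) : S) * (1 - y)) * y := by noncomm_ring
      rw [hwi, one_mul, sub_eq_iff_eq_add] at this
      exact this
    rw [hb, hb', e5]
    noncomm_ring
  rw [e4]
  refine (bid h χ hχ).neg_mem ((bid h χ hχ).add_mem (mul_mem_bid h χ hχ hyJ hxJ) ?_)
  exact (bid h χ hχ).mul_mem_right _ ((bid h χ hχ).mul_mem_left _ (mul_mem_bid h χ hχ hyJ hyJ))

private theorem cmt2_add (hχ : stab h.KJ χ = ⊤) {x x' y : S} (hx : x ∈ jacobson S)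
    (hx' : x' ∈ jacobson S) (hy : y ∈ jacobson S) :
    omega χ (x + x') y = omega χ x y * omega χ x' y := by
  obtain ⟨a, ha⟩ := exists_oneAdd (I := jacobson S) le_rfl hx
  obtain ⟨a', ha'⟩ := exists_oneAdd (I := jacobson S) le_rfl hx'
  obtain ⟨d, hd⟩ := exists_oneAdd (I := jacobson S) le_rfl ((jacobson S).add_mem hx hx')
  obtain ⟨b, hb⟩ := exists_oneAdd (I := jacobson S) le_rfl hy
  have e : ∀ (c : oneAdd (jacobson S)) (z : S), ((c : Sˣ) : S) = 1 + z →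
      ((c : Sˣ) : S) - 1 = z := fun c z hc => by rw [hc]; abel
  have h1 := cmt2C_omega h χ hχ a b
  have h2 := cmt2C_omega h χ hχ a' b
  have h3 := cmt2C_omega h χ hχ d b
  rw [e a x ha, e b y hb] at h1
  rw [e a' x' ha', e b y hb] at h2
  rw [e d _ hd, e b y hb] at h3
  rw [← h1, ← h2, ← h3, ← cmt2C_mul h χ hχ]
  apply cmt2C_congr h χ hχ
  have e4 : ((d : Sˣ) : S) - (((a * a' : oneAdd (jacobson S)) : Sˣ) : S) = -(x * x') := by
    rw [Subgroup.coe_mul, Units.val_mul, hd, ha, ha']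
    noncomm_ring
  rw [e4]
  exact (bid h χ hχ).neg_mem (mul_mem_bid h χ hχ hx hx')

end

private theorem cmt2_swap {K : Ideal S} [K.IsTwoSided] (χ : oneAdd K →* M) (x y : S) :
    omega χ y x = (omega χ x y)⁻¹ := by
  rw [omega, omega, mul_inv, inv_inv, mul_comm]

/-- **R2(e).** Here `L = J`. The form `ω` is bimultiplicative, alternating, nondegenerate on
`J / B`, with `ω(sx, y) = ω(x, ys)`, `ω(xs, y) = ω(x, sy)`, and
`ω(x, y) = χ([1+x, 1+y])`.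

Proof. Let `c(x,y) = χ([1+x,1+y])` (`x, y ∈ J`). `comm_bid` (also with the roles exchanged:
`[v,u] = [u,v]⁻¹`) says that `1 + B` commutes with `1 + J` modulo `ker χ`. The commutator identities
`[ab, c] = a [b,c] a⁻¹ [a,c]` and `χ` invariant under conjugation give: `c` is multiplicative in
`u = 1+x` and in `v = 1+y`. As `(1+x)(1+x') = (1+b)(1+x+x')` with `b ∈ B` (since
`x x' ∈ J² ≤ B`) `c` is additive in `x` and in `y`, and it depends only on `x, y` modulo `B`.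
Given `x, y₀ ∈ J` apply `comm_formula` to `u = 1+x`, `v = 1 + y`, `y = (1-y₀)⁻¹ y₀ (1+x)`:
`1 + x + y = (1-y₀)⁻¹ (1+x)`, so `y' = y (1+x+y)⁻¹ = y₀`. Hence `omega χ x y₀ = c(x, y)`, and
`y - y₀ ∈ J² ≤ B`, so `= c(x, y₀)`. This gives the last clause, then `add_left`, `add_right`,
`self`. `smul`: `χ(1+(sx)y) = χ(1+(xy)s)` and `χ(1+y(sx)) = χ(1+(ys)x)` (definition of
`T(χ) = S` for `xy ∈ K`); `smul'`: `χ(1+(yx)s) = χ(1+s(yx))`. `mem_iff` is the definition of `B`. -/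
theorem isForm_omega {K : Ideal S} [K.IsTwoSided] (h : Step K (jacobson S)) (χ : oneAdd K →* M)
    (hχ : stab h.KJ χ = ⊤) :
    IsForm (bid h χ hχ) (omega χ) ∧
      ∀ (u v : Sˣ) (hu : u ∈ oneAdd (jacobson S)) (hv : v ∈ oneAdd (jacobson S)),
        χ ⟨u * v * u⁻¹ * v⁻¹, comm_mem h hu hv⟩ = omega χ ((u : S) - 1) ((v : S) - 1) := by
  have hs : ∀ s : S, s ∈ stab h.KJ χ := fun s => by rw [hχ]; exact Subring.mem_top _
  refine ⟨⟨bid_le h χ hχ, fun x hx y hy => mul_mem_bid h χ hχ hx hy, ?_, ?_, ?_, ?_, ?_, ?_⟩, ?_⟩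
  · intro x hx x' hx' y hy
    exact cmt2_add h χ hχ hx hx' hy
  · intro x hx y hy y' hy'
    rw [cmt2_swap χ (y + y') x, cmt2_swap χ y x, cmt2_swap χ y' x, cmt2_add h χ hχ hy hy' hx,
      mul_inv]
  · intro x _
    rw [omega, mul_inv_cancel]
  · intro s x hx y hy
    rw [omega, omega, mul_assoc s x y, hs s (x * y) (h.mul_left _ hx _ hy), mul_assoc x y s,
      mul_assoc y s x]
  · intro s x hx y hy
    rw [omega, omega, mul_assoc x s y, ← mul_assoc y x s, ← hs s (y * x) (h.mul_left _ hy _ hx),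
      mul_assoc s y x]
  · intro x hx
    rw [mem_bid]
    constructor
    · rintro ⟨_, h1⟩ y hy
      rw [omega, h1 y hy, mul_inv_cancel]
    · intro h1
      refine ⟨hx, fun y hy => ?_⟩
      have := h1 y hy
      rwa [omega, mul_inv_eq_one] at this
  · intro u v hu hv
    exact cmt2C_omega h χ hχ ⟨u, hu⟩ ⟨v, hv⟩

end URingR
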