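import Pool.Agent.URingR.Stab

/-!
# R3(b). The groups `G_e` and the Schur complement
-/

namespace URingR

universe u v

variable {S : Type u} [Ring S] {M : Type v} [CommGroup M]

open Ring (jacobson)

/-- `G_e`: the units `u` with `u = e u e + (1 - e)`, written as `(1-e) u = 1-e = u (1-e)`. -/
def cg (e : S) : Subgroup Sˣ where
  carrier := {u | (1 - e) * (u : S) = 1 - e ∧ (u : S) * (1 - e) = 1 - e}
  mul_mem' := by
    rintro a b ⟨ha, ha'⟩ ⟨hb, hb'⟩
    refine ⟨?_, ?_⟩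
    · rw [Units.val_mul, ← mul_assoc, ha, hb]
    · rw [Units.val_mul, mul_assoc, hb', ha']
  one_mem' := by simp
  inv_mem' := by
    rintro a ⟨ha, ha'⟩
    refine ⟨?_, ?_⟩
    · rw [← ha, mul_assoc, Units.mul_inv, mul_one, ha]
    · rw [← ha', ← mul_assoc, Units.inv_mul, one_mul, ha']

theorem mem_cg {e : S} {u : Sˣ} :
    u ∈ cg e ↔ (1 - e) * (u : S) = 1 - e ∧ (u : S) * (1 - e) = 1 - e := Iff.rfl

theorem mem_cg_one (u : Sˣ) : u ∈ cg (1 : S) := by simp [mem_cg]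

theorem cg_zero {u : Sˣ} (hu : u ∈ cg (0 : S)) : u = 1 := by
  apply Units.ext
  simpa [mem_cg] using hu.1

/-- `χ` restricted to `G_e ∩ (1 + J)` extends to `G_e`. -/
def Claim (χ : oneAdd (jacobson S) →* M) (e : S) : Prop :=
  ∃ f : cg e →* M, ∀ (u : Sˣ) (hu : u ∈ cg e) (hJ : u ∈ oneAdd (jacobson S)),
    f ⟨u, hu⟩ = χ ⟨u, hJ⟩

theorem claim_zero (χ : oneAdd (jacobson S) →* M) : Claim χ (0 : S) := by
  refine ⟨1, fun u hu hJ => ?_⟩
  have h := cg_zero hu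
  subst h
  have : (⟨1, hJ⟩ : oneAdd (jacobson S)) = 1 := rfl
  rw [this, map_one, MonoidHom.one_apply]

theorem exists_of_claim_one {χ : oneAdd (jacobson S) →* M} (h : Claim χ (1 : S)) :
    ∃ F : Sˣ →* M, ∀ n : oneAdd (jacobson S), F n = χ n := by
  obtain ⟨f, hf⟩ := h
  refine ⟨f.comp ((MonoidHom.id Sˣ).codRestrict (cg (1 : S)) mem_cg_one), fun n => ?_⟩
  exact hf n (mem_cg_one _) n.2

end URingR
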