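import Pool.Agent.URingR.Corner

/-!
# R3(b). The Schur complement is multiplicative (module SCH1: exists_ldu, ldu_unique)

`e', e''` are orthogonal idempotents. `IsOff a b u` says `u = 1 + a u b`-shaped:
`u - 1 ∈ a S b`. Lower elements: `IsOff e'' e' v`, `v - 1 ∈ J`; upper elements: `IsOff e' e'' w`.
-/

set_option linter.unusedSimpArgs false
set_option linter.unusedVariables false

namespace URingR

universe u v

variable {S : Type u} [Ring S] {M : Type v} [CommGroup M]

open Ring (jacobson)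

/-- `u - 1 ∈ a S b` -/
def IsOff (a b : S) (u : Sˣ) : Prop := a * ((u : S) - 1) * b = (u : S) - 1

/-- the corner inverse of `e' u e'` -/
private theorem sch1_inv [Finite S] {e' f : S} (h1 : e' * e' = e')
    (hef : e' * f = 0) (hfe : f * e' = 0) (u : Sˣ)
    (hfu : f * (u : S) = f) (huf : (u : S) * f = f)
    (hJ : (1 - e' - f) * (u : S) * e' ∈ jacobson S) :
    ∃ q : S, e' * q = q ∧ q * e' = q ∧ e' * ((u : S) * q) = e' ∧ q * ((u : S) * e') = e' := by
  set x : S := (u : S) with hx
  set x' : S := ((u⁻¹ : Sˣ) : S) with hx'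
  have hx'x : x' * x = 1 := Units.inv_mul u
  -- left inverse modulo J
  have hZA : (e' * x' * e' + (1 - e')) * (e' * x * e' + (1 - e'))
      = 1 + -(e' * x' * ((1 - e' - f) * x * e')) := by
    have hfx : f * x * e' = 0 := by rw [hfu, hfe]
    have h3 : e' * x' * ((1 - e' - f) * x * e') = e' - e' * x' * e' * x * e' := by
      have : (1 - e' - f) * x * e' = x * e' - e' * x * e' - f * x * e' := by noncomm_ring
      rw [this, hfx, sub_zero, mul_sub]
      have h4 : e' * x' * (x * e') = e' := by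
        rw [mul_assoc, ← mul_assoc x', hx'x, one_mul, h1]
      rw [h4]
      simp only [mul_assoc]
    rw [h3]
    have h5 : (e' * x' * e' + (1 - e')) * (e' * x * e' + (1 - e'))
        = e' * x' * (e' * e') * x * e' + (e' * x' * e' - e' * x' * (e' * e'))
          + (e' - e' * e') * x * e' + (1 - e' - e' + e' * e') := by noncomm_ring
    rw [h5, h1]
    noncomm_ring
  obtain ⟨t, ht⟩ := exists_oneAdd (I := jacobson S) le_rfl
    (a := -(e' * x' * ((1 - e' - f) * x * e')))
    (neg_mem (Ideal.mul_mem_left _ _ hJ))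
  rw [← ht] at hZA
  have hZA1 : (((t : Sˣ)⁻¹ : Sˣ) : S) * (e' * x' * e' + (1 - e')) * (e' * x * e' + (1 - e'))
      = 1 := by
    rw [mul_assoc, hZA, Units.inv_mul]
  obtain ⟨p, hp⟩ : ∃ p : S, p = (((t : Sˣ)⁻¹ : Sˣ) : S) * (e' * x' * e' + (1 - e')) := ⟨_, rfl⟩
  rw [← hp] at hZA1
  have hAp : (e' * x * e' + (1 - e')) * p = 1 := mul_eq_one_symm hZA1
  -- `p` commutes with `e'`
  have heA : e' * (e' * x * e' + (1 - e')) = e' * x * e' := by
    have : e' * (e' * x * e' + (1 - e')) = (e' * e') * x * e' + (e' - e' * e') := by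
      noncomm_ring
    rw [this, h1]; simp
  have hAe : (e' * x * e' + (1 - e')) * e' = e' * x * e' := by
    have : (e' * x * e' + (1 - e')) * e' = e' * x * (e' * e') + (e' - e' * e') := by
      noncomm_ring
    rw [this, h1]; simp
  have hpe : p * e' = e' * p := by
    calc p * e' = p * e' * ((e' * x * e' + (1 - e')) * p) := by rw [hAp, mul_one]
      _ = p * (e' * (e' * x * e' + (1 - e'))) * p := by simp only [mul_assoc]
      _ = p * ((e' * x * e' + (1 - e')) * e') * p := by rw [heA, hAe]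
      _ = (p * (e' * x * e' + (1 - e'))) * e' * p := by simp only [mul_assoc]
      _ = e' * p := by rw [hZA1, one_mul]
  refine ⟨e' * p, ?_, ?_, ?_, ?_⟩
  · rw [← mul_assoc, h1]
  · rw [mul_assoc, hpe, ← mul_assoc, h1]
  · calc e' * (x * (e' * p)) = (e' * x * e') * p := by simp only [mul_assoc]
      _ = (e' * (e' * x * e' + (1 - e'))) * p := by rw [heA]
      _ = e' := by rw [mul_assoc, hAp, mul_one]
  · calc e' * p * (x * e') = p * e' * (x * e') := by rw [hpe]
      _ = p * (e' * x * e') := by simp only [mul_assoc]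
      _ = p * ((e' * x * e' + (1 - e')) * e') := by rw [hAe]
      _ = e' := by rw [← mul_assoc, hZA1, one_mul]

/-- **LDU factorisation.** `u ∈ G_(e'+e'')` with `c = e'' u e' ∈ J` is
`v * α * β * w` with `v` lower, `w` upper, `α ∈ G_e'`, `β ∈ G_e''`, `α = e'ue' + (1-e')`.

Proof. `a = e'ue'`, `b = e'ue''`, `d = e''ue''`. As `u = e u e + (1-e)`, `u⁻¹` too (`cg` is a
subgroup), `e' = e' u⁻¹ u e' = (e'u⁻¹e')(e'ue') + e'u⁻¹e''ue'`, `e''ue' ∈ J`, and symmetrically:
so `a + (1-e')` times `e'u⁻¹e' + (1-e')` lies in `1 + J`; elements of `1 + J` are units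
(`exists_oneAdd`), so it has a left inverse. For the right inverse: `e' = e' u u⁻¹ e'
= (e'ue')(e'u⁻¹e') + e'ue''u⁻¹e'`; here `e''u⁻¹e' ∈ J`: modulo `J`, `u` is block upper
triangular; from `e''u⁻¹u e' = 0`: `(e''u⁻¹e')(e'ue') + (e''u⁻¹e'')(e''ue') = 0`, so
`(e''u⁻¹e') a ∈ J` and multiply by the left inverse `z` of `a + (1-e')` ... or simply use that
`S` is finite: a one sided inverse of a unit-shaped element is two sided (a left inverse in a
finite monoid is an inverse). So `a + (1-e')` is a unit `α ∈ G_e'`. Put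
`v = 1 + c α⁻¹` (inverse `1 - c α⁻¹`), `w = 1 + α⁻¹ b` (inverse `1 - α⁻¹ b`), `β = α⁻¹ v⁻¹ u w⁻¹`;
compute `v⁻¹ u w⁻¹ = a + (d - c α⁻¹ b) + (1-e)`. -/
theorem exists_ldu [Finite S] {e' e'' : S} (h1 : e' * e' = e') (h2 : e'' * e'' = e'')
    (h12 : e' * e'' = 0) (h21 : e'' * e' = 0) (u : Sˣ) (hu : u ∈ cg (e' + e''))
    (hJ : e'' * (u : S) * e' ∈ jacobson S) :
    ∃ v w α β : Sˣ, IsOff e'' e' v ∧ v ∈ oneAdd (jacobson S) ∧ IsOff e' e'' w ∧
      α ∈ cg e' ∧ β ∈ cg e'' ∧ (α : S) = e' * (u : S) * e' + (1 - e') ∧ u = v * α * β * w := by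
  obtain ⟨f, hf⟩ : ∃ f, f = 1 - e' - e'' := ⟨_, rfl⟩
  have he : e'' = 1 - e' - f := by rw [hf]; abel
  have hef : e' * f = 0 := by rw [hf, mul_sub, mul_sub, mul_one, h1, h12]; simp
  have hfe : f * e' = 0 := by rw [hf, sub_mul, sub_mul, one_mul, h1, h21]; simp
  have hff : f * f = f := by
    have : f * e'' = 0 := by rw [hf, sub_mul, sub_mul, one_mul, h2, h12]; simp
    conv_lhs => rw [show f * f = f * (1 - e' - e'') by rw [← hf]]
    rw [mul_sub, mul_sub, mul_one, hfe, this]; simp
  have hs : 1 - (e' + e'') = f := by rw [hf]; abel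
  obtain ⟨hfu, huf⟩ := hu
  rw [hs] at hfu huf
  clear hs hf
  subst he
  obtain ⟨q, hq1, hq2, hq3, hq4⟩ := sch1_inv h1 hef hfe u hfu huf hJ
  set x : S := (u : S) with hx
  have hqf : q * f = 0 := by rw [← hq2, mul_assoc, hef, mul_zero]
  have hfq : f * q = 0 := by rw [← hq1, ← mul_assoc, hfe, zero_mul]
  have hquq : q * (x * q) = q := by
    conv_lhs => rw [← hq1]
    rw [show e' * q * (x * (e' * q)) = e' * ((q * (x * e')) * q) by simp only [mul_assoc],
      hq4, ← mul_assoc, h1, hq1]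
  -- cut versions
  have k1 : ∀ y, e' * (e' * y) = e' * y := fun y => by rw [← mul_assoc, h1]
  have k2 : ∀ y, e' * (f * y) = 0 := fun y => by rw [← mul_assoc, hef, zero_mul]
  have k3 : ∀ y, f * (e' * y) = 0 := fun y => by rw [← mul_assoc, hfe, zero_mul]
  have k4 : ∀ y, f * (f * y) = f * y := fun y => by rw [← mul_assoc, hff]
  have k5 : ∀ y, f * (x * y) = f * y := fun y => by rw [← mul_assoc, hfu]
  have k6 : ∀ y, x * (f * y) = f * y := fun y => by rw [← mul_assoc, huf]
  have k7 : ∀ y, e' * (q * y) = q * y := fun y => by rw [← mul_assoc, hq1]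
  have k8 : ∀ y, q * (e' * y) = q * y := fun y => by rw [← mul_assoc, hq2]
  have k9 : ∀ y, e' * (x * (q * y)) = e' * y := fun y => by
    rw [← mul_assoc x, ← mul_assoc, hq3]
  have k10 : ∀ y, q * (x * (e' * y)) = e' * y := fun y => by
    rw [← mul_assoc x, ← mul_assoc, hq4]
  have k11 : ∀ y, q * (f * y) = 0 := fun y => by rw [← mul_assoc, hqf, zero_mul]
  have k12 : ∀ y, f * (q * y) = 0 := fun y => by rw [← mul_assoc, hfq, zero_mul]
  have k13 : ∀ y, q * (x * (q * y)) = q * y := fun y => by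
    rw [← mul_assoc x, ← mul_assoc, hquq]
  -- the units
  have hα1 : (e' * x * e' + (1 - e')) * (q + (1 - e')) = 1 := by
    simp only [mul_add, add_mul, mul_sub, sub_mul, mul_assoc, mul_one, one_mul, h1, hq1, hq2, hq3,
      hq4, k1, k7, k8]
    abel
  have hα2 : (q + (1 - e')) * (e' * x * e' + (1 - e')) = 1 := by
    simp only [mul_add, add_mul, mul_sub, sub_mul, mul_assoc, mul_one, one_mul, h1, hq1, hq2, hq3,
      hq4, k1, k7, k8]
    abel
  have hv1 : (1 + (x * q - e')) * (1 - (x * q - e')) = 1 := by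
    simp only [mul_add, add_mul, mul_sub, sub_mul, mul_assoc, mul_one, one_mul, h1, hq1, hq2, hq3,
      hq4, k1, k7, k8, k9, k13, hquq]
    abel
  have hv2 : (1 - (x * q - e')) * (1 + (x * q - e')) = 1 := by
    simp only [mul_add, add_mul, mul_sub, sub_mul, mul_assoc, mul_one, one_mul, h1, hq1, hq2, hq3,
      hq4, k1, k7, k8, k9, k13, hquq]
    abel
  have hw1 : (1 + (q * x - e')) * (1 - (q * x - e')) = 1 := by
    simp only [mul_add, add_mul, mul_sub, sub_mul, mul_assoc, mul_one, one_mul, h1, hq1, hq2, hq3,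
      hq4, k1, k7, k8, k9, k13, hquq]
    abel
  have hw2 : (1 - (q * x - e')) * (1 + (q * x - e')) = 1 := by
    simp only [mul_add, add_mul, mul_sub, sub_mul, mul_assoc, mul_one, one_mul, h1, hq1, hq2, hq3,
      hq4, k1, k7, k8, k9, k13, hquq]
    abel
  let v : Sˣ := ⟨1 + (x * q - e'), 1 - (x * q - e'), hv1, hv2⟩
  let w : Sˣ := ⟨1 + (q * x - e'), 1 - (q * x - e'), hw1, hw2⟩
  let α : Sˣ := ⟨e' * x * e' + (1 - e'), q + (1 - e'), hα1, hα2⟩
  have hβ : (((α⁻¹ * v⁻¹ * u * w⁻¹ : Sˣ)) : S)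
      = (q + (1 - e')) * (1 - (x * q - e')) * x * (1 - (q * x - e')) := rfl
  refine ⟨v, w, α, α⁻¹ * v⁻¹ * u * w⁻¹, ?_, ?_, ?_, ?_, ?_, rfl, ?_⟩
  · show (1 - e' - f) * (1 + (x * q - e') - 1) * e' = 1 + (x * q - e') - 1
    simp only [mul_add, add_mul, mul_sub, sub_mul, mul_assoc, mul_one, one_mul, h1, hq1, hq2, hq3,
      hq4, k1, k7, k8, k9, k13, hquq, k3, hfe, k5, hfq, k12]
    abel
  · rw [mem_oneAdd]
    show 1 + (x * q - e') - 1 ∈ jacobson S
    have h3 : 1 + (x * q - e') - 1 = ((1 - e' - f) * x * e') * q := by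
      simp only [mul_add, add_mul, mul_sub, sub_mul, mul_assoc, mul_one, one_mul, h1, hq1, hq2,
        hq3, hq4, k1, k7, k8, k9, k13, hquq, k3, hfe, k5, hfq, k12, zero_mul, mul_zero]
      abel
    rw [h3]
    exact Ideal.mul_mem_right _ _ hJ
  · show e' * (1 + (q * x - e') - 1) * (1 - e' - f) = 1 + (q * x - e') - 1
    simp only [mul_add, add_mul, mul_sub, sub_mul, mul_assoc, mul_one, one_mul, h1, hq1, hq2, hq3,
      hq4, k1, k7, k8, k9, k13, hquq, k3, hfe, k5, hfq, k12, hef, huf, hqf]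
    abel
  · rw [mem_cg]
    constructor
    · show (1 - e') * (e' * x * e' + (1 - e')) = 1 - e'
      simp only [mul_add, add_mul, mul_sub, sub_mul, mul_assoc, mul_one, one_mul, h1, k1]
      abel
    · show (e' * x * e' + (1 - e')) * (1 - e') = 1 - e'
      simp only [mul_add, add_mul, mul_sub, sub_mul, mul_assoc, mul_one, one_mul, h1, k1]
      abel
  · rw [mem_cg, hβ]
    constructor
    · simp only [mul_add, add_mul, mul_sub, sub_mul, mul_assoc, mul_one, one_mul, h1, hq1, hq2,
        hq3, hq4, k1, k2, k3, k4, k5, k6, k7, k8, k9, k10, k11, k12, k13, hquq, hfe, hfq, hef, huf,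
        hfu, hqf, hff, mul_zero, zero_mul]
      abel
    · simp only [mul_add, add_mul, mul_sub, sub_mul, mul_assoc, mul_one, one_mul, h1, hq1, hq2,
        hq3, hq4, k1, k2, k3, k4, k5, k6, k7, k8, k9, k10, k11, k12, k13, hquq, hfe, hfq, hef, huf,
        hfu, hqf, hff, mul_zero, zero_mul]
      abel
  · simp only [mul_assoc, mul_inv_cancel_left, inv_mul_cancel, mul_one]

/-- The factors `α`, `β` are unique. Multiply by `e'`, `e''` on both sides:
`e' (v α β w) e' = e'αe'`, `e'(vαβw)e'' = e'α(w-1)`, `e''(vαβw)e' = (v-1)αe'` and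
`e''(vαβw)e'' = (v-1) α (w-1) + e''βe''`. -/
theorem ldu_unique {e' e'' : S} (h1 : e' * e' = e') (h2 : e'' * e'' = e'')
    (h12 : e' * e'' = 0) (h21 : e'' * e' = 0) {v w α β v₁ w₁ α₁ β₁ : Sˣ}
    (hv : IsOff e'' e' v) (hw : IsOff e' e'' w) (hα : α ∈ cg e') (hβ : β ∈ cg e'')
    (hv₁ : IsOff e'' e' v₁) (hw₁ : IsOff e' e'' w₁) (hα₁ : α₁ ∈ cg e') (hβ₁ : β₁ ∈ cg e'')
    (h : v * α * β * w = v₁ * α₁ * β₁ * w₁) : α = α₁ ∧ β = β₁ := by
  have hv0 : (v : S) = 1 + e'' * ((v : S) - 1) * e' := by rw [hv]; abel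
  have hw0 : (w : S) = 1 + e' * ((w : S) - 1) * e'' := by rw [hw]; abel
  have hv10 : (v₁ : S) = 1 + e'' * ((v₁ : S) - 1) * e' := by rw [hv₁]; abel
  have hw10 : (w₁ : S) = 1 + e' * ((w₁ : S) - 1) * e'' := by rw [hw₁]; abel
  -- multiplication rules
  have a1 : ∀ (x : Sˣ), x ∈ cg e' → e'' * (x : S) = e'' ∧ (x : S) * e'' = e'' := by
    intro x hx
    have hx1 := congrArg (fun y => e'' * y) hx.1
    have hx2 := congrArg (fun y => y * e'') hx.2
    simp only [sub_mul, mul_sub, mul_one, one_mul, ← mul_assoc, h21, zero_mul, sub_zero] at hx1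
    simp only [sub_mul, mul_sub, mul_one, one_mul, mul_assoc, h12, mul_zero, sub_zero] at hx2
    exact ⟨hx1, hx2⟩
  have b1 : ∀ (x : Sˣ), x ∈ cg e'' → e' * (x : S) = e' ∧ (x : S) * e' = e' := by
    intro x hx
    have hx1 := congrArg (fun y => e' * y) hx.1
    have hx2 := congrArg (fun y => y * e') hx.2
    simp only [sub_mul, mul_sub, mul_one, one_mul, ← mul_assoc, h12, zero_mul, sub_zero] at hx1
    simp only [sub_mul, mul_sub, mul_one, one_mul, mul_assoc, h21, mul_zero, sub_zero] at hx2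
    exact ⟨hx1, hx2⟩
  have av : ∀ (x : Sˣ), IsOff e'' e' x → e' * (x : S) = e' ∧ (x : S) * e'' = e'' := by
    intro x hx
    have hx0 : (x : S) = 1 + e'' * ((x : S) - 1) * e' := by rw [hx]; abel
    constructor
    · rw [hx0, mul_add, mul_one]
      simp only [← mul_assoc, h12, zero_mul, add_zero]
    · rw [hx0, add_mul, one_mul]
      simp only [mul_assoc, h12, mul_zero, add_zero]
  have aw : ∀ (x : Sˣ), IsOff e' e'' x → e'' * (x : S) = e'' ∧ (x : S) * e' = e' := by
    intro x hx
    have hx0 : (x : S) = 1 + e' * ((x : S) - 1) * e'' := by rw [hx]; abel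
    constructor
    · rw [hx0, mul_add, mul_one]
      simp only [← mul_assoc, h21, zero_mul, add_zero]
    · rw [hx0, add_mul, one_mul]
      simp only [mul_assoc, h21, mul_zero, add_zero]
  have hS : (v : S) * α * β * w = (v₁ : S) * α₁ * β₁ * w₁ := by
    have := congrArg (fun x : Sˣ => (x : S)) h
    simpa only [Units.val_mul] using this
  -- `e' α = e' α₁`
  have key1 : e' * (α : S) * e' = e' * (α₁ : S) * e' := by
    have h3 := congrArg (fun y => e' * y * e') hS
    have e1 : ∀ (v α β w : Sˣ), IsOff e'' e' v → IsOff e' e'' w → α ∈ cg e' → β ∈ cg e'' →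
        e' * ((v : S) * α * β * w) * e' = e' * (α : S) * e' := by
      intro v α β w hv hw hα hβ
      calc e' * ((v : S) * α * β * w) * e' = (e' * v) * (α * (β * (w * e'))) := by
            simp only [mul_assoc]
        _ = e' * (α : S) * e' := by
            rw [(av v hv).1, (aw w hw).2, (b1 β hβ).2, mul_assoc]
    rw [e1 v α β w hv hw hα hβ, e1 v₁ α₁ β₁ w₁ hv₁ hw₁ hα₁ hβ₁] at h3
    exact h3
  have fin : ∀ (x : Sˣ), x ∈ cg e' → (x : S) = e' * (x : S) * e' + (1 - e') := by
    intro x hx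
    have hx1 := hx.1
    have hx2 := hx.2
    rw [sub_mul, one_mul] at hx1
    rw [mul_sub, mul_one] at hx2
    have h3 : e' * (x : S) = (x : S) - (1 - e') := by rw [← hx1]; abel
    have h4 : e' * (x : S) * e' = (x : S) * e' - (1 - e') * e' := by rw [h3, sub_mul]
    rw [h4, sub_mul, one_mul, h1, sub_self, sub_zero, ← hx2]
    abel
  have hαα : α = α₁ := by
    apply Units.ext
    rw [fin α hα, fin α₁ hα₁, key1]
  refine ⟨hαα, ?_⟩
  subst hαα
  -- lower left and upper right entries
  have key2 : e'' * (v : S) * (α * e') = e'' * (v₁ : S) * (α * e') := by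
    have h3 := congrArg (fun y => e'' * y * e') hS
    have e1 : ∀ (v β w : Sˣ), IsOff e'' e' v → IsOff e' e'' w → β ∈ cg e'' →
        e'' * ((v : S) * α * β * w) * e' = e'' * (v : S) * (α * e') := by
      intro v β w hv hw hβ
      calc e'' * ((v : S) * α * β * w) * e' = e'' * v * (α * (β * (w * e'))) := by
            simp only [mul_assoc]
        _ = e'' * (v : S) * (α * e') := by
            rw [(aw w hw).2, (b1 β hβ).2]
    rw [e1 v β w hv hw hβ, e1 v₁ β₁ w₁ hv₁ hw₁ hβ₁] at h3
    exact h3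
  have key3 : e' * ((α : S) * w) * e'' = e' * ((α : S) * w₁) * e'' := by
    have h3 := congrArg (fun y => e' * y * e'') hS
    have e1 : ∀ (v β w : Sˣ), IsOff e'' e' v → IsOff e' e'' w → β ∈ cg e'' →
        e' * ((v : S) * α * β * w) * e'' = e' * (((α : S) * w)) * e'' := by
      intro v β w hv hw hβ
      have hb : (α : S) * β = β * α - (β : S) * (α : S) + (α : S) * β := by abel
      have hαe : e' * (α : S) = α * e' := by
        have h4 := hα.1
        have h5 := hα.2
        rw [sub_mul, one_mul] at h4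
        rw [mul_sub, mul_one] at h5
        have h6 : (α : S) - e' * α = α - α * e' := by rw [h4, h5]
        exact sub_right_injective h6
      calc e' * ((v : S) * α * β * w) * e'' = (e' * v) * (α * (β * (w * e''))) := by
            simp only [mul_assoc]
        _ = (e' * α) * (β * (w * e'')) := by rw [(av v hv).1, mul_assoc]
        _ = α * ((e' * β) * (w * e'')) := by rw [hαe]; simp only [mul_assoc]
        _ = (α * e') * (w * e'') := by rw [(b1 β hβ).1, mul_assoc]
        _ = e' * (((α : S) * w)) * e'' := by rw [← hαe]; simp only [mul_assoc]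
    rw [e1 v β w hv hw hβ, e1 v₁ β₁ w₁ hv₁ hw₁ hβ₁] at h3
    exact h3
  have hαe : e' * (α : S) = α * e' := by
    have h4 := hα.1
    have h5 := hα.2
    rw [sub_mul, one_mul] at h4
    rw [mul_sub, mul_one] at h5
    have h6 : (α : S) - e' * α = α - α * e' := by rw [h4, h5]
    exact sub_right_injective h6
  have hvv : v = v₁ := by
    apply Units.ext
    rw [hv0, hv10]
    congr 1
    have h3 : e'' * (v : S) * e' = e'' * (v₁ : S) * e' := by
      rw [← hαe] at key2
      have h4 := congrArg (fun y => y * ((α⁻¹ : Sˣ) : S)) key2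
      simp only [mul_assoc, Units.mul_inv, mul_one] at h4
      simpa only [mul_assoc] using h4
    rw [mul_sub, sub_mul, mul_sub, sub_mul, h3]
  have hww : w = w₁ := by
    apply Units.ext
    rw [hw0, hw10]
    congr 1
    have h3 : e' * (w : S) * e'' = e' * (w₁ : S) * e'' := by
      rw [← mul_assoc, hαe, ← mul_assoc, hαe] at key3
      have h4 := congrArg (fun y => ((α⁻¹ : Sˣ) : S) * y) key3
      simp only [mul_assoc, Units.inv_mul_cancel_left] at h4
      simpa only [mul_assoc] using h4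
    rw [mul_sub, sub_mul, mul_sub, sub_mul, h3]
  subst hvv
  subst hww
  have := mul_right_cancel h
  exact mul_left_cancel this

end URingR
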