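import Pool.Agent.URingR.Sch1

/-!
# R3(b). The Schur complement is multiplicative (module SCH2)
-/

set_option linter.unusedSimpArgs false
set_option linter.unusedVariables false

namespace URingR

universe u v

variable {S : Type u} [Ring S] {M : Type v} [CommGroup M]

open Ring (jacobson)

/-- elements of `G_e'` and `G_e''` commute, and absorb the other idempotent -/
private theorem sch2_abs {e' e'' : S} (h12 : e' * e'' = 0) (h21 : e'' * e' = 0) {x : Sˣ}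
    (hx : x ∈ cg e') : e'' * (x : S) = e'' ∧ (x : S) * e'' = e'' := by
  have hx1 := congrArg (fun y => e'' * y) hx.1
  have hx2 := congrArg (fun y => y * e'') hx.2
  simp only [sub_mul, mul_sub, mul_one, one_mul, ← mul_assoc, h21, zero_mul, sub_zero] at hx1
  simp only [sub_mul, mul_sub, mul_one, one_mul, mul_assoc, h12, mul_zero, sub_zero] at hx2
  exact ⟨hx1, hx2⟩

private theorem sch2_comm_e {e' : S} {x : Sˣ} (hx : x ∈ cg e') : e' * (x : S) = x * e' := by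
  have h4 := hx.1
  have h5 := hx.2
  rw [sub_mul, one_mul] at h4
  rw [mul_sub, mul_one] at h5
  have h6 : (x : S) - e' * x = x - x * e' := by rw [h4, h5]
  exact sub_right_injective h6

private theorem sch2_comm {e' e'' : S} (h12 : e' * e'' = 0) (h21 : e'' * e' = 0) {x y : Sˣ}
    (hx : x ∈ cg e') (hy : y ∈ cg e'') : x * y = y * x := by
  have hx1 : ((x : S) - 1) = ((x : S) - 1) * e' := by
    have h5 := hx.2
    have : ((x : S) - 1) * (1 - e') = 0 := by rw [sub_mul, h5, one_mul, sub_self]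
    rw [mul_sub, mul_one, sub_eq_zero] at this
    exact this
  have hy1 : ((y : S) - 1) = ((y : S) - 1) * e'' := by
    have h5 := hy.2
    have : ((y : S) - 1) * (1 - e'') = 0 := by rw [sub_mul, h5, one_mul, sub_self]
    rw [mul_sub, mul_one, sub_eq_zero] at this
    exact this
  have z1 : ((x : S) - 1) * ((y : S) - 1) = 0 := by
    rw [hx1, mul_assoc, mul_sub, mul_one, (sch2_abs h21 h12 hy).1, sub_self, mul_zero]
  have z2 : ((y : S) - 1) * ((x : S) - 1) = 0 := by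
    rw [hy1, mul_assoc, mul_sub, mul_one, (sch2_abs h12 h21 hx).1, sub_self, mul_zero]
  apply Units.ext
  rw [Units.val_mul, Units.val_mul]
  have e1 : (x : S) * y = ((x : S) - 1) * ((y : S) - 1) + x + y - 1 := by noncomm_ring
  have e2 : (y : S) * x = ((y : S) - 1) * ((x : S) - 1) + x + y - 1 := by noncomm_ring
  rw [e1, e2, z1, z2]

private theorem sch2_off_mul {a b : S} {x y : Sˣ} (hx : IsOff a b x) (hy : IsOff a b y)
    (hba : b * a = 0) : IsOff a b (x * y) := by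
  have e1 : ((x * y : Sˣ) : S) - 1 = ((x : S) - 1) + ((y : S) - 1) + ((x : S) - 1) * ((y : S) - 1) := by
    rw [Units.val_mul]; noncomm_ring
  have z : ((x : S) - 1) * ((y : S) - 1) = 0 := by
    rw [← hx, ← hy]
    calc a * (↑x - 1) * b * (a * (↑y - 1) * b) = a * (↑x - 1) * (b * a) * ((↑y - 1) * b) := by
          simp only [mul_assoc]
      _ = 0 := by rw [hba]; simp
  unfold IsOff
  rw [e1, z, add_zero, mul_add, add_mul, hx, hy]

private theorem sch2_off_conj {a b : S} {x h : Sˣ} (hx : IsOff a b x)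
    (ha : a * (h : S) = h * a) (hb : b * (h : S) = h * b) : IsOff a b (h * x * h⁻¹) := by
  have hb' : ((h⁻¹ : Sˣ) : S) * b = b * ((h⁻¹ : Sˣ) : S) := by
    calc ((h⁻¹ : Sˣ) : S) * b = ((h⁻¹ : Sˣ) : S) * (b * (h : S)) * ((h⁻¹ : Sˣ) : S) := by
          simp only [mul_assoc, Units.mul_inv, mul_one]
      _ = b * ((h⁻¹ : Sˣ) : S) := by
          rw [hb, Units.inv_mul_cancel_left]
  have e1 : ((h * x * h⁻¹ : Sˣ) : S) - 1 = h * ((x : S) - 1) * ((h⁻¹ : Sˣ) : S) := by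
    push_cast
    rw [mul_sub, sub_mul, mul_one, Units.mul_inv]
  unfold IsOff
  rw [e1]
  calc a * (↑h * (↑x - 1) * ↑h⁻¹) * b = (a * ↑h) * ((↑x - 1) * (↑h⁻¹ * b)) := by
        simp only [mul_assoc]
    _ = ↑h * (a * (↑x - 1) * b) * ↑h⁻¹ := by
        rw [ha, hb']; simp only [mul_assoc]
    _ = _ := by rw [hx]

/-- the product of an upper and a lower element -/
private theorem sch2_swap {e' e'' s t : S} (h1 : e' * e' = e') (h2 : e'' * e'' = e'')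
    (h12 : e' * e'' = 0) (h21 : e'' * e' = 0)
    (hs : e' * s * e'' = s) (ht : e'' * t * e' = t) (k k' w v : Sˣ)
    (hk : (k : S) = 1 + s * t) (hk' : (k' : S) = 1 + t * s) (hw : (w : S) = 1 + s)
    (hv : (v : S) = 1 + t) :
    ∃ v0 w0 : Sˣ, IsOff e'' e' v0 ∧ IsOff e' e'' w0 ∧ k ∈ cg e' ∧ k' ∈ cg e'' ∧
      w * v = v0 * k * k'⁻¹ * w0 := by
  have es : e' * s = s := by
    rw [← hs]; simp only [← mul_assoc, h1]
  have se : s * e'' = s := by
    rw [← hs]; simp only [mul_assoc, h2]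
  have et : e'' * t = t := by
    rw [← ht]; simp only [← mul_assoc, h2]
  have te : t * e' = t := by
    rw [← ht]; simp only [mul_assoc, h1]
  have ss : s * s = 0 := by
    calc s * s = s * e'' * (e' * s) := by rw [es, se]
      _ = s * (e'' * e') * s := by simp only [mul_assoc]
      _ = 0 := by rw [h21]; simp
  have tt : t * t = 0 := by
    calc t * t = t * e' * (e'' * t) := by rw [et, te]
      _ = t * (e' * e'') * t := by simp only [mul_assoc]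
      _ = 0 := by rw [h12]; simp
  have cs : ∀ y, s * (s * y) = 0 := fun y => by rw [← mul_assoc, ss, zero_mul]
  have ct : ∀ y, t * (t * y) = 0 := fun y => by rw [← mul_assoc, tt, zero_mul]
  -- k⁻¹ s = s k'⁻¹, k⁻¹ t = t
  have kt : ((k⁻¹ : Sˣ) : S) * t = t := by
    have : (k : S) * t = t := by rw [hk, add_mul, one_mul, mul_assoc, tt, mul_zero, add_zero]
    calc ((k⁻¹ : Sˣ) : S) * t = ((k⁻¹ : Sˣ) : S) * ((k : S) * t) := by rw [this]
      _ = t := by rw [Units.inv_mul_cancel_left]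
  have sk : s * ((k⁻¹ : Sˣ) : S) = s := by
    have : s * (k : S) = s := by rw [hk, mul_add, mul_one, ← mul_assoc, ss, zero_mul, add_zero]
    calc s * ((k⁻¹ : Sˣ) : S) = s * (k : S) * ((k⁻¹ : Sˣ) : S) := by rw [this]
      _ = s := by rw [Units.mul_inv_cancel_right]
  have ks : ((k⁻¹ : Sˣ) : S) * s = s * ((k'⁻¹ : Sˣ) : S) := by
    have h3 : s * (k' : S) = k * s := by
      rw [hk, hk', mul_add, add_mul, mul_one, one_mul, mul_assoc]
    calc ((k⁻¹ : Sˣ) : S) * s = ((k⁻¹ : Sˣ) : S) * (s * (k' : S)) * ((k'⁻¹ : Sˣ) : S) := by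
          rw [mul_assoc, Units.mul_inv_cancel_right]
      _ = s * ((k'⁻¹ : Sˣ) : S) := by rw [h3, Units.inv_mul_cancel_left]
  have ks' : ((k'⁻¹ : Sˣ) : S) * s = s := by
    have : (k' : S) * s = s := by rw [hk', add_mul, one_mul, mul_assoc, ss, mul_zero, add_zero]
    calc ((k'⁻¹ : Sˣ) : S) * s = ((k'⁻¹ : Sˣ) : S) * ((k' : S) * s) := by rw [this]
      _ = s := by rw [Units.inv_mul_cancel_left]
  have hv1 : (1 + t * ((k⁻¹ : Sˣ) : S)) * (1 - t * ((k⁻¹ : Sˣ) : S)) = 1 := by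
    have z : t * ((k⁻¹ : Sˣ) : S) * (t * ((k⁻¹ : Sˣ) : S)) = 0 := by
      rw [mul_assoc, ← mul_assoc _ t, kt, ← mul_assoc, tt, zero_mul]
    have : (1 + t * ((k⁻¹ : Sˣ) : S)) * (1 - t * ((k⁻¹ : Sˣ) : S))
        = 1 - t * ((k⁻¹ : Sˣ) : S) * (t * ((k⁻¹ : Sˣ) : S)) := by noncomm_ring
    rw [this, z, sub_zero]
  have hv2 : (1 - t * ((k⁻¹ : Sˣ) : S)) * (1 + t * ((k⁻¹ : Sˣ) : S)) = 1 := by
    have z : t * ((k⁻¹ : Sˣ) : S) * (t * ((k⁻¹ : Sˣ) : S)) = 0 := by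
      rw [mul_assoc, ← mul_assoc _ t, kt, ← mul_assoc, tt, zero_mul]
    have : (1 - t * ((k⁻¹ : Sˣ) : S)) * (1 + t * ((k⁻¹ : Sˣ) : S))
        = 1 - t * ((k⁻¹ : Sˣ) : S) * (t * ((k⁻¹ : Sˣ) : S)) := by noncomm_ring
    rw [this, z, sub_zero]
  have zz : ((k⁻¹ : Sˣ) : S) * s * (((k⁻¹ : Sˣ) : S) * s) = 0 := by
    rw [mul_assoc, ← mul_assoc s, sk, ss, mul_zero]
  have hw1 : (1 + ((k⁻¹ : Sˣ) : S) * s) * (1 - ((k⁻¹ : Sˣ) : S) * s) = 1 := by
    have : (1 + ((k⁻¹ : Sˣ) : S) * s) * (1 - ((k⁻¹ : Sˣ) : S) * s)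
        = 1 - ((k⁻¹ : Sˣ) : S) * s * (((k⁻¹ : Sˣ) : S) * s) := by noncomm_ring
    rw [this, zz, sub_zero]
  have hw2 : (1 - ((k⁻¹ : Sˣ) : S) * s) * (1 + ((k⁻¹ : Sˣ) : S) * s) = 1 := by
    have : (1 - ((k⁻¹ : Sˣ) : S) * s) * (1 + ((k⁻¹ : Sˣ) : S) * s)
        = 1 - ((k⁻¹ : Sˣ) : S) * s * (((k⁻¹ : Sˣ) : S) * s) := by noncomm_ring
    rw [this, zz, sub_zero]
  have hkcg : k ∈ cg e' := by
    rw [mem_cg, hk]
    constructor
    · rw [mul_add, mul_one, ← mul_assoc, sub_mul, one_mul, es, sub_self, zero_mul, add_zero]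
    · rw [add_mul, one_mul, mul_assoc, mul_sub, mul_one, te, sub_self, mul_zero, add_zero]
  have hkcg' : k' ∈ cg e'' := by
    rw [mem_cg, hk']
    constructor
    · rw [mul_add, mul_one, ← mul_assoc, sub_mul, one_mul, et, sub_self, zero_mul, add_zero]
    · rw [add_mul, one_mul, mul_assoc, mul_sub, mul_one, se, sub_self, mul_zero, add_zero]
  have hkinv : e' * ((k⁻¹ : Sˣ) : S) = ((k⁻¹ : Sˣ) : S) * e' := sch2_comm_e (inv_mem hkcg)
  refine ⟨⟨_, _, hv1, hv2⟩, ⟨_, _, hw1, hw2⟩, ?_, ?_, hkcg, hkcg', ?_⟩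
  · show e'' * (1 + t * ((k⁻¹ : Sˣ) : S) - 1) * e' = 1 + t * ((k⁻¹ : Sˣ) : S) - 1
    rw [add_sub_cancel_left, ← mul_assoc, et, mul_assoc, ← hkinv, ← mul_assoc, te]
  · show e' * (1 + ((k⁻¹ : Sˣ) : S) * s - 1) * e'' = 1 + ((k⁻¹ : Sˣ) : S) * s - 1
    rw [add_sub_cancel_left, ← mul_assoc, hkinv, mul_assoc, mul_assoc, ← mul_assoc e', es, se]
  · apply Units.ext
    show (w : S) * (v : S) = (1 + t * ((k⁻¹ : Sˣ) : S)) * (k : S) * ((k'⁻¹ : Sˣ) : S)
      * (1 + ((k⁻¹ : Sˣ) : S) * s)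
    have e1 : (1 + t * ((k⁻¹ : Sˣ) : S)) * (k : S) = 1 + t + s * t := by
      rw [add_mul, one_mul, Units.inv_mul_cancel_right, hk]; abel
    have e2 : ((k'⁻¹ : Sˣ) : S) * (1 + ((k⁻¹ : Sˣ) : S) * s)
        = (1 + s) * ((k'⁻¹ : Sˣ) : S) := by
      rw [ks, mul_add, mul_one, ← mul_assoc, ks', add_mul, one_mul]
    rw [e1, mul_assoc, e2, ← mul_assoc, hw, hv]
    have e3 : (1 + t + s * t) * (1 + s) = (1 + s) * (1 + t) * (k' : S) := by
      rw [hk']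
      simp only [mul_add, add_mul, mul_one, one_mul, mul_assoc, ss, tt, cs, ct, mul_zero,
        add_zero]
      abel
    rw [e3, Units.mul_inv_cancel_right]

/-- **R3(b).** `χ` with `T(χ) = S`; `Claim χ e'`, `Claim χ e''`. Then `χ` extends to
`P = { u ∈ G_(e'+e'') : e'' u e' ∈ J }`.

Proof. `ψ(v α β w) = f'(α) f''(β)` for the extensions `f'`, `f''` on `G_e'`, `G_e''`
(`exists_ldu`, `ldu_unique`). Products on the left by lower elements, on the right by upper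
elements do not change `ψ`, and `h = αβ` (`α`, `β` commute; `h⁻¹ v h` is lower, `h w h⁻¹` is
upper). For an upper `w = 1+s` and a lower `v = 1+t` (`t ∈ J`): `w v = 1+s+t+st` has
`α = 1 + st` and `β = 1 - t(1+st)⁻¹s = (1+ts)⁻¹` (uniqueness: check
`(1+s)(1+t) = (1 + t(1+st)⁻¹) (1+st) (1+ts)⁻¹ (1 + (1+st)⁻¹ s)`), both in `1 + J`, so
`ψ(wv) = χ(1+st) χ(1+ts)⁻¹ = 1` because `T(χ) = S` (`s ∈ S`, `t ∈ J`; `mem_stab`). Hence
`ψ(u₁u₂) = ψ(v₁h₁(w₁v₂)h₂w₂) = ψ(v₁h₁ (v h w) h₂w₂) = ψ(h₁ h h₂) = ψ(u₁)ψ(u₂)`.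
On `1 + J`: `v, w, α, β` are in `1 + J` then, `χ(v) = χ(1+e''te') = χ(1 + te'e'') = 1`
(`e'' ∈ T(χ)`), `χ(w) = 1` in the same way, so `χ(u) = χ(α)χ(β) = ψ(u)`. -/
theorem schur [Finite S] (χ : oneAdd (jacobson S) →* M) (hχ : stab le_rfl χ = ⊤) {e' e'' : S}
    (h1 : e' * e' = e') (h2 : e'' * e'' = e'') (h12 : e' * e'' = 0) (h21 : e'' * e' = 0)
    (hc' : Claim χ e') (hc'' : Claim χ e'') (P : Subgroup Sˣ)
    (hP : ∀ u : Sˣ, u ∈ P ↔ u ∈ cg (e' + e'') ∧ e'' * (u : S) * e' ∈ jacobson S) :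
    ∃ ψ : P →* M, ∀ (u : Sˣ) (hu : u ∈ P) (hJ : u ∈ oneAdd (jacobson S)),
      ψ ⟨u, hu⟩ = χ ⟨u, hJ⟩ := by
  obtain ⟨f', hf'⟩ := hc'
  obtain ⟨f'', hf''⟩ := hc''
  have hs : ∀ s : S, s ∈ stab le_rfl χ := fun s => by rw [hχ]; exact Subring.mem_top _
  have hex : ∀ u : P, ∃ v w α β : Sˣ, IsOff e'' e' v ∧ v ∈ oneAdd (jacobson S) ∧
      IsOff e' e'' w ∧ α ∈ cg e' ∧ β ∈ cg e'' ∧
      (α : S) = e' * ((u : Sˣ) : S) * e' + (1 - e') ∧ (u : Sˣ) = v * α * β * w := fun u =>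
    exists_ldu h1 h2 h12 h21 (u : Sˣ) ((hP u).1 u.2).1 ((hP u).1 u.2).2
  choose V W A B hV hVJ hW hA hB hAe hVW using hex
  let g : P → M := fun u => f' ⟨A u, hA u⟩ * f'' ⟨B u, hB u⟩
  have hg : ∀ (u : P) (v w α β : Sˣ) (hv : IsOff e'' e' v) (hw : IsOff e' e'' w)
      (hα : α ∈ cg e') (hβ : β ∈ cg e''), (u : Sˣ) = v * α * β * w →
      g u = f' ⟨α, hα⟩ * f'' ⟨β, hβ⟩ := by
    intro u v w α β hv hw hα hβ h
    obtain ⟨ha, hb⟩ := ldu_unique h1 h2 h12 h21 (hV u) (hW u) (hA u) (hB u) hv hw hα hβ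
      ((hVW u).symm.trans h)
    subst ha
    subst hb
    rfl
  -- multiplicativity
  have hmul : ∀ x y : P, g (x * y) = g x * g y := by
    intro x y
    obtain ⟨s, hsdef⟩ : ∃ s : S, s = (W x : S) - 1 := ⟨_, rfl⟩
    obtain ⟨t, htdef⟩ : ∃ t : S, t = (V y : S) - 1 := ⟨_, rfl⟩
    have htJ : t ∈ jacobson S := by rw [htdef]; exact hVJ y
    have hsoff : e' * s * e'' = s := by rw [hsdef]; exact hW x
    have htoff : e'' * t * e' = t := by rw [htdef]; exact hV y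
    obtain ⟨k, hk⟩ := exists_oneAdd (I := jacobson S) le_rfl (Ideal.mul_mem_left _ s htJ)
    obtain ⟨k', hk'⟩ := exists_oneAdd (I := jacobson S) le_rfl (Ideal.mul_mem_right s _ htJ)
    obtain ⟨v0, w0, hv0, hw0, hkc, hkc', hprod⟩ := sch2_swap h1 h2 h12 h21 hsoff htoff k k'
      (W x) (V y) hk hk' (by rw [hsdef]; abel) (by rw [htdef]; abel)
    -- the value at `k k'⁻¹` is trivial
    have hone : f' ⟨(k : Sˣ), hkc⟩ * f'' ⟨((k' : Sˣ))⁻¹, inv_mem hkc'⟩ = 1 := by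
      have i1 : f' ⟨(k : Sˣ), hkc⟩ = χ k := hf' _ hkc k.2
      have i2 : f'' ⟨((k' : Sˣ))⁻¹, inv_mem hkc'⟩ = (χ k')⁻¹ := by
        rw [← map_inv]
        exact hf'' _ (inv_mem hkc') (inv_mem k'.2)
      rw [i1, i2, ← ev_of χ k hk, ← ev_of χ k' hk', hs s t htJ, mul_inv_cancel]
    -- commutation with the idempotents
    have c1 : ∀ u : P, e' * ((A u * B u : Sˣ) : S) = ((A u * B u : Sˣ) : S) * e' := by
      intro u
      rw [Units.val_mul, ← mul_assoc, sch2_comm_e (hA u), mul_assoc,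
        (sch2_abs h21 h12 (hB u)).1, mul_assoc, (sch2_abs h21 h12 (hB u)).2]
    have c2 : ∀ u : P, e'' * ((A u * B u : Sˣ) : S) = ((A u * B u : Sˣ) : S) * e'' := by
      intro u
      rw [Units.val_mul, ← mul_assoc, (sch2_abs h12 h21 (hA u)).1, mul_assoc,
        ← sch2_comm_e (hB u), ← mul_assoc, (sch2_abs h12 h21 (hA u)).2]
    have c3 : ∀ u : P, e' * (((A u * B u)⁻¹ : Sˣ) : S) = (((A u * B u)⁻¹ : Sˣ) : S) * e' := by
      intro u
      calc e' * (((A u * B u)⁻¹ : Sˣ) : S)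
          = (((A u * B u)⁻¹ : Sˣ) : S) * (((A u * B u : Sˣ) : S) * e')
              * (((A u * B u)⁻¹ : Sˣ) : S) := by rw [Units.inv_mul_cancel_left]
        _ = _ := by rw [← c1, mul_assoc, mul_assoc, Units.mul_inv, mul_one]
    have c4 : ∀ u : P, e'' * (((A u * B u)⁻¹ : Sˣ) : S) = (((A u * B u)⁻¹ : Sˣ) : S) * e'' := by
      intro u
      calc e'' * (((A u * B u)⁻¹ : Sˣ) : S)
          = (((A u * B u)⁻¹ : Sˣ) : S) * (((A u * B u : Sˣ) : S) * e'')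
              * (((A u * B u)⁻¹ : Sˣ) : S) := by rw [Units.inv_mul_cancel_left]
        _ = _ := by rw [← c2, mul_assoc, mul_assoc, Units.mul_inv, mul_one]
    have d1 : IsOff e'' e' (V x * ((A x * B x) * v0 * (A x * B x)⁻¹)) :=
      sch2_off_mul (hV x) (sch2_off_conj hv0 (c2 x) (c1 x)) h12
    have d2 : IsOff e' e'' (((A y * B y)⁻¹ * w0 * ((A y * B y)⁻¹)⁻¹) * W y) :=
      sch2_off_mul (sch2_off_conj hw0 (c3 y) (c4 y)) (hW y) h21
    have hfac : ((x * y : P) : Sˣ) = (V x * ((A x * B x) * v0 * (A x * B x)⁻¹))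
        * (A x * (k : Sˣ) * A y) * (B x * ((k' : Sˣ))⁻¹ * B y)
        * (((A y * B y)⁻¹ * w0 * ((A y * B y)⁻¹)⁻¹) * W y) := by
      have q1 : A x * B x * ((k : Sˣ) * ((k' : Sˣ))⁻¹) * (A y * B y)
          = (A x * (k : Sˣ) * A y) * (B x * ((k' : Sˣ))⁻¹ * B y) := by
        have r1 : B x * (k : Sˣ) = k * B x := (sch2_comm h12 h21 hkc (hB x)).symm
        have r2 : B x * ((k' : Sˣ))⁻¹ * A y = A y * (B x * ((k' : Sˣ))⁻¹) :=
          (sch2_comm h12 h21 (hA y) (mul_mem (hB x) (inv_mem hkc'))).symm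
        calc A x * B x * ((k : Sˣ) * ((k' : Sˣ))⁻¹) * (A y * B y)
            = A x * (B x * (k : Sˣ)) * ((k' : Sˣ))⁻¹ * (A y * B y) := by
              simp only [mul_assoc]
          _ = A x * (k : Sˣ) * (B x * ((k' : Sˣ))⁻¹ * A y) * B y := by
              rw [r1]; simp only [mul_assoc]
          _ = _ := by rw [r2]; simp only [mul_assoc]
      calc ((x * y : P) : Sˣ) = (x : Sˣ) * (y : Sˣ) := rfl
        _ = (V x * A x * B x * W x) * (V y * A y * B y * W y) := by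
            rw [← hVW x, ← hVW y]
        _ = V x * (A x * B x) * (W x * V y) * (A y * B y) * W y := by
            simp only [mul_assoc]
        _ = V x * (A x * B x) * (v0 * (k : Sˣ) * ((k' : Sˣ))⁻¹ * w0) * (A y * B y) * W y := by
            rw [hprod]
        _ = (V x * ((A x * B x) * v0 * (A x * B x)⁻¹))
            * (A x * B x * ((k : Sˣ) * ((k' : Sˣ))⁻¹) * (A y * B y))
            * (((A y * B y)⁻¹ * w0 * ((A y * B y)⁻¹)⁻¹) * W y) := by
            simp only [mul_assoc, inv_inv, mul_inv_rev, inv_mul_cancel_left, mul_inv_cancel_left]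
        _ = _ := by rw [q1]; simp only [mul_assoc]
    rw [hg (x * y) _ _ _ _ d1 d2 (mul_mem (mul_mem (hA x) hkc) (hA y))
      (mul_mem (mul_mem (hB x) (inv_mem hkc')) (hB y)) hfac]
    have s1 : f' ⟨A x * (k : Sˣ) * A y, mul_mem (mul_mem (hA x) hkc) (hA y)⟩
        = f' ⟨A x, hA x⟩ * f' ⟨(k : Sˣ), hkc⟩ * f' ⟨A y, hA y⟩ := by
      rw [← map_mul, ← map_mul]; rfl
    have s2 : f'' ⟨B x * ((k' : Sˣ))⁻¹ * B y, mul_mem (mul_mem (hB x) (inv_mem hkc')) (hB y)⟩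
        = f'' ⟨B x, hB x⟩ * f'' ⟨((k' : Sˣ))⁻¹, inv_mem hkc'⟩ * f'' ⟨B y, hB y⟩ := by
      rw [← map_mul, ← map_mul]; rfl
    rw [s1, s2]
    show _ = f' ⟨A x, hA x⟩ * f'' ⟨B x, hB x⟩ * (f' ⟨A y, hA y⟩ * f'' ⟨B y, hB y⟩)
    calc f' ⟨A x, hA x⟩ * f' ⟨(k : Sˣ), hkc⟩ * f' ⟨A y, hA y⟩
          * (f'' ⟨B x, hB x⟩ * f'' ⟨((k' : Sˣ))⁻¹, inv_mem hkc'⟩ * f'' ⟨B y, hB y⟩)
        = (f' ⟨(k : Sˣ), hkc⟩ * f'' ⟨((k' : Sˣ))⁻¹, inv_mem hkc'⟩)
          * (f' ⟨A x, hA x⟩ * f'' ⟨B x, hB x⟩ * (f' ⟨A y, hA y⟩ * f'' ⟨B y, hB y⟩)) := by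
          simp only [mul_assoc, mul_comm, mul_left_comm]
      _ = _ := by rw [hone, one_mul]
  refine ⟨MonoidHom.mk' g hmul, fun u hu hJ => ?_⟩
  show g ⟨u, hu⟩ = χ ⟨u, hJ⟩
  have hfac := hVW ⟨u, hu⟩
  set v := V ⟨u, hu⟩
  set w := W ⟨u, hu⟩
  set α := A ⟨u, hu⟩
  set β := B ⟨u, hu⟩
  have hvJ : v ∈ oneAdd (jacobson S) := hVJ ⟨u, hu⟩
  have hαJ : α ∈ oneAdd (jacobson S) := by
    have h3 : (α : S) - 1 = e' * ((u : S) - 1) * e' := by
      have h4 : (α : S) = e' * (u : S) * e' + (1 - e') := hAe ⟨u, hu⟩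
      rw [h4, mul_sub, sub_mul, mul_one, h1]; abel
    rw [mem_oneAdd, h3]
    exact Ideal.mul_mem_right _ _ (Ideal.mul_mem_left _ _ hJ)
  -- β w ∈ 1 + J
  have hβw : β * w ∈ oneAdd (jacobson S) := by
    have h3 : β * w = α⁻¹ * v⁻¹ * u := by
      have : u = v * α * β * w := hfac
      rw [this]; simp only [mul_assoc, inv_mul_cancel_left]
    rw [h3]
    exact mul_mem (mul_mem (inv_mem hαJ) (inv_mem hvJ)) hJ
  have hwoff : e' * ((w : S) - 1) * e'' = (w : S) - 1 := hW ⟨u, hu⟩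
  have hβcg : β ∈ cg e'' := hB ⟨u, hu⟩
  have hβJ : β ∈ oneAdd (jacobson S) := by
    have h3 : (β : S) - 1 = e'' * (((β * w : Sˣ) : S) - 1) := by
      have h4 : e'' * (β : S) * ((w : S) - 1) = 0 := by
        rw [← hwoff]
        calc e'' * (β : S) * (e' * ((w : S) - 1) * e'')
            = e'' * ((β : S) * e') * (((w : S) - 1) * e'') := by simp only [mul_assoc]
          _ = 0 := by rw [(sch2_abs h21 h12 hβcg).2, h21, zero_mul]
      have h5 : e'' * ((β : S) - 1) = (β : S) - 1 := by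
        have := hβcg.1
        rw [sub_mul, one_mul] at this
        rw [mul_sub, mul_one]
        have h6 : e'' * (β : S) = β - (1 - e'') := by rw [← this]; abel
        rw [h6]; abel
      have h7 : e'' * (((β * w : Sˣ) : S) - 1)
          = e'' * (β : S) * ((w : S) - 1) + e'' * ((β : S) - 1) := by
        rw [Units.val_mul]; noncomm_ring
      rw [h7, h4, zero_add, h5]
    rw [mem_oneAdd, h3]
    exact Ideal.mul_mem_left _ _ hβw
  have hwJ : w ∈ oneAdd (jacobson S) := by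
    have := mul_mem (inv_mem hβJ) hβw
    rwa [inv_mul_cancel_left] at this
  -- values at v and w
  have hχv : χ ⟨v, hvJ⟩ = 1 := by
    have h3 := hs e'' ((v : S) - 1) hvJ
    have hoff : e'' * ((v : S) - 1) * e' = (v : S) - 1 := hV ⟨u, hu⟩
    have h4 : e'' * ((v : S) - 1) = (v : S) - 1 := by
      rw [← hoff]; simp only [← mul_assoc, h2]
    have h5 : ((v : S) - 1) * e'' = 0 := by
      rw [← hoff]; simp only [mul_assoc, h12, mul_zero]
    rw [h4, h5, ev_zero] at h3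
    rw [← h3]
    exact (ev_coe χ ⟨v, hvJ⟩).symm
  have hχw : χ ⟨w, hwJ⟩ = 1 := by
    have h3 := hs e' ((w : S) - 1) hwJ
    have h4 : e' * ((w : S) - 1) = (w : S) - 1 := by
      rw [← hwoff]; simp only [← mul_assoc, h1]
    have h5 : ((w : S) - 1) * e' = 0 := by
      rw [← hwoff]; simp only [mul_assoc, h21, mul_zero]
    rw [h4, h5, ev_zero] at h3
    rw [← h3]
    exact (ev_coe χ ⟨w, hwJ⟩).symm
  have h3 : (⟨u, hJ⟩ : oneAdd (jacobson S)) = ⟨v, hvJ⟩ * ⟨α, hαJ⟩ * ⟨β, hβJ⟩ * ⟨w, hwJ⟩ :=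
    Subtype.ext hfac
  rw [h3, map_mul, map_mul, map_mul, hχv, hχw, one_mul, mul_one]
  show f' ⟨α, _⟩ * f'' ⟨β, _⟩ = _
  rw [hf' α _ hαJ, hf'' β _ hβJ]

end URingR
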