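import Pool.Agent.URingR.Basic

/-!
# R1. Stabilisers of linear characters are unit groups of subrings
-/

namespace URingR

universe u v

variable {S : Type u} [Ring S] {M : Type v} [CommGroup M]
variable {I : Ideal S} [I.IsTwoSided]

/-- for `y ∈ I` and `w = 1 + s y` also `1 + y s` is a unit of `1 + I`, and
`y (1 + s y)⁻¹ = (1 + y s)⁻¹ y`. -/
theorem exists_swap (hI : I ≤ Ring.jacobson S) (s : S) {y : S} (hy : y ∈ I) :
    ∃ u w : oneAdd I, ((u : Sˣ) : S) = 1 + s * y ∧ ((w : Sˣ) : S) = 1 + y * s ∧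
      y * (((u : Sˣ)⁻¹ : Sˣ) : S) = (((w : Sˣ)⁻¹ : Sˣ) : S) * y := by
  obtain ⟨u, hu⟩ := exists_oneAdd hI (I.mul_mem_left s hy)
  obtain ⟨w, hw⟩ := exists_oneAdd hI (I.mul_mem_right s hy)
  refine ⟨u, w, hu, hw, ?_⟩
  have h1 : ((w : Sˣ) : S) * y = y * ((u : Sˣ) : S) := by
    rw [hu, hw]; noncomm_ring
  calc y * (((u : Sˣ)⁻¹ : Sˣ) : S)
      = (((w : Sˣ)⁻¹ : Sˣ) : S) * (((w : Sˣ) : S) * y) * (((u : Sˣ)⁻¹ : Sˣ) : S) := by
        rw [← mul_assoc (((w : Sˣ)⁻¹ : Sˣ) : S), Units.inv_mul, one_mul]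
    _ = (((w : Sˣ)⁻¹ : Sˣ) : S) * y := by
        rw [h1, mul_assoc, mul_assoc, Units.mul_inv, mul_one]

/-- the additivity computation of R1(a), used again in R2(a): `a, b` with
`ν(1+ay) = ν(1+ya)` and `ν(1+by'') = ν(1+y''b)` for `y'' = (1+ya)⁻¹ y`. -/
theorem ev_add_aux (hI : I ≤ Ring.jacobson S) (ν : oneAdd I →* M) (a b y : S)
    (hay : a * y ∈ I) (hya : y * a ∈ I) (hby : b * y ∈ I) (hyb : y * b ∈ I)
    (h1 : ev ν (a * y) = ev ν (y * a))
    (h2 : ∀ w : oneAdd I, ((w : Sˣ) : S) = 1 + y * a →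
      ev ν (b * ((((w : Sˣ)⁻¹ : Sˣ) : S) * y)) = ev ν ((((w : Sˣ)⁻¹ : Sˣ) : S) * y * b)) :
    ev ν ((a + b) * y) = ev ν (y * (a + b)) := by
  obtain ⟨u, hu⟩ := exists_oneAdd hI hay
  obtain ⟨w, hw⟩ := exists_oneAdd hI hya
  have hsw : y * (((u : Sˣ)⁻¹ : Sˣ) : S) = (((w : Sˣ)⁻¹ : Sˣ) : S) * y := by
    have h1 : ((w : Sˣ) : S) * y = y * ((u : Sˣ) : S) := by
      rw [hu, hw]; noncomm_ring
    calc y * (((u : Sˣ)⁻¹ : Sˣ) : S)
        = (((w : Sˣ)⁻¹ : Sˣ) : S) * (((w : Sˣ) : S) * y) * (((u : Sˣ)⁻¹ : Sˣ) : S) := by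
          rw [← mul_assoc (((w : Sˣ)⁻¹ : Sˣ) : S), Units.inv_mul, one_mul]
      _ = (((w : Sˣ)⁻¹ : Sˣ) : S) * y := by
          rw [h1, mul_assoc, mul_assoc, Units.mul_inv, mul_one]
  -- left side
  have hL : ev ν ((a + b) * y) = ev ν (a * y) * ev ν ((((u : Sˣ)⁻¹ : Sˣ) : S) * (b * y)) := by
    rw [ev_mul ν hI hay (I.mul_mem_left _ hby)]
    congr 1
    have : (1 + a * y) * ((((u : Sˣ)⁻¹ : Sˣ) : S) * (b * y)) = b * y := by
      rw [← hu, ← mul_assoc, Units.mul_inv, one_mul]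
    calc (a + b) * y = a * y + b * y := by rw [add_mul]
      _ = a * y + (1 + a * y) * ((((u : Sˣ)⁻¹ : Sˣ) : S) * (b * y)) := by rw [this]
      _ = _ := by rw [add_mul, one_mul, ← add_assoc]
  have hR : ev ν (y * (a + b)) = ev ν (y * a) * ev ν ((((w : Sˣ)⁻¹ : Sˣ) : S) * (y * b)) := by
    rw [ev_mul ν hI hya (I.mul_mem_left _ hyb)]
    congr 1
    have : (1 + y * a) * ((((w : Sˣ)⁻¹ : Sˣ) : S) * (y * b)) = y * b := by
      rw [← hw, ← mul_assoc, Units.mul_inv, one_mul]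
    calc y * (a + b) = y * a + y * b := by rw [mul_add]
      _ = y * a + (1 + y * a) * ((((w : Sˣ)⁻¹ : Sˣ) : S) * (y * b)) := by rw [this]
      _ = _ := by rw [add_mul (1 : S), one_mul, ← add_assoc]
  rw [hL, hR, h1, ev_swap ν hI hby u]
  congr 1
  rw [mul_assoc b, hsw, h2 w hw, mul_assoc]

/-- **R1.** The stabiliser subring `T(ν)`: all `s` with `ν(1+sy) = ν(1+ys)` for `y ∈ I`. -/
def stab (hI : I ≤ Ring.jacobson S) (ν : oneAdd I →* M) : Subring S where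
  carrier := {s | ∀ y ∈ I, ev ν (s * y) = ev ν (y * s)}
  mul_mem' := by
    intro s t hs ht y hy
    rw [mul_assoc, hs (t * y) (I.mul_mem_left _ hy), mul_assoc, ht (y * s) (I.mul_mem_right _ hy),
      mul_assoc]
  one_mem' := by intro y _; rw [one_mul, mul_one]
  add_mem' := by
    intro s t hs ht y hy
    refine ev_add_aux hI ν s t y (I.mul_mem_left _ hy) (I.mul_mem_right _ hy)
      (I.mul_mem_left _ hy) (I.mul_mem_right _ hy) (hs y hy) ?_
    intro w _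
    exact ht _ (I.mul_mem_left _ hy)
  zero_mem' := by intro y _; rw [zero_mul, mul_zero]
  neg_mem' := by
    intro s hs y hy
    have h := hs (-y) (I.neg_mem hy)
    rw [neg_mul, mul_neg]
    rw [mul_neg, neg_mul] at h
    exact h

theorem mem_stab (hI : I ≤ Ring.jacobson S) (ν : oneAdd I →* M) {s : S} :
    s ∈ stab hI ν ↔ ∀ y ∈ I, ev ν (s * y) = ev ν (y * s) := Iff.rfl

/-- the conjugate of an element of `1 + I` by a unit -/
def conjE (g : Sˣ) (n : oneAdd I) : oneAdd I :=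
  ⟨g * n * g⁻¹, (oneAdd_normal I).conj_mem n n.2 g⟩

/-- **R1(b).** A unit lies in `T(ν)` if and only if it stabilises `ν`. -/
theorem unit_mem_stab (hI : I ≤ Ring.jacobson S) (ν : oneAdd I →* M) (g : Sˣ) :
    (g : S) ∈ stab hI ν ↔ ∀ n : oneAdd I, ν (conjE g n) = ν n := by
  constructor
  · intro h n
    have hy : (((n : Sˣ) : S) - 1) * ((g⁻¹ : Sˣ) : S) ∈ I := I.mul_mem_right _ n.2
    have h1 := h _ hy
    have e1 : (g : S) * ((((n : Sˣ) : S) - 1) * ((g⁻¹ : Sˣ) : S))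
        = (((conjE g n : oneAdd I) : Sˣ) : S) - 1 := by
      simp only [conjE, Units.val_mul]
      rw [sub_mul, mul_sub, one_mul, Units.mul_inv, mul_assoc]
    have e2 : (((n : Sˣ) : S) - 1) * ((g⁻¹ : Sˣ) : S) * (g : S) = ((n : Sˣ) : S) - 1 := by
      rw [mul_assoc, Units.inv_mul, mul_one]
    rw [e1, e2, ev_coe, ev_coe] at h1
    exact h1
  · intro h y hy
    obtain ⟨n, hn⟩ := exists_oneAdd hI (I.mul_mem_right (g : S) hy)
    have e1 : (((conjE g n : oneAdd I) : Sˣ) : S) = 1 + (g : S) * y := by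
      simp only [conjE, Units.val_mul, hn]
      rw [mul_add, add_mul, mul_one, Units.mul_inv, mul_assoc (g : S), mul_assoc y,
        Units.mul_inv, mul_one]
    rw [ev_of ν _ e1, ev_of ν n hn, h n]

/-- `T(ν) = S` means that `ν` is invariant under all units. -/
theorem conj_of_stab_top (hI : I ≤ Ring.jacobson S) (ν : oneAdd I →* M)
    (h : stab hI ν = ⊤) (g : Sˣ) (n : oneAdd I) : ν (conjE g n) = ν n :=
  (unit_mem_stab hI ν g).1 (by rw [h]; exact Subring.mem_top _) n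

/-- invariance of `ev` under conjugation by units when `T(ν) = S` -/
theorem ev_conj_unit (hI : I ≤ Ring.jacobson S) (ν : oneAdd I →* M) (h : stab hI ν = ⊤)
    (g : Sˣ) {y : S} (hy : y ∈ I) : ev ν ((g : S) * y * ((g⁻¹ : Sˣ) : S)) = ev ν y := by
  have h1 : (g : S) ∈ stab hI ν := by rw [h]; exact Subring.mem_top _
  have := h1 (y * ((g⁻¹ : Sˣ) : S)) (I.mul_mem_right _ hy)
  rw [← mul_assoc] at this
  rw [this, mul_assoc, Units.inv_mul, mul_one]

end URingR
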