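import Pool.Agent.URingR.AnDef
import Pool.Agent.URingR.Corner

/-!
# R4(e). The data for the Weil step
-/

namespace URingR

universe u v

variable {S : Type u} [Ring S] {M : Type v} [CommGroup M]

open Ring (jacobson)

/-- the inclusion of the units of a subring -/
abbrev uinc (T : Subring S) : Tˣ →* Sˣ := Units.map T.subtype.toMonoidHom

/-- Output of the anisotropic case. -/
structure WOut (B : Ideal S) [B.IsTwoSided] (μ : oneAdd B →* M) where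
  K : Ideal S
  [two : K.IsTwoSided]
  BK : B ≤ K
  KJ : K ≤ jacobson S
  F : Type u
  [field : Field F]
  [finF : Finite F]
  q0 : ℕ
  one_lt : 1 < q0
  card_F : Nat.card F = q0 ^ 2
  V : Type u
  [ab : AddCommGroup V]
  [mod : Module F V]
  [finV : Finite V]
  [nontriv : Nontrivial V]
  θ : oneAdd K →* Multiplicative V
  θ_surj : Function.Surjective θ
  θ_ker : ∀ n : oneAdd K, θ n = 1 ↔ (n : Sˣ) ∈ oneAdd B
  T : Subring S
  T_ne : T ≠ ⊤
  ρ : Tˣ →* Module.End F V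
  equiv : ∀ (y : Tˣ) (n : oneAdd K),
    θ (conjE (uinc T y) n) = Multiplicative.ofAdd (ρ y (Multiplicative.toAdd (θ n)))
  decomp : ∀ u : Sˣ, ∃ n ∈ oneAdd K, ∃ y : Tˣ, u = n * uinc T y
  z : Tˣ
  z_comm : ∀ y : Tˣ, z * y = y * z
  u0 : F
  prim : IsPrimitiveRoot u0 (q0 + 1)
  ρ_z : ∀ v : V, ρ z v = u0 • v
  nondeg : ∀ n : oneAdd K, (n : Sˣ) ∉ oneAdd B → ∃ n' : oneAdd K,
    ∃ h : (n : Sˣ) * (n' : Sˣ) * (n : Sˣ)⁻¹ * (n' : Sˣ)⁻¹ ∈ oneAdd B, μ ⟨_, h⟩ ≠ 1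

end URingR
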