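import Mathlib

/-!
# Wedderburn–Artin data of a finite ring (module WED)
-/

namespace URingR

universe u

/-- The Wedderburn decomposition of `S / J`, with lifted orthogonal idempotents. -/
structure Wedd (S : Type u) [Ring S] where
  n : ℕ
  d : Fin n → ℕ
  F : Fin n → Type u
  [field : ∀ i, Field (F i)]
  [fin : ∀ i, Finite (F i)]
  π : S →+* ((i : Fin n) → Matrix (Fin (d i)) (Fin (d i)) (F i))
  surj : Function.Surjective π
  ker : RingHom.ker π = Ring.jacobson S
  E : (Σ i : Fin n, Fin (d i)) → S
  compl : CompleteOrthogonalIdempotents E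
  πE : ∀ x : (Σ i : Fin n, Fin (d i)), π (E x) = Pi.single x.1 (Matrix.single x.2 x.2 1)

attribute [instance] Wedd.field Wedd.fin

private theorem wedd_idem {n : ℕ} (d : Fin n → ℕ) (F : Fin n → Type u) [∀ i, Ring (F i)] :
    CompleteOrthogonalIdempotents
      (fun x : (Σ i : Fin n, Fin (d i)) =>
        (Pi.single x.1 (Matrix.single x.2 x.2 1) :
          (i : Fin n) → Matrix (Fin (d i)) (Fin (d i)) (F i))) where
  idem x := by
    show _ * _ = _
    rw [← Pi.single_mul, Matrix.single_mul_single_same, one_mul]
  ortho := by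
    rintro ⟨i, a⟩ ⟨j, b⟩ h
    show _ * _ = _
    by_cases hij : i = j
    · subst hij
      have hab : a ≠ b := fun h' => h (by rw [h'])
      show (Pi.single i (Matrix.single a a 1) :
          (i : Fin n) → Matrix (Fin (d i)) (Fin (d i)) (F i)) *
        Pi.single i (Matrix.single b b 1) = 0
      rw [← Pi.single_mul, Matrix.single_mul_single_of_ne (h := hab), Pi.single_zero]
    · funext k
      rw [Pi.mul_apply, Pi.zero_apply]
      by_cases hk : k = i
      · subst hk
        rw [Pi.single_eq_of_ne hij, mul_zero]
      · rw [Pi.single_eq_of_ne hk, zero_mul]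
  complete := by
    funext k
    rw [Fintype.sum_sigma, Finset.sum_apply, Finset.sum_eq_single k]
    · rw [Finset.sum_apply]
      simp only [Pi.single_eq_same]
      rw [Pi.one_apply, ← Matrix.diagonal_one, ← Matrix.sum_single_eq_diagonal]
    · intro j _ hj
      rw [Finset.sum_apply]
      exact Finset.sum_eq_zero fun a _ => Pi.single_eq_of_ne (Ne.symm hj) _
    · intro h
      exact absurd (Finset.mem_univ _) h

/-- **WED.** Every finite ring has Wedderburn data.

Proof. `S ⧸ Ring.jacobson S` is artinian with zero radical, so semisimple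
(`IsArtinianRing.isSemisimpleRing_of_...`, `Mathlib/RingTheory/Artinian/*`,
`IsSemiprimaryRing`), `IsSemisimpleRing.exists_ringEquiv_pi_matrix_divisionRing` (finite index
type `Fin n`, division rings, which are finite as quotients of a finite ring) and
`littleWedderburn` for the field structure. Kernel of `S → S ⧸ J` nilpotent:
`IsArtinianRing.isNilpotent_jacobson_bot` (`Ideal.jacobson_bot`). The matrix units
`Pi.single i (Matrix.single a a 1)` are complete orthogonal idempotents; lift them with
`CompleteOrthogonalIdempotents.lift_of_isNilpotent_ker`. -/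
theorem exists_wedd (S : Type u) [Ring S] [Finite S] : Nonempty (Wedd S) := by
  classical
  obtain ⟨n, D, d, inst, hd, ⟨e⟩⟩ :=
    IsSemisimpleRing.exists_ringEquiv_pi_matrix_divisionRing (S ⧸ Ring.jacobson S)
  have hQ : Finite (S ⧸ Ring.jacobson S) :=
    Finite.of_surjective _ Ideal.Quotient.mk_surjective
  have hP : Finite ((i : Fin n) → Matrix (Fin (d i)) (Fin (d i)) (D i)) :=
    Finite.of_equiv _ e.toEquiv
  have hfin : ∀ i, Finite (D i) := fun i => by
    have h0 : 0 < d i := Nat.pos_of_ne_zero (hd i).out
    refine Finite.of_surjective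
      (fun M : ((i : Fin n) → Matrix (Fin (d i)) (Fin (d i)) (D i)) => M i ⟨0, h0⟩ ⟨0, h0⟩)
      (fun x => ⟨fun j => Matrix.of fun _ _ => if h : j = i then h ▸ x else 0, ?_⟩)
    simp
  let π : S →+* ((i : Fin n) → Matrix (Fin (d i)) (Fin (d i)) (D i)) :=
    (e : (S ⧸ Ring.jacobson S) →+* ((i : Fin n) → Matrix (Fin (d i)) (Fin (d i)) (D i))).comp
      (Ideal.Quotient.mk (Ring.jacobson S))
  have hk : RingHom.ker π = Ring.jacobson S := by
    ext x
    rw [RingHom.mem_ker]
    show e (Ideal.Quotient.mk (Ring.jacobson S) x) = 0 ↔ _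
    rw [map_eq_zero_iff e e.injective, Ideal.Quotient.eq_zero_iff_mem]
  have hsurj : Function.Surjective π := fun y => by
    obtain ⟨q, hq⟩ := e.surjective y
    obtain ⟨x, hx⟩ := Ideal.Quotient.mk_surjective q
    exact ⟨x, by show e (Ideal.Quotient.mk (Ring.jacobson S) x) = y; rw [hx, hq]⟩
  have hker : ∀ x ∈ RingHom.ker π, IsNilpotent x := by
    intro x hx
    rw [hk] at hx
    obtain ⟨m, hm⟩ := IsSemiprimaryRing.isNilpotent (R := S)
    refine ⟨m, ?_⟩
    have h1 : x ^ m ∈ (Ring.jacobson S) ^ m := Ideal.pow_mem_pow hx m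
    rw [hm] at h1
    exact h1
  obtain ⟨E, hE, hE2⟩ := CompleteOrthogonalIdempotents.lift_of_isNilpotent_ker π hker
    (wedd_idem d D) (fun x => hsurj _)
  exact ⟨{ n := n
           d := d
           F := D
           field := fun i => littleWedderburn (D i)
           fin := hfin
           π := π
           surj := hsurj
           ker := hk
           E := E
           compl := hE
           πE := fun x => congrFun hE2 x }⟩

end URingR
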